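import Pool.Agent.H191Z.GBasic

set_option autoImplicit false
set_option backward.isDefEq.respectTransparency false
set_option linter.style.haveILetI false

universe u

open CategoryTheory AlgebraicGeometry TensorProduct Limits

namespace Pool.Agent.H191Z.Gerbe

variable {k : Type} [Field k]

/-- the spectrum of a `k`-algebra -/
noncomputable def SpO (k : Type) [Field k] (A : Type) [CommRing A] [Algebra k A] : Sch k :=
  Over.mk (Spec.map (CommRingCat.ofHom (algebraMap k A)))

section
variable {A B E : Type} [CommRing A] [Algebra k A] [CommRing B] [Algebra k B] [CommRing E]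
  [Algebra k E]

theorem SpO_hom : (SpO k A).hom = Spec.map (CommRingCat.ofHom (algebraMap k A)) := rfl

/-- the map of spectra -/
noncomputable def SpM (f : A →ₐ[k] B) : SpO k B ⟶ SpO k A :=
  Over.homMk (Spec.map (CommRingCat.ofHom f.toRingHom)) (by
    change Spec.map _ ≫ Spec.map _ = Spec.map _
    rw [← Spec.map_comp, ← CommRingCat.ofHom_comp]
    congr 2
    exact f.comp_algebraMap)

theorem SpM_left (f : A →ₐ[k] B) : (SpM f).left = Spec.map (CommRingCat.ofHom f.toRingHom) := rfl

theorem SpM_comp (f : A →ₐ[k] B) (g : B →ₐ[k] E) : SpM (g.comp f) = SpM g ≫ SpM f := by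
  ext1
  change Spec.map _ = Spec.map _ ≫ Spec.map _
  rw [← Spec.map_comp]
  rfl

theorem SpM_id : SpM (AlgHom.id k A) = 𝟙 (SpO k A) := by
  ext1
  exact Spec.map_id _

theorem SpM_injective : Function.Injective (SpM : (A →ₐ[k] B) → _) := by
  intro f g h
  have h1 : Spec.map (CommRingCat.ofHom f.toRingHom) = Spec.map (CommRingCat.ofHom g.toRingHom) :=
    congrArg (fun m => m.left) h
  have h2 := Spec.map_injective h1
  ext x
  exact congrArg (fun m => m.hom x) h2

theorem SpM_surjective : Function.Surjective (SpM : (A →ₐ[k] B) → _) := by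
  intro m
  obtain ⟨φ, hφ⟩ := Spec.map_surjective (R := CommRingCat.of A) (S := CommRingCat.of B) m.left
  have hw : m.left ≫ Spec.map (CommRingCat.ofHom (algebraMap k A)) =
      Spec.map (CommRingCat.ofHom (algebraMap k B)) := Over.w m
  rw [← hφ, ← Spec.map_comp] at hw
  have h2 := Spec.map_injective hw
  refine ⟨⟨φ.hom, fun r => congrArg (fun m => m.hom r) h2⟩, ?_⟩
  ext1
  exact hφ

theorem isPullback_tensor :
    IsPullback (SpM (Algebra.TensorProduct.includeLeft : A →ₐ[k] A ⊗[k] B)).left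
      (SpM (Algebra.TensorProduct.includeRight : B →ₐ[k] A ⊗[k] B)).left
      (SpO k A).hom (SpO k B).hom :=
  isPullback_SpecMap_of_isPushout _ _ _ _ (CommRingCat.isPushout_tensorProduct k A B)

/-- the map to the product -/
noncomputable def tlift {S : Sch k} (f : S ⟶ SpO k A) (g : S ⟶ SpO k B) : S ⟶ SpO k (A ⊗[k] B) :=
  Over.homMk (isPullback_tensor.lift f.left g.left (by rw [Over.w f, Over.w g])) (by
    rw [← Over.w (SpM (Algebra.TensorProduct.includeLeft : A →ₐ[k] A ⊗[k] B)),
      IsPullback.lift_fst_assoc, Over.w f])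

theorem tlift_fst {S : Sch k} (f : S ⟶ SpO k A) (g : S ⟶ SpO k B) :
    tlift f g ≫ SpM Algebra.TensorProduct.includeLeft = f := by
  ext1
  exact IsPullback.lift_fst _ _ _ _

theorem tlift_snd {S : Sch k} (f : S ⟶ SpO k A) (g : S ⟶ SpO k B) :
    tlift f g ≫ SpM Algebra.TensorProduct.includeRight = g := by
  ext1
  exact IsPullback.lift_snd _ _ _ _

theorem tensor_ext {S : Sch k} (f g : S ⟶ SpO k (A ⊗[k] B))
    (h1 : f ≫ SpM Algebra.TensorProduct.includeLeft = g ≫ SpM Algebra.TensorProduct.includeLeft)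
    (h2 : f ≫ SpM Algebra.TensorProduct.includeRight =
      g ≫ SpM Algebra.TensorProduct.includeRight) : f = g := by
  ext1
  exact isPullback_tensor.hom_ext (congrArg (fun m => m.left) h1) (congrArg (fun m => m.left) h2)

end

theorem exists_affine (R : Sch k) [IsAffine R.left] :
    ∃ (A : Type) (_ : CommRing A) (_ : Algebra k A), Nonempty (R ≅ SpO k A) := by
  obtain ⟨φ, hφ⟩ := Spec.map_surjective (R := CommRingCat.of k) (S := Γ(R.left, ⊤))
    (R.left.isoSpec.inv ≫ R.hom)
  letI : Algebra k Γ(R.left, ⊤) := φ.hom.toAlgebra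
  refine ⟨Γ(R.left, ⊤), inferInstance, inferInstance, ⟨Over.isoMk R.left.isoSpec ?_⟩⟩
  change R.left.isoSpec.hom ≫ Spec.map φ = R.hom
  rw [hφ, Iso.hom_inv_id_assoc]

theorem exists_finite (R : Sch k) (hR : IsFinite R.hom) :
    ∃ (A : Type) (_ : CommRing A) (_ : Algebra k A),
      Module.Finite k A ∧ Nonempty (R ≅ SpO k A) := by
  have : IsAffine R.left := isAffine_of_isAffineHom R.hom
  obtain ⟨A, _, _, ⟨e⟩⟩ := exists_affine R
  refine ⟨A, inferInstance, inferInstance, ?_, ⟨e⟩⟩
  have h1 : IsFinite (SpO k A).hom := by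
    rw [← Over.w e.inv]
    infer_instance
  rw [SpO_hom, IsFinite.SpecMap_iff] at h1
  exact RingHom.finite_algebraMap.1 h1

theorem pt_term {S : Sch k} (f g : S ⟶ pt k) : f = g := by
  ext1
  have h1 := Over.w f
  have h2 := Over.w g
  change f.left ≫ 𝟙 _ = _ at h1
  change g.left ≫ 𝟙 _ = _ at h2
  rw [Category.comp_id] at h1 h2
  rw [h1, h2]

/-- the map to the point -/
noncomputable def toPt (S : Sch k) : S ⟶ pt k := Over.homMk S.hom (Category.comp_id _)

theorem generate_mem_fpqc {S T : Sch k} (f : S ⟶ T) [Flat f.left] [Surjective f.left]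
    [QuasiCompact f.left] : Sieve.generate (Presieve.singleton f) ∈ fpqc k T := by
  rw [fpqc, GrothendieckTopology.mem_over_iff]
  refine GrothendieckTopology.superset_covering _ ?_
    (Precoverage.generate_mem_toGrothendieck f.left.singleton_mem_fpqcPrecoverage)
  rw [Sieve.generate_le_iff]
  rintro _ _ ⟨⟩
  rw [Sieve.overEquiv_iff]
  exact ⟨S, Over.homMk (𝟙 _) (by simp), f, Presieve.singleton.mk, by ext1; simp⟩

theorem fppf_le_fpqc : fppf k ≤ fpqc k := fun _ _ h => Scheme.fppfTopology_le_fpqcTopology _ h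

/-- a covering sieve contains a jointly surjective family -/
theorem exists_of_mem_fpqc {S : Sch k} {V : Sieve S} (hV : V ∈ fpqc k S) (x : S.left) :
    ∃ (T : Sch k) (f : T ⟶ S), V f ∧ Flat f.left ∧ ∃ y, f.left y = x := by
  rw [fpqc, GrothendieckTopology.mem_over_iff,
    Precoverage.mem_toGrothendieck_iff_of_isStableUnderComposition] at hV
  obtain ⟨R, hR, hle⟩ := hV
  obtain ⟨ι, Y, g, rfl⟩ := R.exists_eq_ofArrows
  have h2 := Scheme.propQCPrecoverage_le_precoverage _ hR
  rw [Scheme.ofArrows_mem_precoverage_iff] at h2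
  obtain ⟨i, y, hy⟩ := h2.1 x
  refine ⟨Over.mk (g i ≫ S.hom), Over.homMk (g i), ?_, h2.2 i, y, hy⟩
  exact (Sieve.overEquiv_iff _ _).1 (hle _ _ (Presieve.ofArrows.mk i))

theorem exists_of_mem_fppf {S : Sch k} {V : Sieve S} (hV : V ∈ fppf k S) (x : S.left) :
    ∃ (T : Sch k) (f : T ⟶ S), V f ∧ Flat f.left ∧ LocallyOfFinitePresentation f.left ∧
      ∃ y, f.left y = x := by
  haveI : Scheme.fppfPrecoverage.{0}.HasIsos := by
    exact ⟨fun {S T} f _ => f.singleton_mem_fppfPrecoverage⟩
  rw [fppf, GrothendieckTopology.mem_over_iff,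
    Precoverage.mem_toGrothendieck_iff_of_isStableUnderComposition] at hV
  obtain ⟨R, hR, hle⟩ := hV
  obtain ⟨ι, Y, g, rfl⟩ := R.exists_eq_ofArrows
  have h2 := hR
  rw [Scheme.fppfPrecoverage, Scheme.ofArrows_mem_precoverage_iff] at h2
  obtain ⟨i, y, hy⟩ := h2.1 x
  refine ⟨Over.mk (g i ≫ S.hom), Over.homMk (g i), ?_, (h2.2 i).1, (h2.2 i).2, y, hy⟩
  exact (Sieve.overEquiv_iff _ _).1 (hle _ _ (Presieve.ofArrows.mk i))

/-- a nonempty scheme locally of finite type over an algebraically closed field has a point -/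
theorem exists_section {K : Type} [Field K] [IsAlgClosed K] {X : Scheme.{0}}
    (f : X ⟶ Spec (.of K)) [LocallyOfFiniteType f] [Nonempty X] :
    ∃ s : Spec (.of K) ⟶ X, s ≫ f = 𝟙 _ := by
  have : JacobsonSpace X := LocallyOfFiniteType.jacobsonSpace f
  obtain ⟨x, -, hx⟩ := nonempty_inter_closedPoints (X := X) Set.univ_nonempty
    isOpen_univ.isLocallyClosed
  exact ⟨pointOfClosedPoint f x hx, pointOfClosedPoint_comp f x hx⟩

theorem id_mem_of_mem_fppf {K : Type} [Field K] [IsAlgClosed K] [Algebra k K]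
    {V : Sieve (SpO k K)} (hV : V ∈ fppf k (SpO k K)) : V (𝟙 _) := by
  obtain ⟨T, f, hf, -, hl, y, -⟩ := exists_of_mem_fppf hV (IsLocalRing.closedPoint K)
  have : Nonempty T.left := ⟨y⟩
  have : LocallyOfFiniteType f.left := inferInstance
  obtain ⟨s, hs⟩ := @exists_section K _ _ _ f.left this _
  let s' : SpO k K ⟶ T := Over.homMk s (by rw [← Over.w f, reassoc_of% hs])
  have : s' ≫ f = 𝟙 _ := by
    ext1
    exact hs
  rw [← this]
  exact V.downward_closed hf _

/-- a point of a finite scheme with prescribed images exists over the algebraic closure as soon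
as it exists over a nonempty scheme -/
theorem exists_point_of_nonempty {K : Type} [Field K] [IsAlgClosed K] [Algebra k K]
    {U R T : Sch k} (hU : IsFinite U.hom) (hR : IsFinite R.hom) (s t : R ⟶ U)
    (a b : SpO k K ⟶ U) [Nonempty T.left] (h : T ⟶ R) (g : T ⟶ SpO k K)
    (h1 : h ≫ s = g ≫ a) (h2 : h ≫ t = g ≫ b) :
    ∃ h₀ : SpO k K ⟶ R, h₀ ≫ s = a ∧ h₀ ≫ t = b := by
  let st : R.left ⟶ pullback U.hom U.hom := pullback.lift s.left t.left (by rw [Over.w, Over.w])
  let ab : (SpO k K).left ⟶ pullback U.hom U.hom :=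
    pullback.lift a.left b.left (by rw [Over.w, Over.w])
  have hst : LocallyOfFiniteType st := by
    have : LocallyOfFiniteType (st ≫ pullback.fst U.hom U.hom ≫ U.hom) := by
      rw [pullback.lift_fst_assoc, Over.w]
      infer_instance
    exact locallyOfFiniteType_of_comp st (pullback.fst U.hom U.hom ≫ U.hom)
  have e1 : h.left ≫ s.left = g.left ≫ a.left := congrArg (fun m => m.left) h1
  have e2 : h.left ≫ t.left = g.left ≫ b.left := congrArg (fun m => m.left) h2
  let l : T.left ⟶ pullback st ab := pullback.lift h.left g.left (by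
    apply pullback.hom_ext <;> simp [st, ab, e1, e2, pullback.lift_fst, pullback.lift_snd])
  have : Nonempty (pullback st ab : Scheme) := ⟨l (Classical.arbitrary _)⟩
  obtain ⟨σ, hσ⟩ := exists_section (K := K) (pullback.snd st ab)
  have e3 : σ ≫ pullback.fst st ab ≫ st = ab := by
    rw [pullback.condition, reassoc_of% hσ]
  have e4 : σ ≫ pullback.fst st ab ≫ s.left = a.left := by
    have := e3 =≫ pullback.fst U.hom U.hom
    simpa [st, ab, pullback.lift_fst] using this
  have e5 : σ ≫ pullback.fst st ab ≫ t.left = b.left := by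
    have := e3 =≫ pullback.snd U.hom U.hom
    simpa [st, ab, pullback.lift_snd] using this
  refine ⟨Over.homMk (σ ≫ pullback.fst st ab) ?_, ?_, ?_⟩
  · rw [← Over.w s, ← Over.w a, ← e4]
    simp
  · ext1
    simpa using e4
  · ext1
    simpa using e5

end Pool.Agent.H191Z.Gerbe
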