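import Pool.Agent.H191Z.GerbeDefs

set_option autoImplicit false

universe t w w' u v u₀ v₀

open CategoryTheory

namespace Pool.Agent.H191Z.Gerbe

variable {C : Type u₀} [Category.{v₀} C]

attribute [simp] CatOver.base_id CatOver.base_comp CatOver.id_comp CatOver.comp_id CatOver.assoc
  Mor.base_map Mor.map_id Mor.map_comp Mor2.base_app

@[simp] theorem Mor.id_obj (X : CatOver.{u} C) {S : C} (x : X.Obj S) : (Mor.id X).obj x = x := rfl

@[simp] theorem Mor.id_map (X : CatOver.{u} C) {S T : C} {x : X.Obj S} {y : X.Obj T}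
    (φ : X.Hom x y) : (Mor.id X).map φ = φ := rfl

@[simp] theorem Mor.comp_obj {X : CatOver.{u} C} {Y : CatOver.{v} C} {Z : CatOver.{t} C}
    (F : Mor X Y) (G : Mor Y Z) {S : C} (x : X.Obj S) : (F.comp G).obj x = G.obj (F.obj x) := rfl

@[simp] theorem Mor.comp_map {X : CatOver.{u} C} {Y : CatOver.{v} C} {Z : CatOver.{t} C}
    (F : Mor X Y) (G : Mor Y Z) {S T : C} {x : X.Obj S} {y : X.Obj T} (φ : X.Hom x y) :
    (F.comp G).map φ = G.map (F.map φ) := rfl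

theorem Mor2.ext' {X : CatOver.{u} C} {Y : CatOver.{v} C} {F G : Mor X Y} {α β : Mor2 F G}
    (h : ∀ {S : C} (x : X.Obj S), α.app x = β.app x) : α = β := by
  cases α
  cases β
  congr
  funext S x
  exact h x

theorem inSieve_iff {S T : C} {R : Sieve S} {f : T ⟶ S} : InSieve R f ↔ R f := by
  rw [InSieve, Sieve.generate_le_iff]
  constructor
  · intro h
    exact h _ _ Presieve.singleton.mk
  · rintro h _ _ ⟨⟩
    exact h

namespace CatOver.IsFiberedInGroupoids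

variable {X : CatOver.{u} C} (hX : X.IsFiberedInGroupoids)
include hX

theorem ext {S T U : C} {x : X.Obj S} {y : X.Obj T} {z : X.Obj U} (ψ : X.Hom y z)
    {χ χ' : X.Hom x y} (hb : X.base χ = X.base χ') (hc : X.comp χ ψ = X.comp χ' ψ) : χ = χ' := by
  obtain ⟨ξ, -, hu⟩ := hX.existsUnique_fill (X.comp χ ψ) ψ (X.base χ) (by simp)
  rw [hu χ ⟨rfl, rfl⟩, hu χ' ⟨hb.symm, hc.symm⟩]

theorem exists_fill {S T U : C} {x : X.Obj S} {y : X.Obj T} {z : X.Obj U}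
    (φ : X.Hom x z) (ψ : X.Hom y z) (g : S ⟶ T) (h : g ≫ X.base ψ = X.base φ) :
    ∃ χ : X.Hom x y, X.base χ = g ∧ X.comp χ ψ = φ :=
  (hX.existsUnique_fill φ ψ g h).exists

theorem exists_inv {S T : C} {x : X.Obj S} {y : X.Obj T} (φ : X.Hom x y) (g : T ⟶ S)
    (h1 : g ≫ X.base φ = 𝟙 T) (h2 : X.base φ ≫ g = 𝟙 S) :
    ∃ ψ : X.Hom y x, X.base ψ = g ∧ X.comp ψ φ = X.id y ∧ X.comp φ ψ = X.id x := by
  obtain ⟨ψ, hb, hc⟩ := hX.exists_fill (X.id y) φ g (by simpa using h1)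
  refine ⟨ψ, hb, hc, hX.ext φ (by simp [hb, h2]) (by simp [hc])⟩

theorem exists_vinv {S : C} {x y : X.Obj S} (φ : X.Hom x y) (h : X.base φ = 𝟙 S) :
    ∃ ψ : X.Hom y x, X.base ψ = 𝟙 S ∧ X.comp ψ φ = X.id y ∧ X.comp φ ψ = X.id x :=
  hX.exists_inv φ (𝟙 S) (by simp [h]) (by simp [h])

/-- vertical arrows are epimorphisms -/
theorem cancel_vert {S T : C} {x y : X.Obj S} {z : X.Obj T} (φ : X.Hom x y)
    (h : X.base φ = 𝟙 S) {a b : X.Hom y z} (e : X.comp φ a = X.comp φ b) : a = b := by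
  obtain ⟨ψ, -, h1, -⟩ := hX.exists_vinv φ h
  rw [← X.id_comp a, ← X.id_comp b, ← h1, X.assoc, X.assoc, e]

theorem isomorphic_of_vert {S : C} {x y : X.Obj S} (φ : X.Hom x y) (h : X.base φ = 𝟙 S) :
    X.Isomorphic x y := by
  obtain ⟨ψ, h0, h1, h2⟩ := hX.exists_vinv φ h
  exact ⟨φ, ψ, h, h0, h2, h1⟩

end CatOver.IsFiberedInGroupoids

namespace CatOver.IsStack

variable {X : CatOver.{u} C} {J : GrothendieckTopology C} (hX : X.IsStack J)
include hX

/-- two arrows over the same base which agree locally are equal -/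
theorem ext_of_cover {S T : C} (R : Sieve S) (hR : R ∈ J S) {x : X.Obj S} {y : X.Obj T}
    {ψ ψ' : X.Hom x y} (hb : X.base ψ = X.base ψ')
    (h : ∀ {V : C} {z : X.Obj V} (a : X.Hom z x), R (X.base a) → X.comp a ψ = X.comp a ψ') :
    ψ = ψ' := by
  obtain ⟨χ, hχ, hc⟩ := hX.fibered.exists_fill ψ ψ' (𝟙 S) (by simp [hb])
  obtain ⟨θ, -, hu⟩ := hX.glue_hom R hR x x (fun a _ => a) (fun _ _ => rfl)
    (fun _ _ _ _ => rfl)
  have h1 : χ = θ := hu χ ⟨hχ, fun a ha => hX.fibered.ext ψ' (by simp [hχ])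
    (by rw [X.assoc, hc, h a (inSieve_iff.1 ha)])⟩
  have h2 : X.id x = θ := hu _ ⟨by simp, fun a _ => by simp⟩
  rw [← hc, h1, ← h2, X.id_comp]

/-- an arrow over a covering arrow is an epimorphism for arrows over the same base -/
theorem cancel_cover {S S' T : C} {π : S' ⟶ S}
    (hπ : Sieve.generate (Presieve.singleton π) ∈ J S) {x' : X.Obj S'} {x : X.Obj S}
    (c : X.Hom x' x) (hc : X.base c = π) {y : X.Obj T} {ψ ψ' : X.Hom x y}
    (hb : X.base ψ = X.base ψ') (h : X.comp c ψ = X.comp c ψ') : ψ = ψ' := by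
  refine hX.ext_of_cover _ hπ hb ?_
  intro V z a ha
  obtain ⟨Y, g, f, hf, e⟩ := ha
  cases hf
  obtain ⟨b, -, hb2⟩ := hX.fibered.exists_fill a c g (by rw [hc, e])
  rw [← hb2, X.assoc, X.assoc, h]

/-- descent of a vertical arrow along a single covering arrow -/
theorem descend_hom {S S' : C} {π : S' ⟶ S}
    (hπ : Sieve.generate (Presieve.singleton π) ∈ J S) {x' : X.Obj S'} {x y : X.Obj S}
    (c : X.Hom x' x) (hc : X.base c = π) (c' : X.Hom x' y) (hc' : X.base c' = π)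
    (h : ∀ {V : C} {z : X.Obj V} (b₁ b₂ : X.Hom z x'), X.comp b₁ c = X.comp b₂ c →
      X.comp b₁ c' = X.comp b₂ c') :
    ∃ ψ : X.Hom x y, X.base ψ = 𝟙 S ∧ X.comp c ψ = c' := by
  have key : ∀ {V : C} {z : X.Obj V} (a : X.Hom z x),
      InSieve (Sieve.generate (Presieve.singleton π)) (X.base a) →
      ∃ b : X.Hom z x', X.comp b c = a := by
    intro V z a ha
    obtain ⟨Y, g, f, hf, e⟩ := inSieve_iff.1 ha
    cases hf
    obtain ⟨b, -, hb2⟩ := hX.fibered.exists_fill a c g (by rw [hc, e])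
    exact ⟨b, hb2⟩
  choose b hb using @key
  obtain ⟨ψ, ⟨h1, h2⟩, -⟩ := hX.glue_hom _ hπ x y (fun a ha => X.comp (b a ha) c')
    (fun a ha => by
      conv_rhs => rw [← hb a ha]
      simp [hc, hc'])
    (fun b' a ha hba => by
      rw [← X.assoc]
      apply h
      rw [hb, X.assoc, hb])
  refine ⟨ψ, h1, ?_⟩
  have hcc : InSieve (Sieve.generate (Presieve.singleton π)) (X.base c) :=
    inSieve_iff.2 ⟨_, 𝟙 _, π, Presieve.singleton.mk, by simp [hc]⟩
  rw [h2 c hcc]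
  have := h (b c hcc) (X.id x') (by rw [hb, X.id_comp])
  rw [this, X.id_comp]

/-- descent of an object along a single covering arrow, from a groupoid-like relation -/
theorem descend_obj {S S' : C} {π : S' ⟶ S}
    (hπ : Sieve.generate (Presieve.singleton π) ∈ J S) (x' : X.Obj S')
    (Rel : ∀ {V : C} {z : X.Obj V}, X.Hom z x' → X.Hom z x' → Prop)
    (h_ex : ∀ {V : C} {z : X.Obj V} (b₁ : X.Hom z x') (g : V ⟶ S'),
      g ≫ π = X.base b₁ ≫ π → ∃ b₂ : X.Hom z x', X.base b₂ = g ∧ Rel b₁ b₂)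
    (h_un : ∀ {V : C} {z : X.Obj V} (b₁ b₂ b₂' : X.Hom z x'), Rel b₁ b₂ → Rel b₁ b₂' →
      X.base b₂ = X.base b₂' → b₂ = b₂')
    (h_refl : ∀ {V : C} {z : X.Obj V} (b : X.Hom z x'), Rel b b)
    (h_pre : ∀ {V' V : C} {z' : X.Obj V'} {z : X.Obj V} (e : X.Hom z' z) (b₁ b₂ : X.Hom z x'),
      Rel b₁ b₂ → Rel (X.comp e b₁) (X.comp e b₂))
    (h_tr : ∀ {V : C} {z : X.Obj V} (b₁ b₂ b₃ : X.Hom z x'), Rel b₁ b₂ → Rel b₂ b₃ → Rel b₁ b₃) :
    ∃ (x : X.Obj S) (c : X.Hom x' x), X.base c = π ∧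
      ∀ {V : C} {z : X.Obj V} (b₁ b₂ : X.Hom z x'), Rel b₁ b₂ →
        X.base b₁ ≫ π = X.base b₂ ≫ π → X.comp b₁ c = X.comp b₂ c := by
  have key : ∀ {V : C} (f : V ⟶ S), InSieve (Sieve.generate (Presieve.singleton π)) f →
      ∃ (z : X.Obj V) (b : X.Hom z x'), X.base b ≫ π = f := by
    intro V f hf
    obtain ⟨Y, g, f', hf', e⟩ := inSieve_iff.1 hf
    cases hf'
    obtain ⟨z, b, hb⟩ := hX.fibered.exists_lift g x'
    exact ⟨z, b, by rw [hb, e]⟩
  choose z b hb using @key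
  have key2 : ∀ {V V' : C} {y : X.Obj V'} (b' : X.Hom y x') {f : V ⟶ S}
      (hf : InSieve (Sieve.generate (Presieve.singleton π)) f) (h : V' ⟶ V),
      h ≫ f = X.base b' ≫ π →
      ∃ t : X.Hom y (z f hf), X.base t = h ∧ Rel b' (X.comp t (b f hf)) := by
    intro V V' y b' f hf h e
    obtain ⟨b₂, h1, h2⟩ := h_ex b' (h ≫ X.base (b f hf)) (by rw [Category.assoc, hb, e])
    obtain ⟨t, h3, h4⟩ := hX.fibered.exists_fill b₂ (b f hf) h h1.symm
    exact ⟨t, h3, by rwa [h4]⟩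
  have un2 : ∀ {V V' : C} {y : X.Obj V'} (b' : X.Hom y x') {f : V ⟶ S}
      (hf : InSieve (Sieve.generate (Presieve.singleton π)) f) (t t' : X.Hom y (z f hf)),
      X.base t = X.base t' → Rel b' (X.comp t (b f hf)) → Rel b' (X.comp t' (b f hf)) →
      t = t' := by
    intro V V' y b' f hf t t' e h1 h2
    exact hX.fibered.ext (b f hf) e (h_un b' _ _ h1 h2 (by simp [e]))
  choose t ht1 ht2 using @key2
  let D : X.DescentDatum (Sieve.generate (Presieve.singleton π)) :=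
    { obj := fun f hf => z f hf
      map := fun {T' T f'} hf' {f} hf h e => t (b f' hf') hf h (by rw [e, hb])
      base_map := fun hf' _ hf h e => ht1 _ _ _ _
      map_id := fun {T f} hf e => un2 (b f hf) hf _ _ (by simp [ht1]) (ht2 _ _ _ _)
        (by rw [X.id_comp]; exact h_refl _)
      map_comp := fun {T'' T' T f''} hf'' {f'} hf' {f} hf h' h e' e e'' =>
        un2 (b f'' hf'') hf _ _ (by simp [ht1]) (by
          refine h_tr _ _ _ (ht2 (b f'' hf'') hf' h' (by rw [e', hb])) ?_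
          rw [X.assoc]
          exact h_pre _ _ _ (ht2 _ _ _ _)) (ht2 _ _ _ _) }
  obtain ⟨y, c, hc1, hc2⟩ := hX.glue_obj _ hπ D
  have hππ : InSieve (Sieve.generate (Presieve.singleton π)) π :=
    inSieve_iff.2 ⟨_, 𝟙 _, π, Presieve.singleton.mk, by simp⟩
  let e : X.Hom x' (z π hππ) := t (X.id x') hππ (𝟙 _) (by simp)
  have he1 : X.base e = 𝟙 _ := ht1 _ _ _ _
  have he2 : Rel (X.id x') (X.comp e (b π hππ)) := ht2 _ _ _ _
  refine ⟨y, X.comp e (c π hππ), by simp [he1, hc1], ?_⟩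
  -- every arrow `b₁` composed with `c` is computed through the chosen object over its base
  have aux : ∀ {V : C} {q : X.Obj V} (b₀ b₁ : X.Hom q x') (f : V ⟶ S)
      (hf : InSieve (Sieve.generate (Presieve.singleton π)) f) (hf0 : 𝟙 V ≫ f = X.base b₀ ≫ π),
      X.base b₁ ≫ π = f → Rel b₀ b₁ →
      X.comp b₁ (X.comp e (c π hππ)) = X.comp (t b₀ hf (𝟙 V) hf0) (c f hf) := by
    intro V q b₀ b₁ f hf hf0 h1 hr
    have h2 := hc2 hf hππ (X.base b₁) h1
    rw [← h2, ← X.assoc, ← X.assoc]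
    congr 1
    refine un2 b₀ hππ _ _ (by simp [he1, ht1, D]) ?_ ?_
    · refine h_tr _ _ _ hr ?_
      have := h_pre b₁ _ _ he2
      rwa [X.comp_id, ← X.assoc] at this
    · refine h_tr _ _ _ (ht2 b₀ hf (𝟙 V) hf0) ?_
      rw [X.assoc]
      exact h_pre _ _ _ (ht2 _ _ _ _)
  intro V q b₁ b₂ hr hbase
  have hf : InSieve (Sieve.generate (Presieve.singleton π)) (X.base b₁ ≫ π) :=
    inSieve_iff.2 ⟨_, X.base b₁, π, Presieve.singleton.mk, rfl⟩
  rw [aux b₁ b₁ _ hf (by simp) rfl (h_refl _), aux b₁ b₂ _ hf (by simp) hbase.symm hr]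

end CatOver.IsStack

namespace ProjSystem

variable {I : Type w} [Category.{w'} I] (Γ : ProjSystem.{w, w', v} I C)

/-- the unit with a clean type -/
def un (i : I) {S : C} (x : (Γ.obj i).Obj S) : (Γ.obj i).Hom ((Γ.map (𝟙 i)).obj x) x :=
  (Γ.unit i).app x

/-- the composition isomorphism with a clean type -/
def cp {k j i : I} (a : k ⟶ j) (b : j ⟶ i) (c : k ⟶ i) (e : a ≫ b = c) {S : C}
    (x : (Γ.obj k).Obj S) :
    (Γ.obj i).Hom ((Γ.map c).obj x) ((Γ.map b).obj ((Γ.map a).obj x)) :=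
  (Γ.comp a b c e).app x

@[simp] theorem base_un (i : I) {S : C} (x : (Γ.obj i).Obj S) :
    (Γ.obj i).base (Γ.un i x) = 𝟙 S := (Γ.unit i).base_app x

@[simp] theorem base_cp {k j i : I} (a : k ⟶ j) (b : j ⟶ i) (c : k ⟶ i) (e : a ≫ b = c) {S : C}
    (x : (Γ.obj k).Obj S) : (Γ.obj i).base (Γ.cp a b c e x) = 𝟙 S := (Γ.comp a b c e).base_app x

theorem un_nat (i : I) {S T : C} {x : (Γ.obj i).Obj S} {y : (Γ.obj i).Obj T}
    (φ : (Γ.obj i).Hom x y) :
    (Γ.obj i).comp ((Γ.map (𝟙 i)).map φ) (Γ.un i y) = (Γ.obj i).comp (Γ.un i x) φ :=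
  (Γ.unit i).naturality φ

theorem cp_nat {k j i : I} (a : k ⟶ j) (b : j ⟶ i) (c : k ⟶ i) (e : a ≫ b = c) {S T : C}
    {x : (Γ.obj k).Obj S} {y : (Γ.obj k).Obj T} (φ : (Γ.obj k).Hom x y) :
    (Γ.obj i).comp ((Γ.map c).map φ) (Γ.cp a b c e y) =
      (Γ.obj i).comp (Γ.cp a b c e x) ((Γ.map b).map ((Γ.map a).map φ)) :=
  (Γ.comp a b c e).naturality φ

variable {Γ}

theorem LimObj.τ_id' {S : C} (ξ : Γ.LimObj S) (i : I) : ξ.τ (𝟙 i) = Γ.un i (ξ.ξ i) := ξ.τ_id i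

theorem LimObj.τ_comp' {S : C} (ξ : Γ.LimObj S) {k j i : I} (a : k ⟶ j) (b : j ⟶ i) (c : k ⟶ i)
    (e : a ≫ b = c) : ξ.τ c = (Γ.obj i).comp (Γ.cp a b c e (ξ.ξ k))
      ((Γ.obj i).comp ((Γ.map b).map (ξ.τ a)) (ξ.τ b)) := ξ.τ_comp a b c e

end ProjSystem

end Pool.Agent.H191Z.Gerbe
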