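import Pool.Agent.H191Z.GBasic

set_option autoImplicit false

universe t w w' u v u₀ v₀

open CategoryTheory

namespace Pool.Agent.H191Z.Gerbe

variable {C : Type u₀} [Category.{v₀} C]

/-- the geometric input: the algebraic closure of a finite field and its Frobenius -/
structure FrobData (J : GrothendieckTopology C) (Fn : C → Prop) where
  pt : C
  K : C
  W : C
  W3 : C
  π : K ⟶ pt
  term : ∀ {S : C} (f g : S ⟶ pt), f = g
  cover : Sieve.generate (Presieve.singleton π) ∈ J pt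
  Fr : ℤ → (K ⟶ K)
  Fr_zero : Fr 0 = 𝟙 K
  Fr_add : ∀ m n, Fr (m + n) = Fr m ≫ Fr n
  p1 : W ⟶ K
  p2 : W ⟶ K
  lift : ∀ {S : C}, (S ⟶ K) → (S ⟶ K) → (S ⟶ W)
  lift_p1 : ∀ {S : C} (f g : S ⟶ K), lift f g ≫ p1 = f
  lift_p2 : ∀ {S : C} (f g : S ⟶ K), lift f g ≫ p2 = g
  W_ext : ∀ {S : C} (f g : S ⟶ W), f ≫ p1 = g ≫ p1 → f ≫ p2 = g ≫ p2 → f = g
  q1 : W3 ⟶ K
  q2 : W3 ⟶ K
  q3 : W3 ⟶ K
  lift3 : ∀ {S : C}, (S ⟶ K) → (S ⟶ K) → (S ⟶ K) → (S ⟶ W3)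
  lift3_q1 : ∀ {S : C} (f g h : S ⟶ K), lift3 f g h ≫ q1 = f
  lift3_q2 : ∀ {S : C} (f g h : S ⟶ K), lift3 f g h ≫ q2 = g
  lift3_q3 : ∀ {S : C} (f g h : S ⟶ K), lift3 f g h ≫ q3 = h
  dens : ∀ {R : C}, Fn R → ∀ m m' : W ⟶ R,
    (∀ n, lift (𝟙 K) (Fr n) ≫ m = lift (𝟙 K) (Fr n) ≫ m') → m = m'
  dens3 : ∀ {R : C}, Fn R → ∀ m m' : W3 ⟶ R,
    (∀ n n', lift3 (𝟙 K) (Fr n) (Fr n') ≫ m = lift3 (𝟙 K) (Fr n) (Fr n') ≫ m') → m = m'
  interp : ∀ {R : C}, Fn R → ∀ (r : ℤ → (K ⟶ R)) (N : ℕ), 0 < N → (∀ n, r (n + N) = r n) →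
    ∃ ρ : W ⟶ R, ∀ n, lift (𝟙 K) (Fr n) ≫ ρ = r n
  finite : ∀ {R : C}, Fn R → Finite (K ⟶ R)

/-- a presentation of a category fibered in groupoids -/
structure Chart (Fn : C → Prop) (Y : CatOver.{v} C) where
  U : C
  R : C
  u : Y.Obj U
  r : Y.Obj R
  s : Y.Hom r u
  t : Y.Hom r u
  fnU : Fn U
  fnR : Fn R
  prod : ∀ {T : C} {z : Y.Obj T} (a b : Y.Hom z u),
    ∃! h : Y.Hom z r, Y.comp h s = a ∧ Y.comp h t = b

variable {J : GrothendieckTopology C} {Fn : C → Prop} (D : FrobData J Fn)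

theorem FrobData.comp_lift {S S' : C} (e : S' ⟶ S) (f g : S ⟶ D.K) :
    e ≫ D.lift f g = D.lift (e ≫ f) (e ≫ g) :=
  D.W_ext _ _ (by simp [D.lift_p1]) (by simp [D.lift_p2])

theorem FrobData.lift_p1_p2 : D.lift D.p1 D.p2 = 𝟙 D.W :=
  D.W_ext _ _ (by simp [D.lift_p1]) (by simp [D.lift_p2])

variable {Y : CatOver.{v} C}

theorem Chart.finite_hom (hY : Y.IsFiberedInGroupoids) (ch : Chart Fn Y) (x : Y.Obj D.K) :
    Finite (Y.Hom x ch.u) := by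
  cases isEmpty_or_nonempty (Y.Hom x ch.u) with
  | inl h => infer_instance
  | inr h =>
    obtain ⟨a⟩ := h
    have := D.finite ch.fnR
    choose h hh using fun b : Y.Hom x ch.u => (ch.prod a b).exists
    refine Finite.of_injective (fun b => Y.base (h b)) ?_
    intro b b' e
    have : h b = h b' := hY.ext ch.s e (by rw [(hh b).1, (hh b').1])
    rw [← (hh b).2, this, (hh b').2]

theorem Chart.finite_over (hY : Y.IsFiberedInGroupoids) (ch : Chart Fn Y) (x y : Y.Obj D.K)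
    (b : Y.Hom y ch.u) (g : D.K ⟶ D.K) : Finite {φ : Y.Hom x y // Y.base φ = g} := by
  have := ch.finite_hom D hY x
  refine Finite.of_injective (fun φ => Y.comp φ.1 b) ?_
  intro φ φ' e
  exact Subtype.ext (hY.ext b (by rw [φ.2, φ'.2]) e)

/-- the powers of a lift of Frobenius -/
theorem exists_powers (hY : Y.IsFiberedInGroupoids) (x : Y.Obj D.K) (φ : Y.Hom x x)
    (hφ : Y.base φ = D.Fr 1) :
    ∃ Φ : ℤ → Y.Hom x x, Φ 0 = Y.id x ∧ Φ 1 = φ ∧ (∀ m n, Φ (m + n) = Y.comp (Φ m) (Φ n)) ∧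
      (∀ n, Y.base (Φ n) = D.Fr n) ∧
      ∀ {T : C} {y : Y.Obj T} (c : Y.Hom x y), Y.comp φ c = c → ∀ n, Y.comp (Φ n) c = c := by
  letI : Monoid (Y.Hom x x) :=
    { mul := fun a b => Y.comp a b
      one := Y.id x
      mul_assoc := fun a b c => Y.assoc a b c
      one_mul := fun a => Y.id_comp a
      mul_one := fun a => Y.comp_id a }
  obtain ⟨ψ, hψ, h1, h2⟩ := hY.exists_inv φ (D.Fr (-1))
    (by rw [hφ, ← D.Fr_add]; simp [D.Fr_zero]) (by rw [hφ, ← D.Fr_add]; simp [D.Fr_zero])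
  let uφ : (Y.Hom x x)ˣ := ⟨φ, ψ, h2, h1⟩
  have hadd : ∀ m n : ℤ, ((uφ ^ (m + n) : (Y.Hom x x)ˣ) : Y.Hom x x) =
      Y.comp ((uφ ^ m : (Y.Hom x x)ˣ) : Y.Hom x x) ((uφ ^ n : (Y.Hom x x)ˣ) : Y.Hom x x) := by
    intro m n
    rw [zpow_add, Units.val_mul]
    rfl
  have h0 : ((uφ ^ (0 : ℤ) : (Y.Hom x x)ˣ) : Y.Hom x x) = Y.id x := by
    rw [zpow_zero]; rfl
  have hp1 : ((uφ ^ (1 : ℤ) : (Y.Hom x x)ˣ) : Y.Hom x x) = φ := by
    rw [zpow_one]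
  have hm1 : ((uφ ^ (-1 : ℤ) : (Y.Hom x x)ˣ) : Y.Hom x x) = ψ := by
    rw [zpow_neg_one]; rfl
  refine ⟨fun n => ((uφ ^ n : (Y.Hom x x)ˣ) : Y.Hom x x), h0, hp1, hadd, ?_, ?_⟩
  · intro n
    beta_reduce
    induction n using Int.induction_on with
    | zero => rw [h0, Y.base_id, D.Fr_zero]
    | succ n ih => rw [hadd, Y.base_comp, ih, hp1, hφ, D.Fr_add]
    | pred n ih => rw [sub_eq_add_neg, hadd, Y.base_comp, ih, hm1, hψ, D.Fr_add]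
  · intro T y c hc n
    have hc' : Y.comp ψ c = c := by
      conv_lhs => rw [← hc]
      rw [← Y.assoc, h1, Y.id_comp]
    beta_reduce
    induction n using Int.induction_on with
    | zero => rw [h0, Y.id_comp]
    | succ n ih => rw [hadd, Y.assoc, hp1, hc, ih]
    | pred n ih => rw [sub_eq_add_neg, hadd, Y.assoc, hm1, hc', ih]

/-- two Frobenius invariant arrows to objects over the point define the same descent datum -/
theorem same_datum (hY : Y.IsFiberedInGroupoids) (ch : Chart Fn Y) (x : Y.Obj D.K)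
    (a : Y.Hom x ch.u) (φ : Y.Hom x x) (hφ : Y.base φ = D.Fr 1) {η η' : Y.Obj D.pt}
    (c : Y.Hom x η) (c' : Y.Hom x η') (hc : Y.comp φ c = c) (hc' : Y.comp φ c' = c')
    {V : C} {z : Y.Obj V} (b₁ b₂ : Y.Hom z x) (e : Y.comp b₁ c = Y.comp b₂ c) :
    Y.comp b₁ c' = Y.comp b₂ c' := by
  obtain ⟨Φ, -, -, -, hΦb, hΦc⟩ := exists_powers D hY x φ hφ
  -- the universal case
  obtain ⟨zW, β₁, hβ₁⟩ := hY.exists_lift D.p1 x
  obtain ⟨β₂, hβ₂, hβ₂c⟩ := hY.exists_fill (Y.comp β₁ c) c D.p2 (D.term _ _)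
  obtain ⟨β₂', hβ₂', hβ₂c'⟩ := hY.exists_fill (Y.comp β₁ c') c' D.p2 (D.term _ _)
  have huniv : β₂ = β₂' := by
    obtain ⟨h, h1, h2⟩ := (ch.prod (Y.comp β₁ a) (Y.comp β₂ a)).exists
    obtain ⟨h', h1', h2'⟩ := (ch.prod (Y.comp β₁ a) (Y.comp β₂' a)).exists
    have hb : Y.base h = Y.base h' := by
      apply D.dens ch.fnR
      intro n
      obtain ⟨zn, l, hl⟩ := hY.exists_lift (D.lift (𝟙 D.K) (D.Fr n)) zW
      have e1 : Y.comp l β₂ = Y.comp (Y.comp l β₁) (Φ n) :=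
        hY.ext c (by simp only [Y.base_comp, hl, hβ₂, hβ₁, hΦb, D.lift_p1, D.lift_p2, Category.id_comp])
          (by simp [hβ₂c, hΦc c hc])
      have e2 : Y.comp l β₂' = Y.comp (Y.comp l β₁) (Φ n) :=
        hY.ext c' (by simp only [Y.base_comp, hl, hβ₂', hβ₁, hΦb, D.lift_p1, D.lift_p2, Category.id_comp])
          (by simp [hβ₂c', hΦc c' hc'])
      have e3 : Y.comp l h = Y.comp l h' := by
        refine (ch.prod (Y.comp l (Y.comp β₁ a)) (Y.comp l (Y.comp β₂ a))).unique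
          ⟨by rw [Y.assoc, h1], by rw [Y.assoc, h2]⟩ ⟨by rw [Y.assoc, h1'], ?_⟩
        rw [Y.assoc, h2', ← Y.assoc, ← Y.assoc, e1, e2]
      have := congrArg Y.base e3
      simpa [hl] using this
    have hh : h = h' := hY.ext ch.s hb (by rw [h1, h1'])
    exact hY.ext a (by rw [hβ₂, hβ₂']) (by rw [← h2, ← h2', hh])
  obtain ⟨χ, hχ, hχ1⟩ := hY.exists_fill b₁ β₁ (D.lift (Y.base b₁) (Y.base b₂))
    (by rw [hβ₁, D.lift_p1])
  have hχ2 : Y.comp χ β₂ = b₂ :=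
    hY.ext c (by simp [hχ, hβ₂, D.lift_p2]) (by rw [Y.assoc, hβ₂c, ← Y.assoc, hχ1, e])
  rw [← hχ2, huniv, Y.assoc, hβ₂c', ← Y.assoc, hχ1]

/-- an object over the algebraic closure with a lift of Frobenius descends -/
theorem frob_descend (hY : Y.IsStack J) (ch : Chart Fn Y) (x : Y.Obj D.K)
    (a : Y.Hom x ch.u) (φ : Y.Hom x x) (hφ : Y.base φ = D.Fr 1) :
    ∃ (η : Y.Obj D.pt) (c : Y.Hom x η), Y.comp φ c = c := by
  have hF := hY.fibered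
  obtain ⟨Φ, hΦ0, hΦ1, hΦadd, hΦb, -⟩ := exists_powers D hF x φ hφ
  -- periodicity
  have hfin := ch.finite_hom D hF x
  obtain ⟨N, hN, hper⟩ : ∃ N : ℕ, 0 < N ∧ Y.comp (Φ N) a = a := by
    obtain ⟨m, n, hmn, e⟩ := Finite.exists_ne_map_eq_of_infinite
      (fun n : ℕ => Y.comp (Φ n) a)
    have key : ∀ m n : ℕ, m < n → Y.comp (Φ m) a = Y.comp (Φ n) a →
        ∃ N : ℕ, 0 < N ∧ Y.comp (Φ N) a = a := by
      intro m n hlt e
      refine ⟨n - m, by omega, ?_⟩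
      have e2 := congrArg (Y.comp (Φ (-(m : ℤ)))) e
      rw [← Y.assoc, ← Y.assoc, ← hΦadd, ← hΦadd, neg_add_cancel, hΦ0, Y.id_comp] at e2
      have e3 : ((n - m : ℕ) : ℤ) = -(m : ℤ) + n := by omega
      rw [e3, ← e2]
    rcases lt_or_gt_of_ne hmn with h | h
    · exact key m n h e
    · exact key n m h e.symm
  choose rn hrn using fun n : ℤ => (ch.prod a (Y.comp (Φ n) a)).exists
  obtain ⟨ρ, hρ⟩ := D.interp ch.fnR (fun n => Y.base (rn n)) N hN (by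
    intro n
    congr 1
    refine (ch.prod a (Y.comp (Φ n) a)).unique ⟨(hrn _).1, ?_⟩ (hrn n)
    rw [(hrn _).2, hΦadd, Y.assoc, hper])
  have hρs : ρ ≫ Y.base ch.s = D.p1 ≫ Y.base a := by
    apply D.dens ch.fnU
    intro n
    rw [← Category.assoc, hρ, ← Category.assoc, D.lift_p1, ← Y.base_comp, (hrn n).1,
      Category.id_comp]
  have hρt : ρ ≫ Y.base ch.t = D.p2 ≫ Y.base a := by
    apply D.dens ch.fnU
    intro n
    rw [← Category.assoc, hρ, ← Category.assoc, D.lift_p2, ← Y.base_comp, (hrn n).2,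
      Y.base_comp, hΦb]
  let Rel : ∀ {V : C} {z : Y.Obj V}, Y.Hom z x → Y.Hom z x → Prop := fun {V z} b₁ b₂ =>
    ∃ h : Y.Hom z ch.r, Y.base h = D.lift (Y.base b₁) (Y.base b₂) ≫ ρ ∧
      Y.comp h ch.s = Y.comp b₁ a ∧ Y.comp h ch.t = Y.comp b₂ a
  have h_ex : ∀ {V : C} {z : Y.Obj V} (b₁ : Y.Hom z x) (g : V ⟶ D.K),
      ∃ b₂ : Y.Hom z x, Y.base b₂ = g ∧ Rel b₁ b₂ := by
    intro V z b₁ g
    obtain ⟨h, h1, h2⟩ := hF.exists_fill (Y.comp b₁ a) ch.s (D.lift (Y.base b₁) g ≫ ρ)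
      (by rw [Category.assoc, hρs, ← Category.assoc, D.lift_p1, Y.base_comp])
    obtain ⟨b₂, h3, h4⟩ := hF.exists_fill (Y.comp h ch.t) a g
      (by rw [Y.base_comp, h1, Category.assoc, hρt, ← Category.assoc, D.lift_p2])
    exact ⟨b₂, h3, h, by rw [h1, h3], h2, h4.symm⟩
  have h_un : ∀ {V : C} {z : Y.Obj V} (b₁ b₂ b₂' : Y.Hom z x), Rel b₁ b₂ → Rel b₁ b₂' →
      Y.base b₂ = Y.base b₂' → b₂ = b₂' := by
    rintro V z b₁ b₂ b₂' ⟨h, h1, h2, h3⟩ ⟨h', h1', h2', h3'⟩ e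
    have : h = h' := hF.ext ch.s (by rw [h1, h1', e]) (by rw [h2, h2'])
    exact hF.ext a e (by rw [← h3, ← h3', this])
  have h_pre : ∀ {V' V : C} {z' : Y.Obj V'} {z : Y.Obj V} (e : Y.Hom z' z)
      (b₁ b₂ : Y.Hom z x), Rel b₁ b₂ → Rel (Y.comp e b₁) (Y.comp e b₂) := by
    rintro V' V z' z e b₁ b₂ ⟨h, h1, h2, h3⟩
    refine ⟨Y.comp e h, ?_, by simp [h2], by simp [h3]⟩
    rw [Y.base_comp, h1, ← Category.assoc, D.comp_lift, Y.base_comp, Y.base_comp]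
  have h_pow0 : ∀ n, Rel (Y.id x) (Φ n) := by
    intro n
    exact ⟨rn n, by rw [Y.base_id, hΦb, hρ], by rw [(hrn n).1, Y.id_comp], (hrn n).2⟩
  have h_pow : ∀ {V : C} {z : Y.Obj V} (e : Y.Hom z x) (n : ℤ), Rel e (Y.comp e (Φ n)) := by
    intro V z e n
    have := h_pre e _ _ (h_pow0 n)
    rwa [Y.comp_id] at this
  have h_tr : ∀ {V : C} {z : Y.Obj V} (b₁ b₂ b₃ : Y.Hom z x), Rel b₁ b₂ → Rel b₂ b₃ →
      Rel b₁ b₃ := by
    obtain ⟨zW, β₁, hβ₁⟩ := hF.exists_lift D.q1 x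
    obtain ⟨β₂, hβ₂, h12⟩ := h_ex β₁ D.q2
    obtain ⟨β₃, hβ₃, h23⟩ := h_ex β₂ D.q3
    have h13 : Rel β₁ β₃ := by
      obtain ⟨h, h1, h2⟩ := (ch.prod (Y.comp β₁ a) (Y.comp β₃ a)).exists
      refine ⟨h, ?_, h1, h2⟩
      apply D.dens3 ch.fnR
      intro n n'
      obtain ⟨zn, l, hl⟩ := hF.exists_lift (D.lift3 (𝟙 D.K) (D.Fr n) (D.Fr n')) zW
      have e1 : Y.comp l β₂ = Y.comp (Y.comp l β₁) (Φ n) :=
        h_un _ _ _ (h_pre l _ _ h12) (h_pow _ n)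
          (by simp only [Y.base_comp, hl, hβ₂, hβ₁, hΦb, D.lift3_q1, D.lift3_q2,
            Category.id_comp])
      have e2 : Y.comp l β₃ = Y.comp (Y.comp l β₂) (Φ (-n + n')) :=
        h_un _ _ _ (h_pre l _ _ h23) (h_pow _ _)
          (by simp only [Y.base_comp, hl, hβ₂, hβ₃, hΦb, D.lift3_q3, D.lift3_q2, ← D.Fr_add,
            add_neg_cancel_left])
      have e3 : Y.comp l β₃ = Y.comp (Y.comp l β₁) (Φ n') := by
        rw [e2, e1, Y.assoc, ← hΦadd]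
        congr 2
        ring
      obtain ⟨h', h1', h2', h3'⟩ := h_pow (Y.comp l β₁) n'
      have e4 : Y.comp l h = h' :=
        (ch.prod (Y.comp (Y.comp l β₁) a) (Y.comp (Y.comp (Y.comp l β₁) (Φ n')) a)).unique
          ⟨by rw [Y.assoc, h1, Y.assoc], by rw [Y.assoc, h2, ← e3, Y.assoc]⟩ ⟨h2', h3'⟩
      rw [← hl, ← Y.base_comp, e4, h1', ← e3, ← Category.assoc, D.comp_lift, Y.base_comp,
        Y.base_comp]
    intro V z b₁ b₂ b₃ r12 r23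
    obtain ⟨χ, hχ, hχ1⟩ := hF.exists_fill b₁ β₁ (D.lift3 (Y.base b₁) (Y.base b₂) (Y.base b₃))
      (by rw [hβ₁, D.lift3_q1])
    have hχ2 : Y.comp χ β₂ = b₂ :=
      h_un b₁ _ _ (hχ1 ▸ h_pre χ _ _ h12) r12 (by simp [hχ, hβ₂, D.lift3_q2])
    have hχ3 : Y.comp χ β₃ = b₃ :=
      h_un b₂ _ _ (hχ2 ▸ h_pre χ _ _ h23) r23 (by simp [hχ, hβ₃, D.lift3_q3])
    rw [← hχ1, ← hχ3]
    exact h_pre χ _ _ h13
  have h_refl : ∀ {V : C} {z : Y.Obj V} (b : Y.Hom z x), Rel b b := by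
    intro V z b
    have := h_pow b 0
    rwa [hΦ0, Y.comp_id] at this
  obtain ⟨η, c, -, hc⟩ := hY.descend_obj D.cover x Rel (fun b₁ g _ => h_ex b₁ g) h_un h_refl
    h_pre h_tr
  refine ⟨η, c, ?_⟩
  have := hc _ _ (h_pow0 1) (D.term _ _)
  rw [hΦ1, Y.id_comp] at this
  exact this.symm

/-- the projective limit of finite gerbes has an object over the point -/
theorem lim_neutral {I : Type w} [Category.{w'} I] [IsCofiltered I]
    (Γ : ProjSystem.{w, w', v} I C) (hst : ∀ i, (Γ.obj i).IsStack J)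
    (ch : ∀ i, Chart Fn (Γ.obj i))
    (hA : ∀ i (x : (Γ.obj i).Obj D.K), Nonempty ((Γ.obj i).Hom x (ch i).u))
    (hB : ∀ i (x y : (Γ.obj i).Obj D.K), ∃ φ : (Γ.obj i).Hom x y, (Γ.obj i).base φ = 𝟙 _)
    (ξ : Γ.LimObj D.K) : Nonempty (Γ.LimObj D.pt) := by
  have hF := fun i => (hst i).fibered
  -- lifts of Frobenius
  have htr : ∀ {j i : I} (a : j ⟶ i)
      (φ : {φ : (Γ.obj j).Hom (ξ.ξ j) (ξ.ξ j) // (Γ.obj j).base φ = D.Fr 1}),
      ∃ ψ : {φ : (Γ.obj i).Hom (ξ.ξ i) (ξ.ξ i) // (Γ.obj i).base φ = D.Fr 1},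
        (Γ.obj i).comp (ξ.τ a) ψ.1 = (Γ.obj i).comp ((Γ.map a).map φ.1) (ξ.τ a) := by
    intro j i a φ
    obtain ⟨σ, h0, h1, h2⟩ := (hF i).exists_vinv (ξ.τ a) (ξ.base_τ a)
    refine ⟨⟨(Γ.obj i).comp σ ((Γ.obj i).comp ((Γ.map a).map φ.1) (ξ.τ a)), ?_⟩, ?_⟩
    · simp [h0, φ.2, ξ.base_τ]
    · rw [← CatOver.assoc, h2, CatOver.id_comp]
  choose tr htr using @htr
  let G : I ⥤ Type v :=
    { obj := fun i => {φ : (Γ.obj i).Hom (ξ.ξ i) (ξ.ξ i) // (Γ.obj i).base φ = D.Fr 1}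
      map := fun a => ↾(tr a)
      map_id := fun i => by
        ext φ
        apply (hF i).cancel_vert (ξ.τ (𝟙 i)) (ξ.base_τ _)
        change (Γ.obj i).comp (ξ.τ (𝟙 i)) (tr (𝟙 i) φ).1 = (Γ.obj i).comp (ξ.τ (𝟙 i)) φ.1
        rw [htr, ξ.τ_id', Γ.un_nat]
      map_comp := fun {k j i} a b => by
        ext φ
        apply (hF i).cancel_vert (ξ.τ (a ≫ b)) (ξ.base_τ _)
        change (Γ.obj i).comp (ξ.τ (a ≫ b)) (tr (a ≫ b) φ).1 =
          (Γ.obj i).comp (ξ.τ (a ≫ b)) (tr b (tr a φ)).1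
        rw [htr, ξ.τ_comp' a b _ rfl, ← CatOver.assoc, Γ.cp_nat]
        simp only [CatOver.assoc]
        rw [htr, ← CatOver.assoc _ ((Γ.map b).map (ξ.τ a)), ← Mor.map_comp, htr, Mor.map_comp,
          CatOver.assoc] }
  have hfin : ∀ i, Finite (G.obj i) := fun i =>
    (ch i).finite_over D (hF i) _ _ (hA i _).some _
  have hne : ∀ i, Nonempty (G.obj i) := by
    intro i
    obtain ⟨z, l, hl⟩ := (hF i).exists_lift (D.Fr 1) (ξ.ξ i)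
    obtain ⟨e, he⟩ := hB i (ξ.ξ i) z
    exact ⟨⟨(Γ.obj i).comp e l, by simp [he, hl]⟩⟩
  obtain ⟨φ, hφ⟩ := nonempty_sections_of_finite_cofiltered_system G
  have hφ' : ∀ {j i : I} (a : j ⟶ i), (Γ.obj i).comp (ξ.τ a) (φ i).1 =
      (Γ.obj i).comp ((Γ.map a).map (φ j).1) (ξ.τ a) := by
    intro j i a
    have : tr a (φ j) = φ i := hφ a
    rw [← this, htr]
  choose η c hc using fun i => frob_descend D (hst i) (ch i) (ξ.ξ i) (hA i _).some (φ i).1 (φ i).2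
  have hψ : ∀ {j i : I} (a : j ⟶ i), ∃ ψ : (Γ.obj i).Hom ((Γ.map a).obj (η j)) (η i),
      (Γ.obj i).base ψ = 𝟙 _ ∧
      (Γ.obj i).comp ((Γ.map a).map (c j)) ψ = (Γ.obj i).comp (ξ.τ a) (c i) := by
    intro j i a
    refine (hst i).descend_hom D.cover _ (D.term _ _) _ (D.term _ _) ?_
    intro V z b₁ b₂ e
    refine same_datum D (hF i) (ch i) _ (hA i _).some ((Γ.map a).map (φ j).1)
      (by simp [(φ j).2]) _ _ ?_ ?_ b₁ b₂ e
    · rw [← Mor.map_comp, hc]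
    · rw [← CatOver.assoc, ← hφ', CatOver.assoc, hc]
  choose ψ hψ1 hψ2 using @hψ
  refine ⟨⟨η, ψ, hψ1, ?_, ?_⟩⟩
  · intro i
    refine (hst i).cancel_cover D.cover ((Γ.map (𝟙 i)).map (c i)) (D.term _ _) (D.term _ _) ?_
    change _ = (Γ.obj i).comp _ (Γ.un i (η i))
    rw [hψ2, ξ.τ_id', Γ.un_nat]
  · intro k j i a b ab e
    refine (hst i).cancel_cover D.cover ((Γ.map ab).map (c k)) (D.term _ _) (D.term _ _) ?_
    change _ = (Γ.obj i).comp _ ((Γ.obj i).comp (Γ.cp a b ab e (η k))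
      ((Γ.obj i).comp ((Γ.map b).map (ψ a)) (ψ b)))
    rw [hψ2, ξ.τ_comp' a b ab e, ← CatOver.assoc _ ((Γ.map ab).map (c k)), Γ.cp_nat]
    simp only [CatOver.assoc]
    rw [← CatOver.assoc _ ((Γ.map b).map ((Γ.map a).map (c k))), ← Mor.map_comp, hψ2,
      Mor.map_comp, CatOver.assoc, hψ2]

end Pool.Agent.H191Z.Gerbe
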