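import Pool.Agent.H191Z.GFrob
import Pool.Agent.H191Z.GAlg
import Pool.Agent.H191Z.GAff

set_option autoImplicit false
set_option backward.isDefEq.respectTransparency false
set_option linter.style.haveILetI false

universe w w' u v

open CategoryTheory AlgebraicGeometry TensorProduct Limits

namespace Pool.Agent.H191Z.Gerbe

variable {k : Type} [Field k]

theorem toPt_mem_fpqc (K : Type) [Field K] [Algebra k K] :
    Sieve.generate (Presieve.singleton (toPt (SpO k K))) ∈ fpqc k (pt k) := by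
  have h1 : Flat (toPt (SpO k K)).left :=
    (inferInstance : Flat (Spec.map (CommRingCat.ofHom (algebraMap k K))))
  have h2 : Surjective (toPt (SpO k K)).left :=
    (inferInstance : Surjective (Spec.map (CommRingCat.ofHom (algebraMap k K))))
  have h3 : QuasiCompact (toPt (SpO k K)).left :=
    (inferInstance : QuasiCompact (Spec.map (CommRingCat.ofHom (algebraMap k K))))
  exact generate_mem_fpqc _

variable [Fintype k]

theorem tlift_frob {A : Type} [CommRing A] [Algebra k A] (ι : AlgebraicClosure k →ₐ[k] A)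
    (n : ℤ) : tlift (𝟙 (SpO k A)) (SpM ι ≫ SpM (frob k ^ n).toAlgHom) = SpM (theta ι n) := by
  apply tensor_ext
  · rw [tlift_fst, ← SpM_comp, ← SpM_id]
    congr 1
    ext x
    simp
  · rw [tlift_snd, ← SpM_comp, ← SpM_comp]
    congr 1
    ext x
    simp

theorem tlift_frob' (n : ℤ) :
    tlift (𝟙 (SpO k (AlgebraicClosure k))) (SpM (frob k ^ n).toAlgHom) =
      SpM (theta (AlgHom.id k _) n) := by
  rw [← tlift_frob, SpM_id, Category.id_comp]

theorem dens_aux {A : Type} [CommRing A] [Algebra k A] (ι : AlgebraicClosure k →ₐ[k] A)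
    {R : Sch k} (hR : IsFinite R.hom) (m m' : SpO k (A ⊗[k] AlgebraicClosure k) ⟶ R)
    (h : ∀ n, SpM (theta ι n) ≫ m = SpM (theta ι n) ≫ m') : m = m' := by
  obtain ⟨B, _, _, -, ⟨e⟩⟩ := exists_finite R hR
  rw [← cancel_mono e.hom]
  obtain ⟨μ, hμ⟩ := SpM_surjective (m ≫ e.hom)
  obtain ⟨μ', hμ'⟩ := SpM_surjective (m' ≫ e.hom)
  rw [← hμ, ← hμ']
  congr 1
  ext b
  rw [← sub_eq_zero]
  apply theta_inj ι
  intro n
  have h1 : (theta ι n).comp μ = (theta ι n).comp μ' := by
    apply SpM_injective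
    rw [SpM_comp, SpM_comp, hμ, hμ', ← Category.assoc, h n, Category.assoc]
  rw [map_sub, sub_eq_zero]
  exact congrArg (fun f => f b) h1

/-- the geometric data for a finite field -/
noncomputable def frobData (k : Type) [Field k] [Fintype k] :
    FrobData (fpqc k) (fun R : Sch k => IsFinite R.hom) where
  pt := pt k
  K := SpO k (AlgebraicClosure k)
  W := SpO k (AlgebraicClosure k ⊗[k] AlgebraicClosure k)
  W3 := SpO k ((AlgebraicClosure k ⊗[k] AlgebraicClosure k) ⊗[k] AlgebraicClosure k)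
  π := toPt _
  term := pt_term
  cover := toPt_mem_fpqc _
  Fr n := SpM (frob k ^ n).toAlgHom
  Fr_zero := by
    rw [← SpM_id]
    rfl
  Fr_add m n := by
    rw [← SpM_comp, zpow_add]
    rfl
  p1 := SpM Algebra.TensorProduct.includeLeft
  p2 := SpM Algebra.TensorProduct.includeRight
  lift := tlift
  lift_p1 := tlift_fst
  lift_p2 := tlift_snd
  W_ext := tensor_ext
  q1 := SpM Algebra.TensorProduct.includeLeft ≫ SpM Algebra.TensorProduct.includeLeft
  q2 := SpM Algebra.TensorProduct.includeLeft ≫ SpM Algebra.TensorProduct.includeRight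
  q3 := SpM Algebra.TensorProduct.includeRight
  lift3 f g h := tlift (tlift f g) h
  lift3_q1 f g h := by rw [← Category.assoc, tlift_fst, tlift_fst]
  lift3_q2 f g h := by rw [← Category.assoc, tlift_fst, tlift_snd]
  lift3_q3 f g h := tlift_snd _ _
  dens hR m m' h := dens_aux (AlgHom.id k _) hR m m' (fun n => by
    rw [← tlift_frob']
    exact h n)
  dens3 hR m m' h := by
    refine dens_aux Algebra.TensorProduct.includeLeft hR m m' (fun n' => ?_)
    refine dens_aux (AlgHom.id k _) hR _ _ (fun n => ?_)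
    have key : SpM (theta (AlgHom.id k _) n) ≫ SpM (theta Algebra.TensorProduct.includeLeft n') =
        tlift (tlift (𝟙 (SpO k (AlgebraicClosure k))) (SpM (frob k ^ n).toAlgHom))
          (SpM (frob k ^ n').toAlgHom) := by
      apply tensor_ext
      · rw [tlift_fst, tlift_frob', ← SpM_comp, ← SpM_comp]
        congr 1
        ext x <;> simp [Algebra.TensorProduct.one_def]
      · rw [tlift_snd, ← SpM_comp, ← SpM_comp]
        congr 1
        ext x
        simp [Algebra.TensorProduct.one_def]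
    rw [← Category.assoc, ← Category.assoc, key]
    exact h n n'
  interp := by
    intro R hR r N hN hr
    obtain ⟨B, _, _, -, ⟨e⟩⟩ := exists_finite R hR
    choose r' hr' using fun n => SpM_surjective (r n ≫ e.hom)
    obtain ⟨ρ, hρ⟩ := exists_interp_algHom N hN r' (fun n => SpM_injective (by
      rw [hr', hr', hr]))
    refine ⟨SpM ρ ≫ e.inv, fun n => ?_⟩
    rw [tlift_frob', ← Category.assoc, ← SpM_comp, hρ, hr', Category.assoc, e.hom_inv_id,
      Category.comp_id]
  finite := by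
    intro R hR
    obtain ⟨B, _, _, hB, ⟨e⟩⟩ := exists_finite R hR
    have : Finite (B →ₐ[k] AlgebraicClosure k) := inferInstance
    refine Finite.of_surjective (fun f : B →ₐ[k] AlgebraicClosure k => SpM f ≫ e.inv) ?_
    intro m
    obtain ⟨f, hf⟩ := SpM_surjective (m ≫ e.hom)
    exact ⟨f, by simp [hf]⟩

omit [Fintype k] in
theorem IsFiniteGerbe.exists_chart {Y : CatOver.{v} (Sch k)} (hY : IsFiniteGerbe Y)
    (K : Type) [Field K] [IsAlgClosed K] [Algebra k K] :
    ∃ ch : Chart (fun R : Sch k => IsFinite R.hom) Y,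
      (∀ x : Y.Obj (SpO k K), Nonempty (Y.Hom x ch.u)) ∧
      ∀ x y : Y.Obj (SpO k K), ∃ φ : Y.Hom x y, Y.base φ = 𝟙 _ := by
  obtain ⟨⟨hst, U, R, u, r, s, t, hU, hR, -, -, hprod, hloc⟩, hG⟩ := hY
  have hF := hst.fibered
  have hA : ∀ x : Y.Obj (SpO k K), Nonempty (Y.Hom x u) := by
    intro x
    obtain ⟨V, hV, h⟩ := hloc x
    obtain ⟨z, c, hc, ⟨a⟩⟩ := h _ (inSieve_iff.2 (id_mem_of_mem_fppf hV))
    obtain ⟨c', -, -, -⟩ := hF.exists_vinv c hc
    exact ⟨Y.comp c' a⟩
  refine ⟨⟨U, R, u, r, s, t, hU, hR, hprod⟩, hA, ?_⟩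
  intro x y
  obtain ⟨a⟩ := hA x
  obtain ⟨b⟩ := hA y
  obtain ⟨V, hV, h⟩ := hG.locally_isomorphic x y
  obtain ⟨T, g, hg, -, p, -⟩ := exists_of_mem_fpqc hV (IsLocalRing.closedPoint K)
  have : Nonempty T.left := ⟨p⟩
  obtain ⟨z, c, d, hc, hd⟩ := h g (inSieve_iff.2 hg)
  obtain ⟨l, hl1, hl2⟩ := (hprod (Y.comp c a) (Y.comp d b)).exists
  obtain ⟨h₀, h1, h2⟩ := exists_point_of_nonempty hU hR (Y.base s) (Y.base t) (Y.base a)
    (Y.base b) (Y.base l) g (by rw [← Y.base_comp, hl1, Y.base_comp, hc])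
    (by rw [← Y.base_comp, hl2, Y.base_comp, hd])
  obtain ⟨l₀, hl₀, -⟩ := hF.exists_fill a s h₀ h1
  obtain ⟨φ, hφ, -⟩ := hF.exists_fill (Y.comp l₀ t) b (𝟙 _) (by simp [hl₀, h2])
  exact ⟨φ, hφ⟩

/-- a profinite gerbe over a finite field with an object over the algebraic closure is neutral -/
theorem IsProfiniteGerbe.neutral {P : CatOver.{u} (Sch k)}
    (hP : IsProfiniteGerbe.{w, w', u, v} P) (x : P.Obj (SpO k (AlgebraicClosure k))) :
    Nonempty (P.Obj (pt k)) := by
  obtain ⟨-, I, _, Γ, hI, hΓ, e, -, he⟩ := hP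
  choose ch hA hB using fun i => (hΓ i).exists_chart (AlgebraicClosure k)
  obtain ⟨η⟩ := lim_neutral (frobData k) Γ (fun i => (hΓ i).1.1) ch hA hB (e.obj x)
  obtain ⟨y, -⟩ := he (S := pt k) η
  exact ⟨y⟩

theorem not_surjective_sectionMap {X : Sch k} (h0 : IsEmpty (pt k ⟶ X))
    (h1 : Nonempty (SpO k (AlgebraicClosure k) ⟶ X)) {P : CatOver.{u} (Sch k)}
    (hP : IsProfiniteGerbe.{w, w', u, v} P) (f : Mor (CatOver.rep X) P) :
    ¬ Function.Surjective (sectionMap f) := by
  intro hs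
  obtain ⟨x⟩ := h1
  obtain ⟨y⟩ := hP.neutral (f.obj (S := SpO k (AlgebraicClosure k)) x)
  obtain ⟨p, -⟩ := hs (Quot.mk _ y)
  exact h0.false p

end Pool.Agent.H191Z.Gerbe
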