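import Mathlib

/-!
# The genus of a curve over a field, as the dimension of the space of global differential forms
-/

set_option autoImplicit false

open CategoryTheory AlgebraicGeometry

namespace Pool.Agent.H191Z.Gerbe

variable {k : Type} [Field k]

/-- The local ring of the `k`-scheme `X` at the point `x`. -/
def LocRing (X : Over (Spec (CommRingCat.of k))) (x : X.left) : Type :=
  X.left.presheaf.stalk x

noncomputable instance (X : Over (Spec (CommRingCat.of k))) (x : X.left) :
    CommRing (LocRing X x) :=
  (X.left.presheaf.stalk x).commRing

/-- The germ at `x` of a function defined on an open neighbourhood `U` of `x`. -/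
noncomputable def germAt (X : Over (Spec (CommRingCat.of k))) (U : X.left.Opens) (x : X.left)
    (hx : x ∈ U) : X.left.presheaf.obj (Opposite.op U) →+* LocRing X x :=
  (X.left.presheaf.germ U x hx).hom

/-- The local rings of a `k`-scheme are `k`-algebras: an element of `k` is a global function on
`Spec k`, which is pulled back to `X`. -/
noncomputable instance (X : Over (Spec (CommRingCat.of k))) (x : X.left) :
    Algebra k (LocRing X x) :=
  ((germAt X ⊤ x trivial).comp
    ((Scheme.ΓSpecIso (CommRingCat.of k)).inv ≫ X.hom.appTop).hom).toAlgebra

/-- A family of germs of differential forms (an element of the module of Kähler differentials of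
the local ring over `k`, for each point) is a global section of the sheaf of differentials if near
each point it has the form `∑ aᵢ dbᵢ` with functions `aᵢ`, `bᵢ` defined on a neighbourhood. -/
def IsGlobalForm (X : Over (Spec (CommRingCat.of k)))
    (ω : ∀ x : X.left, KaehlerDifferential k (LocRing X x)) : Prop :=
  ∀ x : X.left, ∃ (U : X.left.Opens) (_ : x ∈ U) (n : ℕ)
    (a b : Fin n → X.left.presheaf.obj (Opposite.op U)),
    ∀ (y : X.left) (hy : y ∈ U), ω y = ∑ i : Fin n,
      germAt X U y hy (a i) • KaehlerDifferential.D k (LocRing X y) (germAt X U y hy (b i))

/-- The genus of a smooth proper geometrically connected curve `X` over `k`: the dimension over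
`k` of the space of global sections of the sheaf of differentials of `X` over `k`. -/
noncomputable def genus (X : Over (Spec (CommRingCat.of k))) : Cardinal :=
  Module.rank k (Submodule.span k {ω | IsGlobalForm X ω})

end Pool.Agent.H191Z.Gerbe
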