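import Mathlib

/-!
# Stacks, finite gerbes, profinite gerbes and the Nori fundamental gerbe

Categories over a base category `C` are given by their objects over each object of `C`, and by
their arrows, each of which lies over an arrow of `C`. Stacks are categories fibered in groupoids
which satisfy descent.
-/

set_option autoImplicit false

universe t w w' u v u₀ v₀

open CategoryTheory AlgebraicGeometry

namespace Pool.Agent.H191Z.Gerbe

/-- A category with a functor to `C`: `Obj S` are the objects over `S`, and `base φ` is the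
image in `C` of the arrow `φ`. -/
structure CatOver (C : Type u₀) [Category.{v₀} C] where
  Obj : C → Type u
  Hom : ∀ {S T : C}, Obj S → Obj T → Type u
  base : ∀ {S T : C} {x : Obj S} {y : Obj T}, Hom x y → (S ⟶ T)
  id : ∀ {S : C} (x : Obj S), Hom x x
  comp : ∀ {S T U : C} {x : Obj S} {y : Obj T} {z : Obj U}, Hom x y → Hom y z → Hom x z
  base_id : ∀ {S : C} (x : Obj S), base (id x) = 𝟙 S
  base_comp : ∀ {S T U : C} {x : Obj S} {y : Obj T} {z : Obj U} (φ : Hom x y) (ψ : Hom y z),
    base (comp φ ψ) = base φ ≫ base ψ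
  id_comp : ∀ {S T : C} {x : Obj S} {y : Obj T} (φ : Hom x y), comp (id x) φ = φ
  comp_id : ∀ {S T : C} {x : Obj S} {y : Obj T} (φ : Hom x y), comp φ (id y) = φ
  assoc : ∀ {S T U V : C} {x : Obj S} {y : Obj T} {z : Obj U} {q : Obj V}
    (φ : Hom x y) (ψ : Hom y z) (χ : Hom z q), comp (comp φ ψ) χ = comp φ (comp ψ χ)

variable {C : Type u₀} [Category.{v₀} C]

/-- A morphism of categories over `C`: a functor which commutes with the functors to `C`. -/
structure Mor (X : CatOver.{u} C) (Y : CatOver.{v} C) where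
  obj : ∀ {S : C}, X.Obj S → Y.Obj S
  map : ∀ {S T : C} {x : X.Obj S} {y : X.Obj T}, X.Hom x y → Y.Hom (obj x) (obj y)
  base_map : ∀ {S T : C} {x : X.Obj S} {y : X.Obj T} (φ : X.Hom x y), Y.base (map φ) = X.base φ
  map_id : ∀ {S : C} (x : X.Obj S), map (X.id x) = Y.id (obj x)
  map_comp : ∀ {S T U : C} {x : X.Obj S} {y : X.Obj T} {z : X.Obj U}
    (φ : X.Hom x y) (ψ : X.Hom y z), map (X.comp φ ψ) = Y.comp (map φ) (map ψ)

/-- The identity morphism. -/
def Mor.id (X : CatOver.{u} C) : Mor X X where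
  obj x := x
  map φ := φ
  base_map _ := rfl
  map_id _ := rfl
  map_comp _ _ := rfl

/-- Composition of morphisms: first `F`, then `G`. -/
def Mor.comp {X : CatOver.{u} C} {Y : CatOver.{v} C} {Z : CatOver.{t} C}
    (F : Mor X Y) (G : Mor Y Z) : Mor X Z where
  obj x := G.obj (F.obj x)
  map φ := G.map (F.map φ)
  base_map φ := (G.base_map _).trans (F.base_map φ)
  map_id x := by rw [F.map_id, G.map_id]
  map_comp φ ψ := by rw [F.map_comp, G.map_comp]

/-- A 2-morphism: a natural transformation whose components lie over identities. (If `Y` is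
fibered in groupoids, it is automatically a natural isomorphism.) -/
structure Mor2 {X : CatOver.{u} C} {Y : CatOver.{v} C} (F G : Mor X Y) where
  app : ∀ {S : C} (x : X.Obj S), Y.Hom (F.obj x) (G.obj x)
  base_app : ∀ {S : C} (x : X.Obj S), Y.base (app x) = 𝟙 S
  naturality : ∀ {S T : C} {x : X.Obj S} {y : X.Obj T} (φ : X.Hom x y),
    Y.comp (F.map φ) (app y) = Y.comp (app x) (G.map φ)

/-- The arrow `f` belongs to the sieve `R`, that is, the sieve generated by `f` is contained
in `R`. -/
def InSieve {S T : C} (R : Sieve S) (f : T ⟶ S) : Prop :=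
  Sieve.generate (Presieve.singleton f) ≤ R

namespace CatOver

/-- Two objects over `S` are isomorphic in the fibre category over `S`. -/
def Isomorphic (X : CatOver.{u} C) {S : C} (x y : X.Obj S) : Prop :=
  ∃ (φ : X.Hom x y) (ψ : X.Hom y x), X.base φ = 𝟙 S ∧ X.base ψ = 𝟙 S ∧
    X.comp φ ψ = X.id x ∧ X.comp ψ φ = X.id y

/-- The set of isomorphism classes of objects of the fibre category over `S`. -/
def IsoClasses (X : CatOver.{u} C) (S : C) : Type u :=
  Quot (fun x y : X.Obj S => X.Isomorphic x y)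

/-- `X` is fibered in groupoids over `C`. -/
structure IsFiberedInGroupoids (X : CatOver.{u} C) : Prop where
  exists_lift : ∀ {S T : C} (g : S ⟶ T) (y : X.Obj T),
    ∃ (x : X.Obj S) (φ : X.Hom x y), X.base φ = g
  existsUnique_fill : ∀ {S T U : C} {x : X.Obj S} {y : X.Obj T} {z : X.Obj U}
    (φ : X.Hom x z) (ψ : X.Hom y z) (g : S ⟶ T), g ≫ X.base ψ = X.base φ →
    ∃! χ : X.Hom x y, X.base χ = g ∧ X.comp χ ψ = φ

/-- A descent datum for the sieve `R` on `S`: a functor over `C` from the category of arrows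
in `R` to `X`. -/
structure DescentDatum (X : CatOver.{u} C) {S : C} (R : Sieve S) where
  obj : ∀ {T : C} (f : T ⟶ S), InSieve R f → X.Obj T
  map : ∀ {T' T : C} {f' : T' ⟶ S} (hf' : InSieve R f') {f : T ⟶ S} (hf : InSieve R f) (h : T' ⟶ T),
    h ≫ f = f' → X.Hom (obj f' hf') (obj f hf)
  base_map : ∀ {T' T : C} {f' : T' ⟶ S} (hf' : InSieve R f') {f : T ⟶ S} (hf : InSieve R f) (h : T' ⟶ T)
    (e : h ≫ f = f'), X.base (map hf' hf h e) = h
  map_id : ∀ {T : C} {f : T ⟶ S} (hf : InSieve R f) (e : 𝟙 T ≫ f = f),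
    map hf hf (𝟙 T) e = X.id (obj f hf)
  map_comp : ∀ {T'' T' T : C} {f'' : T'' ⟶ S} (hf'' : InSieve R f'') {f' : T' ⟶ S} (hf' : InSieve R f')
    {f : T ⟶ S} (hf : InSieve R f) (h' : T'' ⟶ T') (h : T' ⟶ T) (e' : h' ≫ f' = f'') (e : h ≫ f = f')
    (e'' : (h' ≫ h) ≫ f = f''),
    X.comp (map hf'' hf' h' e') (map hf' hf h e) = map hf'' hf (h' ≫ h) e''

/-- `X` is a stack (in groupoids) for the topology `J`: it is fibered in groupoids, isomorphisms
between two objects form a sheaf, and descent data are effective. -/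
structure IsStack (X : CatOver.{u} C) (J : GrothendieckTopology C) : Prop where
  fibered : X.IsFiberedInGroupoids
  glue_hom : ∀ {S : C} (R : Sieve S), R ∈ J S → ∀ (x y : X.Obj S)
    (φ : ∀ {T : C} {z : X.Obj T} (a : X.Hom z x), InSieve R (X.base a) → X.Hom z y),
    (∀ {T : C} {z : X.Obj T} (a : X.Hom z x) (ha : InSieve R (X.base a)),
      X.base (φ a ha) = X.base a) →
    (∀ {T' T : C} {z' : X.Obj T'} {z : X.Obj T} (b : X.Hom z' z) (a : X.Hom z x)
      (ha : InSieve R (X.base a)) (hba : InSieve R (X.base (X.comp b a))),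
      φ (X.comp b a) hba = X.comp b (φ a ha)) →
    ∃! ψ : X.Hom x y, X.base ψ = 𝟙 S ∧
      ∀ {T : C} {z : X.Obj T} (a : X.Hom z x) (ha : InSieve R (X.base a)), X.comp a ψ = φ a ha
  glue_obj : ∀ {S : C} (R : Sieve S), R ∈ J S → ∀ D : X.DescentDatum R,
    ∃ (y : X.Obj S) (c : ∀ {T : C} (f : T ⟶ S) (hf : InSieve R f), X.Hom (D.obj f hf) y),
      (∀ {T : C} (f : T ⟶ S) (hf : InSieve R f), X.base (c f hf) = f) ∧
      ∀ {T' T : C} {f' : T' ⟶ S} (hf' : InSieve R f') {f : T ⟶ S} (hf : InSieve R f) (h : T' ⟶ T)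
        (e : h ≫ f = f'), X.comp (D.map hf' hf h e) (c f hf) = c f' hf'

/-- `X` is a gerbe for the topology `J`: a stack which locally has objects, and in which any two
objects over the same base are locally isomorphic. -/
structure IsGerbe (X : CatOver.{u} C) (J : GrothendieckTopology C) : Prop where
  stack : X.IsStack J
  locally_nonempty : ∀ S : C, ∃ R ∈ J S, ∀ {T : C} (f : T ⟶ S), InSieve R f → Nonempty (X.Obj T)
  locally_isomorphic : ∀ {S : C} (x y : X.Obj S), ∃ R ∈ J S, ∀ {T : C} (f : T ⟶ S), InSieve R f →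
    ∃ (z : X.Obj T) (a : X.Hom z x) (b : X.Hom z y), X.base a = f ∧ X.base b = f

/-- The category over `C` represented by an object `X` of `C`: its objects over `S` are the
arrows from `S` to `X`. -/
def rep (X : C) : CatOver.{v₀} C where
  Obj S := S ⟶ X
  Hom {S T} x y := {g : S ⟶ T // g ≫ y = x}
  base g := g.1
  id x := ⟨𝟙 _, Category.id_comp x⟩
  comp g h := ⟨g.1 ≫ h.1, by rw [Category.assoc, h.2, g.2]⟩
  base_id _ := rfl
  base_comp _ _ := rfl
  id_comp _ := Subtype.ext (Category.id_comp _)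
  comp_id _ := Subtype.ext (Category.comp_id _)
  assoc _ _ _ := Subtype.ext (Category.assoc _ _ _)

end CatOver

/-- A morphism is an equivalence if it is fully faithful and essentially surjective on fibres. -/
def Mor.IsEquivalence {X : CatOver.{u} C} {Y : CatOver.{v} C} (F : Mor X Y) : Prop :=
  (∀ {S T : C} (x : X.Obj S) (y : X.Obj T),
    Function.Bijective (F.map : X.Hom x y → Y.Hom (F.obj x) (F.obj y))) ∧
  ∀ {S : C} (y : Y.Obj S), ∃ x : X.Obj S, Y.Isomorphic (F.obj x) y

/-- A projective system indexed by the category `I`: a pseudo-functor from `I` to the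
2-category of categories over `C`. -/
structure ProjSystem (I : Type w) [Category.{w'} I] (C : Type u₀) [Category.{v₀} C] where
  obj : I → CatOver.{v} C
  map : ∀ {j i : I}, (j ⟶ i) → Mor (obj j) (obj i)
  unit : ∀ i : I, Mor2 (map (𝟙 i)) (Mor.id (obj i))
  comp : ∀ {k j i : I} (a : k ⟶ j) (b : j ⟶ i) (c : k ⟶ i), a ≫ b = c →
    Mor2 (map c) ((map a).comp (map b))
  left_unit : ∀ {j i : I} (a : j ⟶ i) (e : 𝟙 j ≫ a = a) {S : C} (x : (obj j).Obj S),
    (obj i).comp ((comp (𝟙 j) a a e).app x) ((map a).map ((unit j).app x)) =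
      (obj i).id ((map a).obj x)
  right_unit : ∀ {j i : I} (a : j ⟶ i) (e : a ≫ 𝟙 i = a) {S : C} (x : (obj j).Obj S),
    (obj i).comp ((comp a (𝟙 i) a e).app x) ((unit i).app ((map a).obj x)) =
      (obj i).id ((map a).obj x)
  assoc : ∀ {l k j i : I} (a : l ⟶ k) (b : k ⟶ j) (c : j ⟶ i) (ab : l ⟶ j) (bc : k ⟶ i)
    (abc : l ⟶ i) (e₁ : a ≫ b = ab) (e₂ : b ≫ c = bc) (e₃ : ab ≫ c = abc) (e₄ : a ≫ bc = abc)
    {S : C} (x : (obj l).Obj S),
    (obj i).comp ((comp ab c abc e₃).app x) ((map c).map ((comp a b ab e₁).app x)) =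
      (obj i).comp ((comp a bc abc e₄).app x) ((comp b c bc e₂).app ((map a).obj x))

namespace ProjSystem

variable {I : Type w} [Category.{w'} I]

/-- An object over `S` of the projective limit: objects `ξ i` over `S` with compatible
isomorphisms `τ a` from the image of `ξ j` to `ξ i` for all arrows `a` from `j` to `i`. -/
structure LimObj (Γ : ProjSystem.{w, w', v} I C) (S : C) : Type (max w w' v v₀) where
  ξ : ∀ i : I, (Γ.obj i).Obj S
  τ : ∀ {j i : I} (a : j ⟶ i), (Γ.obj i).Hom ((Γ.map a).obj (ξ j)) (ξ i)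
  base_τ : ∀ {j i : I} (a : j ⟶ i), (Γ.obj i).base (τ a) = 𝟙 S
  τ_id : ∀ i : I, τ (𝟙 i) = (Γ.unit i).app (ξ i)
  τ_comp : ∀ {k j i : I} (a : k ⟶ j) (b : j ⟶ i) (c : k ⟶ i) (e : a ≫ b = c),
    τ c = (Γ.obj i).comp ((Γ.comp a b c e).app (ξ k))
      ((Γ.obj i).comp ((Γ.map b).map (τ a)) (τ b))

/-- An arrow in the projective limit: a compatible family of arrows over one arrow of `C`. -/
@[ext]
structure LimHom {Γ : ProjSystem.{w, w', v} I C} {S T : C} (x : Γ.LimObj S) (y : Γ.LimObj T) :
    Type (max w w' v v₀) where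
  g : S ⟶ T
  φ : ∀ i : I, (Γ.obj i).Hom (x.ξ i) (y.ξ i)
  base_φ : ∀ i : I, (Γ.obj i).base (φ i) = g
  comm : ∀ {j i : I} (a : j ⟶ i),
    (Γ.obj i).comp ((Γ.map a).map (φ j)) (y.τ a) = (Γ.obj i).comp (x.τ a) (φ i)

/-- The projective limit of a projective system. -/
def lim (Γ : ProjSystem.{w, w', v} I C) : CatOver.{max w w' v v₀} C where
  Obj S := Γ.LimObj S
  Hom x y := LimHom x y
  base φ := φ.g
  id {S} x :=
    { g := 𝟙 S
      φ := fun i => (Γ.obj i).id (x.ξ i)
      base_φ := fun i => (Γ.obj i).base_id _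
      comm := fun a => by rw [Mor.map_id, CatOver.id_comp, CatOver.comp_id] }
  comp φ ψ :=
    { g := φ.g ≫ ψ.g
      φ := fun i => (Γ.obj i).comp (φ.φ i) (ψ.φ i)
      base_φ := fun i => by rw [CatOver.base_comp, φ.base_φ, ψ.base_φ]
      comm := fun a => by
        rw [Mor.map_comp, CatOver.assoc, ψ.comm, ← CatOver.assoc, φ.comm, CatOver.assoc] }
  base_id _ := rfl
  base_comp _ _ := rfl
  id_comp _ := LimHom.ext (Category.id_comp _) (funext fun _ => CatOver.id_comp _ _)
  comp_id _ := LimHom.ext (Category.comp_id _) (funext fun _ => CatOver.comp_id _ _)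
  assoc _ _ _ := LimHom.ext (Category.assoc _ _ _) (funext fun _ => CatOver.assoc _ _ _ _)

end ProjSystem

section schemes

/-- The category of schemes over the field `k`. -/
abbrev Sch (k : Type) [Field k] : Type 1 := Over (Spec (CommRingCat.of k))

variable {k : Type} [Field k]

/-- The scheme `Spec k` over `k`. -/
noncomputable def pt (k : Type) [Field k] : Sch k := Over.mk (𝟙 (Spec (CommRingCat.of k)))

/-- The fpqc topology on the category of schemes over `k`. -/
noncomputable def fpqc (k : Type) [Field k] : GrothendieckTopology (Sch k) :=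
  Scheme.fpqcTopology.over (Spec (CommRingCat.of k))

/-- The fppf topology on the category of schemes over `k`. -/
noncomputable def fppf (k : Type) [Field k] : GrothendieckTopology (Sch k) :=
  Scheme.fppfTopology.over (Spec (CommRingCat.of k))

/-- The morphism `f` of `k`-schemes is faithfully flat and locally of finite presentation. -/
def IsFppf {S T : Sch k} (f : S ⟶ T) : Prop :=
  Flat f.left ∧ Surjective f.left ∧ LocallyOfFinitePresentation f.left

/-- `Y` is a finite stack over `k`: an fpqc stack with an fppf groupoid presentation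
`R ⇉ U` by finite `k`-schemes. That is, there is an object `u` over `U` (a morphism from `U` to
`Y`) such that every object of `Y` is fppf locally a pullback of `u`, and `R`, with the object `r`
and the arrows `s`, `t` from `r` to `u`, represents the fibre product of `U` and `U` over `Y`. -/
def IsFiniteStack (Y : CatOver.{u} (Sch k)) : Prop :=
  Y.IsStack (fpqc k) ∧
  ∃ (U R : Sch k) (u : Y.Obj U) (r : Y.Obj R) (s t : Y.Hom r u),
    IsFinite U.hom ∧ IsFinite R.hom ∧ IsFppf (Y.base s) ∧ IsFppf (Y.base t) ∧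
    (∀ {T : Sch k} {z : Y.Obj T} (a b : Y.Hom z u),
      ∃! h : Y.Hom z r, Y.comp h s = a ∧ Y.comp h t = b) ∧
    ∀ {S : Sch k} (x : Y.Obj S), ∃ V ∈ fppf k S, ∀ {T : Sch k} (f : T ⟶ S), InSieve V f →
      ∃ (z : Y.Obj T) (c : Y.Hom z x), Y.base c = f ∧ Nonempty (Y.Hom z u)

/-- A finite gerbe is a finite stack which is a gerbe. -/
def IsFiniteGerbe (Y : CatOver.{u} (Sch k)) : Prop :=
  IsFiniteStack Y ∧ Y.IsGerbe (fpqc k)

/-- A profinite gerbe is an fpqc gerbe which is equivalent to the projective limit of a system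
of finite gerbes with a cofiltered index category. -/
def IsProfiniteGerbe (P : CatOver.{u} (Sch k)) : Prop :=
  P.IsGerbe (fpqc k) ∧
  ∃ (I : Type w) (_ : Category.{w'} I) (Γ : ProjSystem.{w, w', v} I (Sch k)),
    IsCofiltered I ∧ (∀ i, IsFiniteGerbe (Γ.obj i)) ∧ ∃ e : Mor P Γ.lim, e.IsEquivalence

/-- The map from rational points of `X` to isomorphism classes of objects of `P` over `Spec k`
given by a morphism from `X` to `P`. -/
noncomputable def sectionMap {X : Sch k} {P : CatOver.{u} (Sch k)} (f : Mor (CatOver.rep X) P) :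
    (pt k ⟶ X) → P.IsoClasses (pt k) :=
  fun x => Quot.mk _ (f.obj (S := pt k) x)

/-- `f` from `X` to `P` has the universal property of the fundamental gerbe: every morphism from
`X` to a finite stack factors through `f`, uniquely up to unique isomorphism. -/
def IsUniversal {X : Sch k} {P : CatOver.{u} (Sch k)} (f : Mor (CatOver.rep X) P) : Prop :=
  ∀ (Y : CatOver.{t} (Sch k)), IsFiniteStack Y → ∀ g : Mor (CatOver.rep X) Y,
    (∃ h : Mor P Y, Nonempty (Mor2 (f.comp h) g)) ∧
    ∀ (h₁ h₂ : Mor P Y) (α₁ : Mor2 (f.comp h₁) g) (α₂ : Mor2 (f.comp h₂) g),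
      ∃! β : Mor2 h₁ h₂, ∀ {S : Sch k} (x : (CatOver.rep X).Obj S),
        Y.comp (β.app (f.obj x)) (α₂.app x) = α₁.app x

end schemes

end Pool.Agent.H191Z.Gerbe
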