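import Mathlib

set_option autoImplicit false

namespace Pool.Agent.H191Z.Para

/-- The matrix with rows (1, 2) and (0, 1). -/
def matA : Matrix.SpecialLinearGroup (Fin 2) ℝ :=
  ⟨!![1, 2; 0, 1], by simp [Matrix.det_fin_two_of]⟩

/-- The matrix with rows (1, 0) and (2, 1), the transpose of `matA`. -/
def matB : Matrix.SpecialLinearGroup (Fin 2) ℝ :=
  ⟨!![1, 0; 2, 1], by simp [Matrix.det_fin_two_of]⟩

/-- The group `F` generated by `matA` and `matB`. -/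
def grpF : Subgroup (Matrix.SpecialLinearGroup (Fin 2) ℝ) := Subgroup.closure {matA, matB}

/-- The open unit square. -/
def square : Set (Fin 2 → ℝ) := {v | ∀ k, 0 < v k ∧ v k < 1}

/-- `E` is paradoxical for the group `G` of matrices acting linearly on the plane. -/
def Paradoxical (G : Subgroup (Matrix.SpecialLinearGroup (Fin 2) ℝ)) (E : Set (Fin 2 → ℝ)) :
    Prop :=
  ∃ (n m : ℕ) (A : Fin n → Set (Fin 2 → ℝ)) (B : Fin m → Set (Fin 2 → ℝ))
    (g : Fin n → Matrix.SpecialLinearGroup (Fin 2) ℝ)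
    (h : Fin m → Matrix.SpecialLinearGroup (Fin 2) ℝ),
    0 < n ∧ 0 < m ∧ (∀ i, g i ∈ G) ∧ (∀ j, h j ∈ G) ∧
    (∀ i, A i ⊆ E) ∧ (∀ j, B j ⊆ E) ∧
    Pairwise (fun i i' => Disjoint (A i) (A i')) ∧
    Pairwise (fun j j' => Disjoint (B j) (B j')) ∧
    (∀ i j, Disjoint (A i) (B j)) ∧
    (⋃ i, (fun v => Matrix.mulVec ((g i : Matrix (Fin 2) (Fin 2) ℝ)) v) '' A i) = E ∧
    (⋃ j, (fun v => Matrix.mulVec ((h j : Matrix (Fin 2) (Fin 2) ℝ)) v) '' B j) = E

end Pool.Agent.H191Z.Para
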