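import Pool.Agent.H191Z.ParaDefs

set_option autoImplicit false

namespace Pool.Agent.H191Z.Para

open Matrix

/-- integer matrices congruent to the identity modulo 2 -/
def Lvl (g : Matrix.SpecialLinearGroup (Fin 2) ℝ) : Prop :=
  ∃ p q r s : ℤ, g.1 0 0 = 1 + 2 * p ∧ g.1 0 1 = 2 * q ∧ g.1 1 0 = 2 * r ∧ g.1 1 1 = 1 + 2 * s

theorem lvl_of_mem {g : Matrix.SpecialLinearGroup (Fin 2) ℝ} (hg : g ∈ grpF) : Lvl g := by
  induction hg using Subgroup.closure_induction with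
  | mem x hx =>
    rcases hx with rfl | rfl
    · exact ⟨0, 1, 0, 0, by simp [matA], by simp [matA], by simp [matA], by simp [matA]⟩
    · exact ⟨0, 0, 1, 0, by simp [matB], by simp [matB], by simp [matB], by simp [matB]⟩
  | one => exact ⟨0, 0, 0, 0, by simp, by simp, by simp, by simp⟩
  | mul x y _ _ hx hy =>
    obtain ⟨p, q, r, s, h1, h2, h3, h4⟩ := hx
    obtain ⟨p', q', r', s', h1', h2', h3', h4'⟩ := hy
    refine ⟨p + p' + 2 * p * p' + 2 * q * r', (1 + 2 * p) * q' + q * (1 + 2 * s'),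
      r * (1 + 2 * p') + (1 + 2 * s) * r', s + s' + 2 * s * s' + 2 * r * q', ?_, ?_, ?_, ?_⟩ <;>
    simp only [Matrix.SpecialLinearGroup.coe_mul, Matrix.mul_apply, Fin.sum_univ_two, h1, h2, h3,
      h4, h1', h2', h3', h4'] <;> push_cast <;> ring
  | inv x _ hx =>
    obtain ⟨p, q, r, s, h1, h2, h3, h4⟩ := hx
    refine ⟨s, -q, -r, p, ?_, ?_, ?_, ?_⟩ <;>
    simp [Matrix.SpecialLinearGroup.coe_inv, Matrix.adjugate_fin_two, h1, h2, h3, h4]

/-- near the point (3/4, 3/4), an element of level two either leaves the square or is a shear -/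
theorem local_form {g : Matrix.SpecialLinearGroup (Fin 2) ℝ} (hg : Lvl g) :
    ∃ ε : ℝ, 0 < ε ∧ ∃ k : ℤ, ∀ w : Fin 2 → ℝ, |w 0 - 3 / 4| < ε → |w 1 - 3 / 4| < ε →
      g.1 *ᵥ w ∈ square → g.1 *ᵥ w = fun i => w i + k * (w 1 - w 0) := by
  obtain ⟨p, q, r, s, h1, h2, h3, h4⟩ := hg
  have hdet : g.1 0 0 * g.1 1 1 - g.1 0 1 * g.1 1 0 = 1 := by
    have := g.2
    rwa [Matrix.det_fin_two] at this
  have e0 : ∀ w : Fin 2 → ℝ, (g.1 *ᵥ w) 0 = (1 + 2 * p) * w 0 + 2 * q * w 1 := by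
    intro w; simp [Matrix.mulVec, dotProduct, Fin.sum_univ_two, h1, h2]
  have e1 : ∀ w : Fin 2 → ℝ, (g.1 *ᵥ w) 1 = 2 * r * w 0 + (1 + 2 * s) * w 1 := by
    intro w; simp [Matrix.mulVec, dotProduct, Fin.sum_univ_two, h3, h4]
  have key : ∀ (a b : ℝ) (t : ℤ), a + b = 1 + 2 * t → t ≠ 0 → ∃ ε : ℝ, 0 < ε ∧
      ∀ x y : ℝ, |x - 3 / 4| < ε → |y - 3 / 4| < ε → ¬ (0 < a * x + b * y ∧ a * x + b * y < 1) := by
    intro a b t hab ht
    refine ⟨1 / (2 * (|a| + |b| + 1)), by positivity, ?_⟩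
    intro x y hx hy ⟨h0, h1⟩
    have hpos : 0 < |a| + |b| + 1 := by positivity
    have hax : |a * (x - 3 / 4) + b * (y - 3 / 4)| ≤ 1 / 2 := by
      calc |a * (x - 3 / 4) + b * (y - 3 / 4)| ≤ |a * (x - 3 / 4)| + |b * (y - 3 / 4)| :=
            abs_add_le _ _
        _ = |a| * |x - 3 / 4| + |b| * |y - 3 / 4| := by rw [abs_mul, abs_mul]
        _ ≤ |a| * (1 / (2 * (|a| + |b| + 1))) + |b| * (1 / (2 * (|a| + |b| + 1))) := by
            gcongr
        _ = (|a| + |b|) / (2 * (|a| + |b| + 1)) := by ring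
        _ ≤ 1 / 2 := by
            rw [div_le_div_iff₀ (by positivity) (by positivity)]
            nlinarith
    have heq : a * x + b * y = (1 + 2 * t) * (3 / 4) + (a * (x - 3 / 4) + b * (y - 3 / 4)) := by
      rw [← hab]; ring
    rw [abs_le] at hax
    rcases lt_or_gt_of_ne ht with ht | ht
    · have : (t : ℝ) ≤ -1 := by exact_mod_cast (by omega : t ≤ -1)
      linarith [hax.2]
    · have : (1 : ℝ) ≤ t := by exact_mod_cast (by omega : 1 ≤ t)
      linarith [hax.1]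
  by_cases hA : p + q = 0
  · by_cases hB : r + s = 0
    · have hp : (p : ℝ) = -q := by
        have : ((p + q : ℤ) : ℝ) = 0 := by rw [hA]; simp
        push_cast at this; linarith
      have hs : (s : ℝ) = -r := by
        have : ((r + s : ℤ) : ℝ) = 0 := by rw [hB]; simp
        push_cast at this; linarith
      rw [h1, h2, h3, h4, hp, hs] at hdet
      have hr : (r : ℝ) = -q := by nlinarith
      refine ⟨1, one_pos, 2 * q, fun w _ _ _ => ?_⟩
      funext i
      fin_cases i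
      · simp only [Fin.zero_eta, e0, hp]; push_cast; ring
      · simp only [Fin.mk_one, e1, hs, hr]; push_cast; ring
    · obtain ⟨ε, hε, h⟩ := key (2 * r) (1 + 2 * s) (r + s) (by push_cast; ring) hB
      refine ⟨ε, hε, 0, fun w h0 h1 hw => ?_⟩
      exact absurd (by simpa [e1] using hw 1) (h _ _ h0 h1)
  · obtain ⟨ε, hε, h⟩ := key (1 + 2 * p) (2 * q) (p + q) (by push_cast; ring) hA
    refine ⟨ε, hε, 0, fun w h0 h1 hw => ?_⟩
    exact absurd (by simpa [e0] using hw 0) (h _ _ h0 h1)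

theorem uniform_form {ι : Type} [Finite ι] (g : ι → Matrix.SpecialLinearGroup (Fin 2) ℝ)
    (hg : ∀ i, Lvl (g i)) :
    ∃ ε : ℝ, 0 < ε ∧ ∃ K : ℕ, ∀ i, ∀ w : Fin 2 → ℝ, |w 0 - 3 / 4| < ε → |w 1 - 3 / 4| < ε →
      (g i).1 *ᵥ w ∈ square →
        ∃ k : ℤ, |k| ≤ K ∧ (g i).1 *ᵥ w = fun j => w j + k * (w 1 - w 0) := by
  classical
  choose ε hε k hk using fun i => local_form (hg i)
  obtain ⟨K, hK⟩ := (Set.finite_range fun i => (k i).natAbs).bddAbove
  cases isEmpty_or_nonempty ι with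
  | inl h => exact ⟨1, one_pos, 0, fun i => (h.false i).elim⟩
  | inr h =>
    obtain ⟨i0, hi0⟩ := Finite.exists_min ε
    refine ⟨ε i0, hε i0, K, fun i w h0 h1 hw => ⟨k i, ?_, hk i w (h0.trans_le (hi0 i))
      (h1.trans_le (hi0 i)) hw⟩⟩
    have : (k i).natAbs ≤ K := hK ⟨i, rfl⟩
    rw [← Int.natCast_natAbs]
    exact_mod_cast this

theorem exists_L (K : ℕ) : ∃ L : ℕ, 2 * (L * K) + 1 < 2 ^ L := by
  have h : ∀ n : ℕ, n * n < 2 ^ (n + 1) := by
    intro n
    induction n with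
    | zero => norm_num
    | succ n ih =>
      have : n < 2 ^ n := Nat.lt_two_pow_self
      have h2 : 2 ^ (n + 1 + 1) = 2 ^ (n + 1) + 2 * 2 ^ n := by ring
      nlinarith
  refine ⟨2 * K + 3 + 1, lt_of_le_of_lt ?_ (h (2 * K + 3))⟩
  nlinarith

theorem not_paradoxical (E : Set (Fin 2 → ℝ)) (hE : E ⊆ square) (hd : square ⊆ closure E) :
    ¬ Paradoxical grpF E := by
  classical
  rintro ⟨n, m, A, B, g, h, hn, -, hg, hh, hA, hB, hAA, hBB, hAB, hgE, hhE⟩
  haveI : Nonempty (Fin n ⊕ Fin m) := ⟨Sum.inl ⟨0, hn⟩⟩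
  -- pieces indexed by a sum type
  let C : Fin n ⊕ Fin m → Set (Fin 2 → ℝ) := Sum.elim A B
  let u : Fin n ⊕ Fin m → Matrix.SpecialLinearGroup (Fin 2) ℝ :=
    Sum.elim (fun i => (g i)⁻¹) (fun j => (h j)⁻¹)
  have hu : ∀ i, Lvl (u i) := by
    rintro (i | j)
    · exact lvl_of_mem (grpF.inv_mem (hg i))
    · exact lvl_of_mem (grpF.inv_mem (hh j))
  have hCE : ∀ i, C i ⊆ E := by
    rintro (i | j)
    · exact hA i
    · exact hB j
  have hCC : ∀ i i', ∀ x, x ∈ C i → x ∈ C i' → i = i' := by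
    rintro (i | j) (i' | j') x hx hx'
    · by_contra hne
      exact Set.disjoint_left.1 (hAA (fun e => hne (by rw [e]))) hx hx'
    · exact (Set.disjoint_left.1 (hAB i j') hx hx').elim
    · exact (Set.disjoint_left.1 (hAB i' j) hx' hx).elim
    · by_contra hne
      exact Set.disjoint_left.1 (hBB (fun e => hne (by rw [e]))) hx hx'
  have hinv : ∀ (t : Matrix.SpecialLinearGroup (Fin 2) ℝ) (v : Fin 2 → ℝ),
      (t⁻¹).1 *ᵥ (t.1 *ᵥ v) = v := by
    intro t v
    rw [Matrix.mulVec_mulVec, ← Matrix.SpecialLinearGroup.coe_mul, inv_mul_cancel]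
    simp
  have huinj : ∀ i, Function.Injective fun v => (u i).1 *ᵥ v := by
    intro i v w hvw
    have := congrArg (fun z => ((u i)⁻¹).1 *ᵥ z) hvw
    simpa only [hinv] using this
  have hsel : ∀ (b : Bool) (x : Fin 2 → ℝ), x ∈ E → ∃ i : Fin n ⊕ Fin m,
      i.isLeft = b ∧ (u i).1 *ᵥ x ∈ C i := by
    intro b x hx
    cases b
    · have hx' := hx
      rw [← hhE] at hx'
      obtain ⟨j, y, hy, rfl⟩ := Set.mem_iUnion.1 hx'
      refine ⟨Sum.inr j, rfl, ?_⟩
      show ((h j)⁻¹).1 *ᵥ ((h j).1 *ᵥ y) ∈ B j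
      rwa [hinv]
    · have hx' := hx
      rw [← hgE] at hx'
      obtain ⟨j, y, hy, rfl⟩ := Set.mem_iUnion.1 hx'
      refine ⟨Sum.inl j, rfl, ?_⟩
      show ((g j)⁻¹).1 *ᵥ ((g j).1 *ᵥ y) ∈ A j
      rwa [hinv]
  choose! sel hsel1 hsel2 using hsel
  obtain ⟨ε, hε, K, hK⟩ := uniform_form u hu
  obtain ⟨L, hL⟩ := exists_L K
  have hv0 : (fun _ => (3 / 4 : ℝ)) ∈ closure E := hd (fun k => by norm_num)
  have hη : 0 < ε / (2 * (L * K) + 1) := by positivity
  obtain ⟨x, hxE, hx⟩ := Metric.mem_closure_iff.1 hv0 _ hη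
  have hx0 : ∀ j, |x j - 3 / 4| < ε / (2 * (L * K) + 1) := by
    intro j
    have := (dist_le_pi_dist (fun _ => (3 / 4 : ℝ)) x j).trans_lt hx
    rwa [dist_comm, Real.dist_eq] at this
  set δ := x 1 - x 0 with hδ
  have hδb : |δ| ≤ 2 * (ε / (2 * (L * K) + 1)) := by
    have h0 := hx0 0
    have h1 := hx0 1
    rw [abs_lt] at h0 h1
    rw [abs_le]
    constructor <;> linarith [h0.1, h0.2, h1.1, h1.2]
  let pt : ℤ → (Fin 2 → ℝ) := fun k j => x j + k * δ
  let P : ℕ → Finset (Fin 2 → ℝ) := fun M =>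
    ((Finset.Icc (-(M : ℤ)) M).image pt).filter (fun y => y ∈ E)
  have hnear : ∀ k : ℤ, |k| ≤ ((L * K : ℕ) : ℤ) → ∀ j, |pt k j - 3 / 4| < ε := by
    intro k hk j
    have hk' : |(k : ℝ)| ≤ L * K := by exact_mod_cast hk
    have h1 : |pt k j - 3 / 4| ≤ |x j - 3 / 4| + |(k : ℝ)| * |δ| := by
      rw [← abs_mul]
      have : pt k j - 3 / 4 = (x j - 3 / 4) + k * δ := by simp only [pt]; ring
      rw [this]; exact abs_add_le _ _
    have h2 : |(k : ℝ)| * |δ| ≤ (L * K) * (2 * (ε / (2 * (L * K) + 1))) := by gcongr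
    have h3 : ε / (2 * (L * K) + 1) + (L * K) * (2 * (ε / (2 * (L * K) + 1))) = ε := by
      field_simp; ring
    linarith [hx0 j]
  have hstep : ∀ j : ℕ, j < L → 2 * (P (j * K)).card ≤ (P ((j + 1) * K)).card := by
    intro j hj
    have hcard : ((Finset.univ : Finset Bool) ×ˢ P (j * K)).card = 2 * (P (j * K)).card := by
      simp
    rw [← hcard]
    refine Finset.card_le_card_of_injOn (fun z => (u (sel z.1 z.2)).1 *ᵥ z.2) ?_ ?_
    · rintro ⟨b, y⟩ hz
      simp only [Finset.coe_product, Finset.coe_univ, Set.mem_prod, Set.mem_univ, true_and,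
        Finset.mem_coe, P, Finset.mem_filter, Finset.mem_image, Finset.mem_Icc] at hz ⊢
      obtain ⟨⟨k, ⟨hk1, hk2⟩, rfl⟩, hyE⟩ := hz
      have hin : (u (sel b (pt k))).1 *ᵥ pt k ∈ E := hCE _ (hsel2 b _ hyE)
      have hkb : |k| ≤ ((L * K : ℕ) : ℤ) := by
        have : j * K ≤ L * K := Nat.mul_le_mul_right _ hj.le
        rw [abs_le]; constructor <;> omega
      obtain ⟨k', hk', he⟩ := hK _ (pt k) (hnear k hkb 0) (hnear k hkb 1) (hE hin)
      refine ⟨⟨k + k', ?_, ?_⟩, hin⟩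
      · rw [abs_le] at hk'
        have : (((j + 1) * K : ℕ) : ℤ) = ((j * K : ℕ) : ℤ) + K := by push_cast; ring
        rw [this]
        constructor <;> omega
      · rw [he]
        funext i
        simp only [pt]
        push_cast
        rw [hδ]; ring
    · rintro ⟨b, y⟩ hz ⟨b', y'⟩ hz' he
      simp only [Finset.coe_product, Finset.coe_univ, Set.mem_prod, Set.mem_univ, true_and,
        Finset.mem_coe, P, Finset.mem_filter] at hz hz'
      have h1 := hsel2 b y hz.2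
      have h2 := hsel2 b' y' hz'.2
      simp only at he
      have h3 : sel b y = sel b' y' := hCC _ _ _ h1 (he ▸ h2)
      have h4 : b = b' := by rw [← hsel1 b y hz.2, ← hsel1 b' y' hz'.2, h3]
      rw [h3] at he
      exact Prod.ext h4 (huinj _ he)
  have hgrow : ∀ j : ℕ, j ≤ L → 2 ^ j ≤ (P (j * K)).card := by
    intro j
    induction j with
    | zero =>
      intro _
      rw [pow_zero, Finset.one_le_card]
      refine ⟨x, ?_⟩
      simp only [P, Finset.mem_filter, Finset.mem_image, Finset.mem_Icc]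
      exact ⟨⟨0, by simp, by funext i; simp [pt]⟩, hxE⟩
    | succ j ih =>
      intro hj
      have := hstep j hj
      have := ih (by omega)
      rw [pow_succ]; omega
  have hup : (P (L * K)).card ≤ 2 * (L * K) + 1 := by
    refine (Finset.card_filter_le _ _).trans (Finset.card_image_le.trans ?_)
    rw [Int.card_Icc]
    omega
  have := hgrow L le_rfl
  omega

end Pool.Agent.H191Z.Para
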