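import Mathlib

set_option autoImplicit false

open TensorProduct Polynomial

namespace Pool.Agent.H191Z.Rig

variable {k L : Type} [Field k] [Field L] [Algebra k L] (σ : L ≃ₐ[k] L)

/-- the fixed field of `σ` is the base field -/
def HFix : Prop := ∀ x : L, σ x = x → x ∈ Set.range (algebraMap k L)

/-- there are orbits of every length -/
def HOrb : Prop := ∀ N : ℕ, 0 < N → ∃ ζ : L, (σ ^ N) ζ = ζ ∧
  ∀ i j : ℕ, i < N → j < N → (σ ^ i) ζ = (σ ^ j) ζ → i = j

theorem artin (hfix : HFix σ) {ι : Type} (b : ι → L) (hb : LinearIndependent k b)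
    (s : Finset ι) : ∀ c : ι → L,
      (∀ n : ℤ, ∑ i ∈ s, c i * (σ ^ n) (b i) = 0) → ∀ i ∈ s, c i = 0 := by
  classical
  induction s using Finset.induction_on with
  | empty => intro c _ i hi; simp at hi
  | insert j t hj ih =>
    intro c hc
    have hcj : c j = 0 := by
      by_contra hne
      let d : ι → L := fun i => c i / c j
      have hd : ∀ n : ℤ, (σ ^ n) (b j) + ∑ i ∈ t, d i * (σ ^ n) (b i) = 0 := by
        intro n
        have := hc n
        rw [Finset.sum_insert hj] at this
        have h2 : (c j)⁻¹ * (c j * (σ ^ n) (b j) + ∑ i ∈ t, c i * (σ ^ n) (b i)) = 0 := by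
          rw [this, mul_zero]
        rw [mul_add, Finset.mul_sum, ← mul_assoc, inv_mul_cancel₀ hne, one_mul] at h2
        rw [← h2]
        congr 1
        refine Finset.sum_congr rfl fun i _ => ?_
        simp only [d]
        ring
      have hd2 : ∀ n : ℤ, ∑ i ∈ t, (σ (d i) - d i) * (σ ^ n) (b i) = 0 := by
        intro n
        have h1 := congrArg (σ) (hd (n - 1))
        have h3 : ∀ x, σ ((σ ^ (n - 1)) x) = (σ ^ n) x := by
          intro x
          rw [← AlgEquiv.mul_apply, ← zpow_one_add]
          congr 2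
          ring
        simp only [map_add, map_sum, map_mul, h3, map_zero] at h1
        have h2 := hd n
        simp only [sub_mul, Finset.sum_sub_distrib]
        linear_combination h1 - h2
      have hd3 := ih _ hd2
      have hd4 : ∀ i ∈ t, ∃ e : k, algebraMap k _ e = d i := fun i hi =>
        hfix _ (sub_eq_zero.1 (hd3 i hi))
      choose! e he using hd4
      have h5 := hd 0
      rw [linearIndependent_iff'] at hb
      have h6 := hb (insert j t) (fun i => if i = j then 1 else e i) (by
        rw [Finset.sum_insert hj, ← h5]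
        simp only [if_true, one_smul, zpow_zero, AlgEquiv.one_apply]
        congr 1
        refine Finset.sum_congr rfl fun i hi => ?_
        have : i ≠ j := fun h => hj (h ▸ hi)
        rw [if_neg this, Algebra.smul_def, he i hi]) j (Finset.mem_insert_self _ _)
      simp at h6
    intro i hi
    rcases Finset.mem_insert.1 hi with rfl | hi
    · exact hcj
    · refine ih c (fun n => ?_) i hi
      have := hc n
      rwa [Finset.sum_insert hj, hcj, zero_mul, zero_add] at this

/-- evaluation along the graph of a power of Frobenius -/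
noncomputable def theta {A : Type} [CommRing A] [Algebra k A] (ι : L →ₐ[k] A)
    (n : ℤ) : A ⊗[k] L →ₐ[k] A :=
  Algebra.TensorProduct.lift (AlgHom.id k A) (ι.comp (σ ^ n).toAlgHom)
    (fun _ _ => Commute.all _ _)

@[simp] theorem theta_tmul {A : Type} [CommRing A] [Algebra k A]
    (ι : L →ₐ[k] A) (n : ℤ) (a : A) (b : L) :
    theta σ ι n (a ⊗ₜ b) = a * ι ((σ ^ n) b) := by
  simp [theta]

theorem theta_inj (hfix : HFix σ) {A : Type} [CommRing A] [Algebra k A] (ι : L →ₐ[k] A)
    (x : A ⊗[k] L) (hx : ∀ n, theta σ ι n x = 0) : x = 0 := by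
  classical
  let b := Module.Basis.ofVectorSpace k (L)
  obtain ⟨a, rfl⟩ := TensorProduct.eq_repr_basis_right b x
  letI : Algebra (L) A := ι.toRingHom.toAlgebra
  have key : ∀ i ∈ a.support, a i = 0 := by
    intro i hi
    rw [← Module.forall_dual_apply_eq_zero_iff (L)]
    intro l
    refine artin σ hfix b b.linearIndependent a.support (fun i => l (a i)) (fun n => ?_) i hi
    have h1 := congrArg l (hx n)
    rw [Finsupp.sum, map_sum, map_sum, map_zero] at h1
    rw [← h1]
    refine Finset.sum_congr rfl fun i _ => ?_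
    rw [theta_tmul, mul_comm (a i)]
    have : ι ((σ ^ n) (b i)) * a i = ((σ ^ n) (b i)) • a i := rfl
    rw [this, map_smul, smul_eq_mul, mul_comm]
  rw [Finsupp.sum]
  refine Finset.sum_eq_zero fun i hi => ?_
  rw [key i hi, zero_tmul]

theorem exists_interp (horb : HOrb σ) (N : ℕ) (hN : 0 < N) (s : ℤ → L)
    (hs : ∀ n, s (n + N) = s n) :
    ∃ x : L ⊗[k] L,
      ∀ n, theta σ (AlgHom.id k _) n x = s n := by
  classical
  obtain ⟨ζ, h1, h2⟩ := horb N hN
  let v : ℕ → L := fun i => (σ ^ i) ζ
  have hv : Set.InjOn v (Finset.range N) := fun i hi j hj e =>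
    h2 i j (by simpa using hi) (by simpa using hj) e
  let P := Lagrange.interpolate (Finset.range N) v (fun i => s i)
  refine ⟨P.sum fun m c => c ⊗ₜ (ζ ^ m), fun n => ?_⟩
  have hper : Function.Periodic s (N : ℤ) := hs
  have hper2 : Function.Periodic (fun n : ℤ => (σ ^ n) ζ) (N : ℤ) := by
    intro n
    simp only
    rw [zpow_add, AlgEquiv.mul_apply, zpow_natCast, h1]
  have hN' : (0 : ℤ) < N := by exact_mod_cast hN
  obtain ⟨i, hi⟩ : ∃ i : ℕ, (i : ℤ) = n % N := ⟨(n % N).toNat,
    Int.toNat_of_nonneg (Int.emod_nonneg _ hN'.ne')⟩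
  have hiN : i < N := by
    have := Int.emod_lt_of_pos n hN'
    omega
  have hn : n = i + (n / N) * N := by
    rw [hi]
    exact (Int.emod_add_ediv_mul n N).symm
  have e1 : s n = s i := by
    rw [hn]
    exact (hper.int_mul (n / N)) i
  have e2 : (σ ^ n) ζ = v i := by
    rw [hn]
    have := (hper2.int_mul (n / N)) i
    simp only [Int.cast_id] at this
    rw [this, zpow_natCast]
  have e3 : P.eval (v i) = s i :=
    Lagrange.eval_interpolate_at_node _ hv (by simpa using hiN)
  rw [e1, ← e3, ← e2, Polynomial.eval_eq_sum, Polynomial.sum, Polynomial.sum, map_sum]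
  refine Finset.sum_congr rfl fun m _ => ?_
  simp

theorem exists_interp_algHom (hfix : HFix σ) (horb : HOrb σ) {A : Type} [CommRing A] [Algebra k A] (N : ℕ) (hN : 0 < N)
    (r : ℤ → (A →ₐ[k] L)) (hr : ∀ n, r (n + N) = r n) :
    ∃ ρ : A →ₐ[k] L ⊗[k] L,
      ∀ n, (theta σ (AlgHom.id k _) n).comp ρ = r n := by
  let Θ : L ⊗[k] L →ₐ[k] (ℤ → L) :=
    Pi.algHom k _ (fun n => theta σ (AlgHom.id k _) n)
  have hΘ : Function.Injective Θ := by
    rw [injective_iff_map_eq_zero]
    intro x hx
    exact theta_inj σ hfix (AlgHom.id k _) x (fun n => congrFun hx n)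
  let ρ0 : A →ₐ[k] (ℤ → L) := Pi.algHom k _ r
  have hmem : ∀ a, ρ0 a ∈ Θ.range := by
    intro a
    obtain ⟨x, hx⟩ := exists_interp σ horb N hN (fun n => r n a) (fun n => by simp only [hr])
    exact ⟨x, funext hx⟩
  refine ⟨(AlgEquiv.ofInjective Θ hΘ).symm.toAlgHom.comp (ρ0.codRestrict Θ.range hmem), ?_⟩
  intro n
  ext a
  have : Θ ((AlgEquiv.ofInjective Θ hΘ).symm ⟨ρ0 a, hmem a⟩) = ρ0 a := by
    have := (AlgEquiv.ofInjective Θ hΘ).apply_symm_apply ⟨ρ0 a, hmem a⟩
    exact congrArg Subtype.val this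
  exact congrFun this n

end Pool.Agent.H191Z.Rig
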