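import Pool.Agent.H191Z.RGeo
import Pool.Agent.H452Z.FrobEtale

set_option autoImplicit false
set_option backward.isDefEq.respectTransparency false
set_option linter.style.haveILetI false

universe u

open CategoryTheory AlgebraicGeometry TensorProduct Limits

namespace Pool.Agent.H191Z.Rig

open Pool.Agent.H191Z.Gerbe

variable {κ : Type} [Field κ]

theorem algEquiv_of_iso {R P Q : Type} [CommRing R] [CommRing P] [CommRing Q] [Algebra κ R]
    [Algebra κ P] [Algebra κ Q] [Algebra R P] [Algebra R Q] [IsScalarTower κ R P]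
    [IsScalarTower κ R Q] (e : SpO κ P ≅ SpO κ Q)
    (he : e.hom ≫ SpM (IsScalarTower.toAlgHom κ R Q) = SpM (IsScalarTower.toAlgHom κ R P)) :
    Nonempty (P ≃ₐ[R] Q) := by
  obtain ⟨φ, hφ⟩ := SpM_surjective e.hom
  obtain ⟨ψ, hψ⟩ := SpM_surjective e.inv
  have h1 : φ.comp ψ = AlgHom.id κ P := SpM_injective (by
    rw [SpM_comp, hφ, hψ, e.hom_inv_id, SpM_id])
  have h2 : ψ.comp φ = AlgHom.id κ Q := SpM_injective (by
    rw [SpM_comp, hφ, hψ, e.inv_hom_id, SpM_id])
  have h3 : φ.comp (IsScalarTower.toAlgHom κ R Q) = IsScalarTower.toAlgHom κ R P :=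
    SpM_injective (by rw [SpM_comp, hφ, he])
  let φ' : Q →ₐ[R] P := ⟨φ.toRingHom, fun r => AlgHom.congr_fun h3 r⟩
  refine ⟨(AlgEquiv.ofBijective φ' ⟨?_, ?_⟩).symm⟩
  · exact Function.LeftInverse.injective (g := ψ) (fun x => AlgHom.congr_fun h2 x)
  · exact Function.RightInverse.surjective (g := ψ) (fun x => AlgHom.congr_fun h1 x)

theorem exists_chartData {Y : CatOver.{u} (Sch κ)} (hY : IsFiniteGerbe Y) {L : Type} [Field L]
    [Algebra κ L] {C : Type} [CommRing C] [Algebra κ C] [Algebra L C] [IsScalarTower κ L C]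
    {η : Y.Obj (SpO κ L)} {g : Y.Obj (SpO κ C)} {a b : Y.Hom g η}
    (ha : Y.base a = SpM (IsScalarTower.toAlgHom κ L C)) (hG : Y.IsIsom a b) (q : ℕ)
    (hn : ∀ (R B R' : Type) [CommRing R] [Algebra L R] [CommRing B] [Algebra R B] [CommRing R']
      [Algebra R R'] [Algebra L R'] [IsScalarTower L R R'] [Module.FaithfullyFlat R R'],
      Nonempty ((R' ⊗[R] B) ≃ₐ[R'] (R' ⊗[L] C)) → Algebra.Etale R (frobSub q R B))
    {R : Type} [CommRing R] [Algebra κ R] [Algebra L R] [IsScalarTower κ L R]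
    (ξ : Y.Obj (SpO κ R)) :
    ∃ (B : Type) (_ : CommRing B) (_ : Algebra κ B) (_ : Algebra R B)
      (_ : IsScalarTower κ R B) (z : Y.Obj (SpO κ B)) (α : Y.Hom z ξ) (β : Y.Hom z η),
      Module.Finite R B ∧ Y.base α = SpM (IsScalarTower.toAlgHom κ R B) ∧
      IsPair α β (SpM (IsScalarTower.toAlgHom κ L R)) ∧ Algebra.Etale R (frobSub q R B) ∧
      ∀ (F : Type) [Field F] [IsAlgClosed F] (φ : R →+* F),
        ∃ μ : B →+* F, μ.comp (algebraMap R B) = φ := by
  have hF := hY.2.stack.fibered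
  obtain ⟨ηR, e, he⟩ := hF.exists_lift (SpM (IsScalarTower.toAlgHom κ L R)) η
  obtain ⟨B, _, _, _, _, z, α, β', hfin, hα, hI⟩ := exists_isom_alg hY.1 ξ ηR
  have hP := isPair_of_isIsom hF hI e
  rw [he] at hP
  refine ⟨B, inferInstance, inferInstance, inferInstance, inferInstance, z, α, Y.comp β' e,
    hfin, hα, hP, ?_, ?_⟩
  · obtain ⟨R', _, _, _, _, z', a', b', hff, ha', hb'⟩ := exists_iso_cover hY.2 ξ ηR
    letI : Algebra L R' := ((algebraMap R R').comp (algebraMap L R)).toAlgebra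
    haveI : IsScalarTower L R R' := IsScalarTower.of_algebraMap_eq' rfl
    haveI : IsScalarTower κ L R' := IsScalarTower.of_algebraMap_eq fun x => by
      rw [IsScalarTower.algebraMap_apply κ R R', IsScalarTower.algebraMap_apply κ L R]
      rfl
    have H1 := isPullback_SpM (k := κ) R R' B
    have H2 := isPullback_SpM (k := κ) L R' C
    have hb : Y.base (Y.comp b' e) = SpM (IsScalarTower.toAlgHom κ L R') := by
      rw [Y.base_comp, hb', he, ← SpM_comp]
      rfl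
    rw [← ha', ← hα] at H1
    rw [← hb, ← ha] at H2
    obtain ⟨ε, hε⟩ := triv hF hP hG a' (Y.comp b' e) (by rw [Y.base_comp, hb', he, ha']) H1 H2
    exact hn R B R' (algEquiv_of_iso ε hε)
  · intro F _ _ φ
    letI : Algebra κ F := (φ.comp (algebraMap κ R)).toAlgebra
    let φ' : R →ₐ[κ] F := ⟨φ, fun _ => rfl⟩
    obtain ⟨x, l1, hl1⟩ := hF.exists_lift (SpM φ') ξ
    obtain ⟨y, l2, hl2⟩ := hF.exists_lift (SpM φ') ηR
    obtain ⟨-, -, hiso⟩ := hY.exists_chart F
    obtain ⟨ψ, hψ⟩ := hiso x y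
    obtain ⟨h, ⟨h1, -⟩, -⟩ := hI.2 l1 (Y.comp ψ l2) (by simp [hψ, hl1, hl2])
    obtain ⟨μ, hμ⟩ := SpM_surjective (Y.base h)
    have h3 : μ.comp (IsScalarTower.toAlgHom κ R B) = φ' :=
      SpM_injective (by rw [SpM_comp, hμ, ← hα, ← Y.base_comp, h1, hl1])
    exact ⟨μ.toRingHom, RingHom.ext fun r => AlgHom.congr_fun h3 r⟩

theorem exists_double {Ω : Type} [Field Ω] (F : Subfield Ω) :
    ∃ (E : Type) (_ : CommRing E) (j1 j2 : Ω →+* E), ∀ ω, j1 ω = j2 ω ↔ ω ∈ F := by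
  refine ⟨Ω ⊗[F] Ω, inferInstance, Algebra.TensorProduct.includeLeftRingHom,
    (Algebra.TensorProduct.includeRight : Ω →ₐ[F] Ω ⊗[F] Ω).toRingHom, fun ω => ⟨fun h => ?_,
      fun h => Algebra.TensorProduct.tmul_one_eq_one_tmul (⟨ω, h⟩ : F)⟩⟩
  obtain ⟨l, hl⟩ := LinearMap.exists_leftInverse_of_injective (Algebra.linearMap F Ω)
    (LinearMap.ker_eq_bot.2 (algebraMap F Ω).injective)
  have h1 : l 1 = 1 := by simpa using LinearMap.congr_fun hl 1
  have h2 : ω ⊗ₜ[F] (1 : Ω) = 1 ⊗ₜ[F] ω := h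
  have h3 := congrArg (fun t => TensorProduct.rid F Ω (LinearMap.lTensor Ω l t)) h2
  simp only [LinearMap.lTensor_tmul, TensorProduct.rid_tmul, h1, one_smul] at h3
  rw [h3, ← Algebra.algebraMap_eq_smul_one]
  exact (l ω).2

theorem exists_factor_range {B L Ω : Type} [CommRing B] [Field L] [Field Ω] (ρ : L →+* Ω)
    (μ : B →+* Ω) (h : ∀ b, μ b ∈ Set.range ρ) : ∃ ν : B →+* L, ∀ b, ρ (ν b) = μ b := by
  choose ν hν using h
  exact ⟨{ toFun := ν
           map_one' := ρ.injective (by simp [hν])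
           map_mul' := fun x y => ρ.injective (by simp [hν])
           map_zero' := ρ.injective (by simp [hν])
           map_add' := fun x y => ρ.injective (by simp [hν]) }, hν⟩

end Pool.Agent.H191Z.Rig
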