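import Pool.Agent.H191Z.XDefs

set_option autoImplicit false

universe u u₀ v₀

open CategoryTheory

namespace Pool.Agent.H191Z.Rig

open Pool.Agent.H191Z.Gerbe

variable {C : Type u₀} [Category.{v₀} C] {Y : CatOver.{u} C}

/-- two pullbacks of a trivialisation over a chart -/
theorem chase_chart (hY : Y.IsFiberedInGroupoids) {X0 X P0 P T0 T TD0 TD Lp : C}
    {ξ0 : Y.Obj X0} {ξ : Y.Obj X} (w : Y.Hom ξ ξ0) {η : Y.Obj Lp}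
    {z0 : Y.Obj P0} {z : Y.Obj P} (α0 : Y.Hom z0 ξ0) (β0 : Y.Hom z0 η) (α : Y.Hom z ξ)
    (β : Y.Hom z η) (s0 : X0 ⟶ Lp) (hs0 : Y.base β0 = Y.base α0 ≫ s0)
    (γ : Y.Hom z z0) (hγα : Y.comp γ α0 = Y.comp α w) (hγβ : Y.comp γ β0 = β)
    (Ψ0 : T0 ⟶ P0) (t : T ⟶ T0) (td : TD ⟶ TD0) (i1 i2 : TD0 ⟶ T0)
    (hi : i1 ≫ Ψ0 ≫ Y.base α0 = i2 ≫ Ψ0 ≫ Y.base α0)
    {zT : Y.Obj T} (ζ : Y.Hom zT z) (ht : t ≫ Ψ0 = Y.base ζ ≫ Y.base γ)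
    {zD : Y.Obj TD} (μ1 μ2 : Y.Hom zD zT) (h1 : td ≫ i1 = Y.base μ1 ≫ t)
    (h2 : td ≫ i2 = Y.base μ2 ≫ t)
    (hμ : Y.comp μ2 (Y.comp ζ α) = Y.comp μ1 (Y.comp ζ α))
    {G : C} {g : Y.Obj G} {a b : Y.Hom g η} (hG : Y.IsIsom a b) :
    ∃ (H : Y.Hom zD g) (h0 : TD0 ⟶ G), Y.base H = td ≫ h0 ∧
      Y.comp H a = Y.comp μ1 (Y.comp ζ β) ∧ Y.comp H b = Y.comp μ2 (Y.comp ζ β) := by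
  obtain ⟨zT0, ζ0, hζ0⟩ := hY.exists_lift Ψ0 z0
  obtain ⟨u, hu, hu'⟩ := hY.exists_fill (Y.comp ζ γ) ζ0 t (by simp [hζ0, ht])
  obtain ⟨zD0, m1, hm1⟩ := hY.exists_lift i1 zT0
  obtain ⟨m2, hm2, hm2'⟩ := hY.exists_fill (Y.comp m1 (Y.comp ζ0 α0)) (Y.comp ζ0 α0) i2
    (by simp [hm1, hζ0, hi])
  obtain ⟨v, hv, hv'⟩ := hY.exists_fill (Y.comp μ1 u) m1 td (by simp [hm1, hu, h1])
  have hv2 : Y.comp v m2 = Y.comp μ2 u := by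
    refine hY.ext (Y.comp ζ0 α0) (by simp [hv, hm2, hu, h2]) ?_
    rw [Y.assoc, hm2', ← Y.assoc, hv', Y.assoc, Y.assoc, ← Y.assoc u, hu', Y.assoc, hγα,
      ← Y.assoc ζ, ← Y.assoc μ1, ← Y.assoc μ2, hμ]
  obtain ⟨h, ⟨k1, k2⟩, -⟩ := hG.2 (Y.comp m1 (Y.comp ζ0 β0)) (Y.comp m2 (Y.comp ζ0 β0))
    (by simp only [Y.base_comp, hm1, hm2, hζ0, hs0, reassoc_of% hi])
  refine ⟨Y.comp v h, Y.base h, by simp [hv], ?_, ?_⟩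
  · rw [Y.assoc, k1, ← Y.assoc, hv', Y.assoc, ← Y.assoc u, hu', Y.assoc, hγβ]
  · rw [Y.assoc, k2, ← Y.assoc, hv2, Y.assoc, ← Y.assoc u, hu', Y.assoc, hγβ]

theorem chase (hY : Y.IsFiberedInGroupoids) {X0 X1 X P0 P1 P T0 T1 T TD0 TD1 TD Lp Ωp Dp : C}
    {ξ0 : Y.Obj X0} {ξ1 : Y.Obj X1} {ξ : Y.Obj X} (w0 : Y.Hom ξ ξ0) (w1 : Y.Hom ξ ξ1)
    {η η' : Y.Obj Lp} (ex : Y.Hom η ξ) (ey : Y.Hom η' ξ)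
    {z0 : Y.Obj P0} {z1 : Y.Obj P1} {z : Y.Obj P} (α0 : Y.Hom z0 ξ0) (β0 : Y.Hom z0 η)
    (α1 : Y.Hom z1 ξ1) (β1 : Y.Hom z1 η) (α : Y.Hom z ξ) (β : Y.Hom z η)
    (s0 : X0 ⟶ Lp) (s1 : X1 ⟶ Lp) (s : X ⟶ Lp) (hs0 : Y.base β0 = Y.base α0 ≫ s0)
    (hs1 : Y.base β1 = Y.base α1 ≫ s1) (hs : Y.base β = Y.base α ≫ s)
    (hex : Y.base ex ≫ s = 𝟙 _) (hey : Y.base ey ≫ s = 𝟙 _)
    (γ0 : Y.Hom z z0) (hγα0 : Y.comp γ0 α0 = Y.comp α w0) (hγβ0 : Y.comp γ0 β0 = β)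
    (γ1 : Y.Hom z z1) (hγα1 : Y.comp γ1 α1 = Y.comp α w1) (hγβ1 : Y.comp γ1 β1 = β)
    (Ψ0 : T0 ⟶ P0) (Ψ1 : T1 ⟶ P1) (Ψ : T ⟶ P) (t0 : T ⟶ T0) (t1 : T ⟶ T1)
    (ht0 : t0 ≫ Ψ0 = Ψ ≫ Y.base γ0) (ht1 : t1 ≫ Ψ1 = Ψ ≫ Y.base γ1)
    (td0 : TD ⟶ TD0) (td1 : TD ⟶ TD1) (i01 i02 : TD0 ⟶ T0) (i11 i12 : TD1 ⟶ T1)
    (i1 i2 : TD ⟶ T) (hi0 : i01 ≫ Ψ0 ≫ Y.base α0 = i02 ≫ Ψ0 ≫ Y.base α0)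
    (hi1 : i11 ≫ Ψ1 ≫ Y.base α1 = i12 ≫ Ψ1 ≫ Y.base α1)
    (hi : i1 ≫ Ψ ≫ Y.base α = i2 ≫ Ψ ≫ Y.base α)
    (h01 : td0 ≫ i01 = i1 ≫ t0) (h02 : td0 ≫ i02 = i2 ≫ t0)
    (h11 : td1 ≫ i11 = i1 ≫ t1) (h12 : td1 ≫ i12 = i2 ≫ t1)
    (ρ : Ωp ⟶ Lp) (j1 j2 : Dp ⟶ Ωp) (hj : j1 ≫ ρ = j2 ≫ ρ) (x y : Ωp ⟶ T) (xD yD : Dp ⟶ TD)
    (hx : x ≫ Ψ ≫ Y.base α = ρ ≫ Y.base ex) (hy : y ≫ Ψ ≫ Y.base α = ρ ≫ Y.base ey)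
    (hx1 : xD ≫ i1 = j1 ≫ x) (hx2 : xD ≫ i2 = j2 ≫ x) (hy1 : yD ≫ i1 = j1 ≫ y)
    (hy2 : yD ≫ i2 = j2 ≫ y)
    {G : C} {g : Y.Obj G} {a b : Y.Hom g η} (hG : Y.IsIsom a b)
    (hconst : ∀ (h0 : TD0 ⟶ G) (h1 : TD1 ⟶ G), td0 ≫ h0 = td1 ≫ h1 →
      xD ≫ td0 ≫ h0 = yD ≫ td0 ≫ h0)
    {I : C} {q : Y.Obj I} {c : Y.Hom q η} {d : Y.Hom q η'} (hI : Y.IsIsom c d) :
    ∃ m : Ωp ⟶ I, m ≫ Y.base c = ρ ∧ j1 ≫ m = j2 ≫ m := by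
  obtain ⟨zT, ζ, hζ⟩ := hY.exists_lift Ψ z
  obtain ⟨zD, μ1, hμ1⟩ := hY.exists_lift i1 zT
  obtain ⟨μ2, hμ2, hμ⟩ := hY.exists_fill (Y.comp μ1 (Y.comp ζ α)) (Y.comp ζ α) i2
    (by simp [hμ1, hζ, hi])
  obtain ⟨H, h0, hH0, hHa, hHb⟩ := chase_chart hY w0 α0 β0 α β s0 hs0 γ0 hγα0 hγβ0 Ψ0 t0 td0
    i01 i02 hi0 ζ (by rw [hζ, ht0]) μ1 μ2 (by rw [hμ1, h01]) (by rw [hμ2, h02]) hμ hG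
  obtain ⟨H', h1, hH1, hHa', hHb'⟩ := chase_chart hY w1 α1 β1 α β s1 hs1 γ1 hγα1 hγβ1 Ψ1 t1 td1
    i11 i12 hi1 ζ (by rw [hζ, ht1]) μ1 μ2 (by rw [hμ1, h11]) (by rw [hμ2, h12]) hμ hG
  have hHH : H = H' := (hG.2 (Y.comp μ1 (Y.comp ζ β)) (Y.comp μ2 (Y.comp ζ β))
    (by simp only [Y.base_comp, hμ1, hμ2, hζ, hs, reassoc_of% hi])).unique ⟨hHa, hHb⟩
    ⟨hHa', hHb'⟩
  have hc := hconst h0 h1 (by rw [← hH0, ← hH1, hHH])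
  rw [← hH0] at hc
  obtain ⟨zx, κx, hκx⟩ := hY.exists_lift x zT
  obtain ⟨zy, κy, hκy⟩ := hY.exists_lift y zT
  obtain ⟨γx, hγx, hγx'⟩ := hY.exists_fill (Y.comp κx (Y.comp ζ α)) ex ρ
    (by simp [hκx, hζ, hx])
  obtain ⟨γy, hγy, hγy'⟩ := hY.exists_fill (Y.comp κy (Y.comp ζ α)) ey ρ
    (by simp [hκy, hζ, hy])
  obtain ⟨θ, hθ, hθ'⟩ := hY.exists_fill (Y.comp κx (Y.comp ζ β)) (Y.comp κy (Y.comp ζ β)) (𝟙 _)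
    (by simp only [Y.base_comp, hκx, hκy, hζ, hs, reassoc_of% hx, reassoc_of% hy, hex, hey,
      Category.id_comp])
  obtain ⟨zDx, ζx, hζx⟩ := hY.exists_lift xD zD
  obtain ⟨zDy, ζy, hζy⟩ := hY.exists_lift yD zD
  obtain ⟨l, hl, hl'⟩ := hY.exists_fill (Y.comp ζx H) (Y.comp ζy H) (𝟙 _)
    (by simp [hζx, hζy, hc])
  obtain ⟨ν1x, a1, a1'⟩ := hY.exists_fill (Y.comp ζx μ1) κx j1 (by simp [hκx, hζx, hμ1, hx1])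
  obtain ⟨ν2x, a2, a2'⟩ := hY.exists_fill (Y.comp ζx μ2) κx j2 (by simp [hκx, hζx, hμ2, hx2])
  obtain ⟨ν1y, b1, b1'⟩ := hY.exists_fill (Y.comp ζy μ1) κy j1 (by simp [hκy, hζy, hμ1, hy1])
  obtain ⟨ν2y, b2, b2'⟩ := hY.exists_fill (Y.comp ζy μ2) κy j2 (by simp [hκy, hζy, hμ2, hy2])
  have e1 : Y.comp ν1x γx = Y.comp ν2x γx := by
    refine hY.ext ex (by simp [a1, a2, hγx, hj]) ?_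
    rw [Y.assoc, Y.assoc, hγx', ← Y.assoc, ← Y.assoc ν2x, a1', a2', Y.assoc, Y.assoc, hμ]
  have e2 : Y.comp ν1y γy = Y.comp ν2y γy := by
    refine hY.ext ey (by simp [b1, b2, hγy, hj]) ?_
    rw [Y.assoc, Y.assoc, hγy', ← Y.assoc, ← Y.assoc ν2y, b1', b2', Y.assoc, Y.assoc, hμ]
  have e3 : Y.comp l ν1y = Y.comp ν1x θ := by
    refine hY.ext (Y.comp κy (Y.comp ζ β)) (by simp [hl, b1, a1, hθ]) ?_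
    rw [Y.assoc, Y.assoc, hθ', ← Y.assoc ν1y, ← Y.assoc ν1x, b1', a1', Y.assoc, Y.assoc, ← hHa,
      ← Y.assoc ζy, ← Y.assoc l, hl', Y.assoc]
  have e4 : Y.comp l ν2y = Y.comp ν2x θ := by
    refine hY.ext (Y.comp κy (Y.comp ζ β)) (by simp [hl, b2, a2, hθ]) ?_
    rw [Y.assoc, Y.assoc, hθ', ← Y.assoc ν2y, ← Y.assoc ν2x, b2', a2', Y.assoc, Y.assoc, ← hHb,
      ← Y.assoc ζy, ← Y.assoc l, hl', Y.assoc]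
  obtain ⟨m, ⟨m1, m2⟩, -⟩ := hI.2 γx (Y.comp θ γy) (by simp [hγx, hγy, hθ])
  refine ⟨Y.base m, by rw [← Y.base_comp, m1, hγx], ?_⟩
  have e5 : Y.comp ν1x m = Y.comp ν2x m :=
    (hI.2 (Y.comp ν1x γx) (Y.comp ν1x (Y.comp θ γy)) (by simp [hγx, hγy, hθ])).unique
      ⟨by rw [Y.assoc, m1], by rw [Y.assoc, m2]⟩
      ⟨by rw [Y.assoc, m1, e1], by
        rw [Y.assoc, m2, ← Y.assoc, ← Y.assoc, ← e3, ← e4, Y.assoc, Y.assoc, e2]⟩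
  rw [← a1, ← a2, ← Y.base_comp, ← Y.base_comp, e5]

end Pool.Agent.H191Z.Rig
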