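import Pool.Agent.H191Z.RRig
import Pool.Agent.H405Z.Help.Point48

set_option autoImplicit false
set_option backward.isDefEq.respectTransparency false
set_option linter.style.haveILetI false
set_option linter.unusedSectionVars false

open TensorProduct Polynomial

namespace Pool.Agent.H191Z.Rig

section frob

variable {R B R' B' : Type} [CommRing R] [CommRing B] [Algebra R B] [CommRing R'] [CommRing B']
  [Algebra R' B'] (q : ℕ) {f : R →+* R'} {g : B →+* B'}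
  (hg : g.comp (algebraMap R B) = (algebraMap R' B').comp f)

include hg in
theorem frobSub_map {b : B} (hb : b ∈ frobSub q R B) : g b ∈ frobSub q R' B' := by
  induction hb using Algebra.adjoin_induction with
  | mem x hx =>
    obtain ⟨y, rfl⟩ := hx
    exact Algebra.subset_adjoin ⟨g y, (map_pow g y q).symm⟩
  | algebraMap r =>
    have := RingHom.congr_fun hg r
    rw [RingHom.comp_apply] at this
    rw [this]
    exact Subalgebra.algebraMap_mem _ _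
  | add x y _ _ hx hy => rw [map_add]; exact add_mem hx hy
  | mul x y _ _ hx hy => rw [map_mul]; exact mul_mem hx hy

/-- the map on the subalgebras of `q`-th powers -/
def frobMap : frobSub q R B →+* frobSub q R' B' :=
  (g.comp (frobSub q R B).val.toRingHom).codRestrict (frobSub q R' B')
    (fun b => frobSub_map q hg b.2)

theorem frobMap_comm : (frobMap q hg).comp (algebraMap R (frobSub q R B)) =
    (algebraMap R' (frobSub q R' B')).comp f :=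
  RingHom.ext fun r => Subtype.ext (RingHom.congr_fun hg r)

theorem isLoc_frobMap {u : R} (hf : IsLoc f u) (hl : IsLoc g (algebraMap R B u)) :
    IsLoc (frobMap q hg) (algebraMap R (frobSub q R B) u) := by
  have hg' : ∀ r, g (algebraMap R B r) = algebraMap R' B' (f r) := RingHom.congr_fun hg
  refine ⟨?_, ?_, ?_⟩
  · have := RingHom.congr_fun (frobMap_comm q hg) u
    rw [RingHom.comp_apply] at this
    rw [this]
    exact hf.unit.map (algebraMap R' (frobSub q R' B'))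
  · rintro ⟨m, hm⟩
    have key : ∃ (n : ℕ) (a : B), a ∈ frobSub q R B ∧ m * g (algebraMap R B u) ^ n = g a := by
      induction hm using Algebra.adjoin_induction with
      | mem x hx =>
        obtain ⟨y, rfl⟩ := hx
        obtain ⟨n, a, e⟩ := hl.sur y
        exact ⟨n * q, a ^ q, Algebra.subset_adjoin ⟨a, rfl⟩, by
          rw [map_pow, ← e, mul_pow, pow_mul]⟩
      | algebraMap r =>
        obtain ⟨n, a, e⟩ := hf.sur r
        exact ⟨n, algebraMap R B a, Subalgebra.algebraMap_mem _ _, by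
          rw [hg', hg', ← e, map_mul, map_pow]⟩
      | add x y _ _ hx hy =>
        obtain ⟨n, a, ha, e⟩ := hx
        obtain ⟨n', a', ha', e'⟩ := hy
        refine ⟨n + n', a * algebraMap R B u ^ n' + a' * algebraMap R B u ^ n,
          add_mem (mul_mem ha (pow_mem (Subalgebra.algebraMap_mem _ _) _))
            (mul_mem ha' (pow_mem (Subalgebra.algebraMap_mem _ _) _)), ?_⟩
        rw [map_add, map_mul, map_mul, map_pow, map_pow, ← e, ← e']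
        ring
      | mul x y _ _ hx hy =>
        obtain ⟨n, a, ha, e⟩ := hx
        obtain ⟨n', a', ha', e'⟩ := hy
        refine ⟨n + n', a * a', mul_mem ha ha', ?_⟩
        rw [map_mul, ← e, ← e']
        ring
    obtain ⟨n, a, ha, e⟩ := key
    exact ⟨n, ⟨a, ha⟩, Subtype.ext e⟩
  · rintro ⟨a, ha⟩ h
    obtain ⟨n, e⟩ := hl.ker a (congrArg Subtype.val h)
    exact ⟨n, Subtype.ext e⟩

theorem finite_frobSub [Module.Finite R B] [Algebra.Etale R (frobSub q R B)] :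
    Module.Finite R (frobSub q R B) := by
  have : Algebra.IsIntegral R (frobSub q R B) :=
    Algebra.IsIntegral.of_injective (frobSub q R B).val Subtype.val_injective
  exact Algebra.IsIntegral.finite

/-- the Frobenius map into the subalgebra -/
def frobTo (R : Type) {B : Type} [CommRing R] [CommRing B] [Algebra R B] {p : ℕ} (hp : p.Prime)
    (h : (p : B) = 0) (n : ℕ) : B →+* frobSub (p ^ n) R B :=
  (frobq hp h n).codRestrict (frobSub (p ^ n) R B) (fun b => Algebra.subset_adjoin ⟨b, rfl⟩)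

theorem frobTo_algebraMap {p : ℕ} (hp : p.Prime) (h : (p : B) = 0) (n : ℕ) (r : R) :
    frobTo R hp h n (algebraMap R B r) = algebraMap R _ (r ^ p ^ n) :=
  Subtype.ext (map_pow (algebraMap R B) r _).symm

end frob

/-- the output of the algebraic part of the argument -/
structure CoreData {L : Type} [Field L] {A0 A1 A : Type} [CommRing A0] [CommRing A1] [CommRing A]
    {D : Two ℤ A0 A1 A} {B0 B1 B : Type} [CommRing B0] [CommRing B1] [CommRing B]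
    [Algebra (L ⊗[ℤ] A0) B0] [Algebra (L ⊗[ℤ] A1) B1] [Algebra (L ⊗[ℤ] A) B]
    (c : Cov L D B0 B1 B) (xb yb : A →+* L) where
  Ω : Type
  [fΩ : Field Ω]
  ρ : L →+* Ω
  K2 : Type
  [fK2 : Field K2]
  [aΩ : Algebra K2 Ω]
  S0 : Type
  S1 : Type
  S : Type
  [c0 : CommRing S0]
  [c1 : CommRing S1]
  [cS : CommRing S]
  [a0 : Algebra K2 S0]
  [a1 : Algebra K2 S1]
  [aS : Algebra K2 S]
  f0 : S0 →ₐ[K2] S
  f1 : S1 →ₐ[K2] S
  x : S →ₐ[K2] K2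
  y : S →ₐ[K2] K2
  Ψ0 : B0 →+* Ω ⊗[K2] S0
  Ψ1 : B1 →+* Ω ⊗[K2] S1
  Ψ : B →+* Ω ⊗[K2] S
  F : Subfield Ω
  hxy : ∀ (s0 : S0) (s1 : S1), f0 s0 = f1 s1 → x (f0 s0) = y (f0 s0)
  h0 : ∀ b, Ψ (c.g0 b) = Algebra.TensorProduct.map (AlgHom.id K2 Ω) f0 (Ψ0 b)
  h1 : ∀ b, Ψ (c.g1 b) = Algebra.TensorProduct.map (AlgHom.id K2 Ω) f1 (Ψ1 b)
  l0 : ∀ l, Ψ0 (algebraMap (L ⊗[ℤ] A0) B0 (l ⊗ₜ 1)) = ρ l ⊗ₜ 1
  l1 : ∀ l, Ψ1 (algebraMap (L ⊗[ℤ] A1) B1 (l ⊗ₜ 1)) = ρ l ⊗ₜ 1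
  l2 : ∀ l, Ψ (algebraMap (L ⊗[ℤ] A) B (l ⊗ₜ 1)) = ρ l ⊗ₜ 1
  r0 : ∀ a, ∃ s, Ψ0 (algebraMap (L ⊗[ℤ] A0) B0 (1 ⊗ₜ a)) = 1 ⊗ₜ s
  r1 : ∀ a, ∃ s, Ψ1 (algebraMap (L ⊗[ℤ] A1) B1 (1 ⊗ₜ a)) = 1 ⊗ₜ s
  r2 : ∀ a, ∃ s, Ψ (algebraMap (L ⊗[ℤ] A) B (1 ⊗ₜ a)) = 1 ⊗ₜ s
  ex : ∀ a, evalAt Ω x (Ψ (algebraMap (L ⊗[ℤ] A) B (1 ⊗ₜ a))) = ρ (xb a)
  ey : ∀ a, evalAt Ω y (Ψ (algebraMap (L ⊗[ℤ] A) B (1 ⊗ₜ a))) = ρ (yb a)
  F1 : ∀ l, ρ l ∈ F
  F2 : ∀ a, algebraMap K2 Ω a ∈ F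
  F3 : ∀ ω ∈ F, ρ.IsIntegralElem ω → ω ∈ Set.range ρ

variable {L : Type} [Field L] (K2 : Type) [Field K2] [Algebra L K2]

section chart

variable {A B : Type} [CommRing A] [CommRing B] [Algebra (L ⊗[ℤ] A) B] [Algebra L B]
  [IsScalarTower L (L ⊗[ℤ] A) B] {W Ω : Type} [CommRing W] [Algebra K2 W] [CommRing Ω]
  [Algebra K2 Ω] {i : L →+* W} (ι : W →ₐ[K2] Ω) {p : ℕ} (hp : p.Prime) (h : (p : B) = 0) (n : ℕ)
  (ψ : frobSub (p ^ n) (L ⊗[ℤ] A) B →ₐ[L ⊗[ℤ] A] TT K2 A (frobSub (p ^ n) (L ⊗[ℤ] A) B) i)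

/-- the twisted section -/
noncomputable def bigPsi : B →+* Ω ⊗[K2] (K2 ⊗[L] frobSub (p ^ n) (L ⊗[ℤ] A) B) :=
  (TTmap K2 i (ι.toRingHom.comp i) ι comm_id).comp
    (ψ.toRingHom.comp (frobTo (L ⊗[ℤ] A) hp h n))

theorem bigPsi_tmul (l : L) (a : A) : bigPsi K2 ι hp h n ψ (algebraMap (L ⊗[ℤ] A) B (l ⊗ₜ a)) =
    ι (i (l ^ p ^ n)) ⊗ₜ (1 ⊗ₜ algebraMap (L ⊗[ℤ] A) _ (1 ⊗ₜ (a ^ p ^ n))) := by
  change TTmap K2 i (ι.toRingHom.comp i) ι comm_id (ψ (frobTo (L ⊗[ℤ] A) hp h n _)) = _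
  rw [frobTo_algebraMap, AlgHom.commutes, Algebra.TensorProduct.tmul_pow, jj_tmul, map_mul,
    TTmap_algebraMap, TTmap_eIn]
  exact (Algebra.TensorProduct.tmul_mul_tmul _ _ _ _).trans (by rw [mul_one, one_mul]; rfl)

end chart

theorem exists_point_bc [IsAlgClosed K2] {A E S0 S1 : Type} [CommRing A] [CommRing E]
    [Algebra L A] [Algebra A E] [Algebra L E] [IsScalarTower L A E] [Module.Finite A E]
    [Module.Flat A E] [IsDomain (K2 ⊗[L] A)] [CommRing S0] [CommRing S1] [Algebra K2 S0]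
    [Algebra K2 S1] (f0 : S0 →ₐ[K2] K2 ⊗[L] E) (f1 : S1 →ₐ[K2] K2 ⊗[L] E)
    (hint : ∀ (c0 : S0) (c1 : S1), f0 c0 = f1 c1 → IsIntegral K2 (f0 c0))
    (x : K2 ⊗[L] E →ₐ[K2] K2) (y0 : A →ₐ[L] K2) :
    ∃ y : K2 ⊗[L] E →ₐ[K2] K2, (∀ a, y (1 ⊗ₜ algebraMap A E a) = y0 a) ∧
      ∀ s0 s1, f0 s0 = f1 s1 → x (f0 s0) = y (f0 s0) := by
  let m : K2 ⊗[L] A →ₐ[K2] K2 ⊗[L] E :=
    Algebra.TensorProduct.map (AlgHom.id K2 K2) (IsScalarTower.toAlgHom L A E)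
  letI : Algebra (K2 ⊗[L] A) (K2 ⊗[L] E) := m.toRingHom.toAlgebra
  haveI : IsScalarTower K2 (K2 ⊗[L] A) (K2 ⊗[L] E) :=
    IsScalarTower.of_algebraMap_eq (R := K2) (S := K2 ⊗[L] A) (A := K2 ⊗[L] E)
      fun x => (m.commutes x).symm
  haveI : Module.Flat (K2 ⊗[L] A) (K2 ⊗[L] E) :=
    RingHom.Flat.tensorProductMap (f := AlgHom.id K2 K2)
      (g := IsScalarTower.toAlgHom L A E) (RingHom.Flat.id K2)
      (RingHom.flat_algebraMap_iff.2 inferInstance)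
  have hfin : m.toRingHom.Finite :=
    RingHom.Finite.tensorProductMap (f := AlgHom.id L K2) (RingHom.Finite.id K2)
      (g := IsScalarTower.toAlgHom L A E) (RingHom.finite_algebraMap.2 inferInstance)
  haveI : Algebra.IsIntegral (K2 ⊗[L] A) (K2 ⊗[L] E) := ⟨hfin.to_isIntegral⟩
  let y1 : K2 ⊗[L] A →ₐ[K2] K2 :=
    Algebra.TensorProduct.lift (AlgHom.id K2 K2) y0 (fun _ _ => Commute.all _ _)
  obtain ⟨y, hy, hy'⟩ := Pool.Agent.H405Z.Help48.exists_point f0 f1 hint x y1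
  refine ⟨y, fun a => ?_, hy'⟩
  have h1 := hy (1 ⊗ₜ a)
  have h2 : y1 (1 ⊗ₜ a) = y0 a := by simp [y1]
  exact Eq.trans h1 h2

theorem exists_y [IsAlgClosed K2] {A0 A1 A E0 E1 E : Type} [CommRing A0] [CommRing A1]
    [CommRing A] [CommRing E0] [CommRing E1] [CommRing E]
    [Algebra (L ⊗[ℤ] A0) E0] [Algebra L E0] [IsScalarTower L (L ⊗[ℤ] A0) E0]
    [Algebra (L ⊗[ℤ] A1) E1] [Algebra L E1] [IsScalarTower L (L ⊗[ℤ] A1) E1]
    [Algebra (L ⊗[ℤ] A) E] [Algebra L E] [IsScalarTower L (L ⊗[ℤ] A) E]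
    [Module.Finite (L ⊗[ℤ] A0) E0] [Module.Finite (L ⊗[ℤ] A1) E1] [Module.Finite (L ⊗[ℤ] A) E]
    [Module.Flat (L ⊗[ℤ] A) E] {D : Two ℤ A0 A1 A} (c : Cov L D E0 E1 E)
    [IsDomain (K2 ⊗[ℤ] A)] (x : K2 ⊗[L] E →ₐ[K2] K2) (yb : A →+* K2) :
    ∃ y : K2 ⊗[L] E →ₐ[K2] K2, (∀ a, y (1 ⊗ₜ algebraMap (L ⊗[ℤ] A) E (1 ⊗ₜ a)) = yb a) ∧
      ∀ s0 s1, SSmap K2 c.hg0 s0 = SSmap K2 c.hg1 s1 →
        x (SSmap K2 c.hg0 s0) = y (SSmap K2 c.hg0 s0) := by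
  haveI : IsDomain (K2 ⊗[L] (L ⊗[ℤ] A)) :=
    (Algebra.TensorProduct.cancelBaseChange ℤ L K2 K2 A).toMulEquiv.isDomain
  let y0 : L ⊗[ℤ] A →ₐ[L] K2 := ⟨liftR (algebraMap L K2) yb (RingHom.ext_int _ _), fun l => by
    simp [Algebra.TensorProduct.algebraMap_apply]⟩
  obtain ⟨y, hy, hy'⟩ := exists_point_bc K2 (SSmap K2 c.hg0) (SSmap K2 c.hg1)
    (fun c0 c1 h => (Pool.Agent.H647Z.TwoInt.Two.isIntegral (c.twoS K2) c0 c1 h).1.map
      (SSmap K2 c.hg0)) x y0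
  refine ⟨y, fun a => ?_, hy'⟩
  rw [hy]
  simp [y0]

theorem exists_core {A0 A1 A B0 B1 B : Type} [CommRing A0] [CommRing A1]
    [CommRing A] [CommRing B0] [CommRing B1] [CommRing B]
    [Algebra (L ⊗[ℤ] A0) B0] [Algebra L B0] [IsScalarTower L (L ⊗[ℤ] A0) B0]
    [Algebra (L ⊗[ℤ] A1) B1] [Algebra L B1] [IsScalarTower L (L ⊗[ℤ] A1) B1]
    [Algebra (L ⊗[ℤ] A) B] [Algebra L B] [IsScalarTower L (L ⊗[ℤ] A) B]
    [Module.Finite (L ⊗[ℤ] A0) B0] [Module.Finite (L ⊗[ℤ] A1) B1] [Module.Finite (L ⊗[ℤ] A) B]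
    {D : Two ℤ A0 A1 A} (c : Cov L D B0 B1 B) {p : ℕ} (hp : p.Prime) [CharP L p] (n : ℕ)
    [Algebra.Etale (L ⊗[ℤ] A0) (frobSub (p ^ n) (L ⊗[ℤ] A0) B0)]
    [Algebra.Etale (L ⊗[ℤ] A1) (frobSub (p ^ n) (L ⊗[ℤ] A1) B1)]
    [Algebra.Etale (L ⊗[ℤ] A) (frobSub (p ^ n) (L ⊗[ℤ] A) B)]
    {K : Set L} (R : RigData L K)
    (hdom : ∀ (F : Type) [Field F] [CharP F p], IsDomain (F ⊗[ℤ] A))
    (xb yb : A →+* L) (hx : ∀ a, xb a ∈ K) (hy : ∀ a, yb a ∈ K)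
    (hs : ∀ (F : Type) [Field F] [IsAlgClosed F] (α : L ⊗[ℤ] A →+* F),
      ∃ β : B →+* F, β.comp (algebraMap (L ⊗[ℤ] A) B) = α) :
    Nonempty (CoreData c xb yb) := by
  obtain ⟨K2, O, i1, res, hres, hconst, Ω, V, ov, hov, hcl⟩ := R
  have hL : (p : L) = 0 := CharP.cast_eq_zero L p
  have hB0 : (p : B0) = 0 := by rw [← map_natCast (algebraMap L B0), hL, map_zero]
  have hB1 : (p : B1) = 0 := by rw [← map_natCast (algebraMap L B1), hL, map_zero]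
  have hB : (p : B) = 0 := by rw [← map_natCast (algebraMap L B), hL, map_zero]
  have hΩ : (p : Ω) = 0 := by
    rw [← map_natCast (V.subtype.comp (ov.comp i1)), hL, map_zero]
  have := finite_frobSub (R := L ⊗[ℤ] A0) (B := B0) (p ^ n)
  have := finite_frobSub (R := L ⊗[ℤ] A1) (B := B1) (p ^ n)
  have := finite_frobSub (R := L ⊗[ℤ] A) (B := B) (p ^ n)
  have hl0 := isLoc_baseChange L D.f0 D.loc0
  have hl1 := isLoc_baseChange L D.f1 D.loc1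
  rw [map_eq_mapL] at hl0 hl1
  let cE : Cov L D (frobSub (p ^ n) (L ⊗[ℤ] A0) B0) (frobSub (p ^ n) (L ⊗[ℤ] A1) B1)
      (frobSub (p ^ n) (L ⊗[ℤ] A) B) :=
    { g0 := frobMap _ c.hg0
      g1 := frobMap _ c.hg1
      hg0 := frobMap_comm _ c.hg0
      hg1 := frobMap_comm _ c.hg1
      hl0 := isLoc_frobMap _ c.hg0 hl0 c.hl0
      hl1 := isLoc_frobMap _ c.hg1 hl1 c.hl1 }
  letI : Algebra K2 V := (ov.comp (algebraMap K2 O)).toAlgebra
  letI : Algebra K2 Ω := (V.subtype.comp (ov.comp (algebraMap K2 O))).toAlgebra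
  let ov' : O →ₐ[K2] V := ⟨ov, fun _ => rfl⟩
  let ι : V →ₐ[K2] Ω := ⟨V.subtype, fun _ => rfl⟩
  obtain ⟨ψ0, ψ1, ψ, h0, h1⟩ := rigidity K2 cE i1 res hres hp hL V ov' hov
  have : CharP K2 p := charP_of_injective_algebraMap (algebraMap L K2).injective p
  have := hdom K2
  obtain ⟨β, hβ⟩ := hs K2 (liftR (algebraMap L K2) ((algebraMap L K2).comp xb)
    (RingHom.ext_int _ _))
  have hβ' : ∀ (l : L) (a : A), β (algebraMap (L ⊗[ℤ] A) B (l ⊗ₜ a)) =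
      algebraMap L K2 l * algebraMap L K2 (xb a) := fun l a => RingHom.congr_fun hβ (l ⊗ₜ a)
  let β' : frobSub (p ^ n) (L ⊗[ℤ] A) B →ₐ[L] K2 :=
    ⟨β.comp (frobSub (p ^ n) (L ⊗[ℤ] A) B).val.toRingHom, fun l => by
      change β (algebraMap L B l) = _
      rw [IsScalarTower.algebraMap_apply L (L ⊗[ℤ] A) B, Algebra.TensorProduct.algebraMap_apply,
        hβ', map_one, map_one, mul_one]
      rfl⟩
  let x : K2 ⊗[L] frobSub (p ^ n) (L ⊗[ℤ] A) B →ₐ[K2] K2 :=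
    Algebra.TensorProduct.lift (AlgHom.id K2 K2) β' (fun _ _ => Commute.all _ _)
  have hx' : ∀ a, x (1 ⊗ₜ algebraMap (L ⊗[ℤ] A) _ (1 ⊗ₜ a)) = algebraMap L K2 (xb a) := by
    intro a
    change 1 * β (algebraMap (L ⊗[ℤ] A) B (1 ⊗ₜ a)) = _
    rw [hβ', map_one, one_mul, one_mul]
  obtain ⟨y, hy', hxy⟩ := exists_y K2 cE x ((algebraMap L K2).comp yb)
  let ρ : L →+* Ω := (V.subtype.comp (ov.comp i1)).comp (frobq hp hL n)
  have hev : ∀ (z : K2 ⊗[L] frobSub (p ^ n) (L ⊗[ℤ] A) B →ₐ[K2] K2) (zb : A →+* L),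
      (∀ a, zb a ∈ K) →
      (∀ a, z (1 ⊗ₜ algebraMap (L ⊗[ℤ] A) _ (1 ⊗ₜ a)) = algebraMap L K2 (zb a)) → ∀ a,
      evalAt Ω z (bigPsi K2 ι hp hB n ψ (algebraMap (L ⊗[ℤ] A) B (1 ⊗ₜ a))) = ρ (zb a) := by
    intro z zb hz hz' a
    rw [bigPsi_tmul, one_pow, map_one, map_one]
    change 1 * algebraMap K2 Ω (z _) = V.subtype (ov (i1 (zb a ^ p ^ n)))
    rw [hz', one_mul, ← map_pow zb, hconst _ (hz _)]
    rfl
  refine ⟨{
    Ω := Ω
    ρ := ρ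
    K2 := K2
    S0 := K2 ⊗[L] frobSub (p ^ n) (L ⊗[ℤ] A0) B0
    S1 := K2 ⊗[L] frobSub (p ^ n) (L ⊗[ℤ] A1) B1
    S := K2 ⊗[L] frobSub (p ^ n) (L ⊗[ℤ] A) B
    f0 := SSmap K2 cE.hg0
    f1 := SSmap K2 cE.hg1
    x := x
    y := y
    Ψ0 := bigPsi K2 ι hp hB0 n ψ0
    Ψ1 := bigPsi K2 ι hp hB1 n ψ1
    Ψ := bigPsi K2 ι hp hB n ψ
    F := (Subfield.closure (Set.range fun o : O => (ov o : Ω))).map (frobq hp hΩ n)
    hxy := hxy
    h0 := ?_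
    h1 := ?_
    l0 := fun l => by rw [bigPsi_tmul, one_pow, ← Algebra.TensorProduct.one_def, map_one]; rfl
    l1 := fun l => by rw [bigPsi_tmul, one_pow, ← Algebra.TensorProduct.one_def, map_one]; rfl
    l2 := fun l => by rw [bigPsi_tmul, one_pow, ← Algebra.TensorProduct.one_def, map_one]; rfl
    r0 := fun a => ⟨_, by rw [bigPsi_tmul, one_pow, map_one, map_one]⟩
    r1 := fun a => ⟨_, by rw [bigPsi_tmul, one_pow, map_one, map_one]⟩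
    r2 := fun a => ⟨_, by rw [bigPsi_tmul, one_pow, map_one, map_one]⟩
    ex := hev x xb hx hx'
    ey := hev y yb hy hy'
    F1 := ?_
    F2 := ?_
    F3 := ?_ }⟩
  · intro b
    have e1 : frobTo (L ⊗[ℤ] A) hp hB n (c.g0 b) = cE.g0 (frobTo (L ⊗[ℤ] A0) hp hB0 n b) :=
      Subtype.ext (map_pow c.g0 b _).symm
    have e2 : (TTmap K2 (ov'.toRingHom.comp i1) (ι.toRingHom.comp (ov'.toRingHom.comp i1)) ι comm_id).comp
        (TTmap K2 (ov'.toRingHom.comp i1) (ov'.toRingHom.comp i1) (AlgHom.id K2 V) cE.hg0) =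
        (TTmap K2 _ (ι.toRingHom.comp (ov'.toRingHom.comp i1)) (AlgHom.id K2 Ω) cE.hg0).comp
          (TTmap K2 (ov'.toRingHom.comp i1)
          (ι.toRingHom.comp (ov'.toRingHom.comp i1)) ι comm_id) := by
      apply TT_ext <;> intro x <;> simp
    change TTmap K2 _ (ι.toRingHom.comp (ov'.toRingHom.comp i1)) ι comm_id (ψ (frobTo (L ⊗[ℤ] A) hp hB n (c.g0 b))) = _
    rw [e1, h0]
    exact RingHom.congr_fun e2 _
  · intro b
    have e1 : frobTo (L ⊗[ℤ] A) hp hB n (c.g1 b) = cE.g1 (frobTo (L ⊗[ℤ] A1) hp hB1 n b) :=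
      Subtype.ext (map_pow c.g1 b _).symm
    have e2 : (TTmap K2 (ov'.toRingHom.comp i1) (ι.toRingHom.comp (ov'.toRingHom.comp i1)) ι comm_id).comp
        (TTmap K2 (ov'.toRingHom.comp i1) (ov'.toRingHom.comp i1) (AlgHom.id K2 V) cE.hg1) =
        (TTmap K2 _ (ι.toRingHom.comp (ov'.toRingHom.comp i1)) (AlgHom.id K2 Ω) cE.hg1).comp
          (TTmap K2 (ov'.toRingHom.comp i1)
          (ι.toRingHom.comp (ov'.toRingHom.comp i1)) ι comm_id) := by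
      apply TT_ext <;> intro x <;> simp
    change TTmap K2 _ (ι.toRingHom.comp (ov'.toRingHom.comp i1)) ι comm_id (ψ (frobTo (L ⊗[ℤ] A) hp hB n (c.g1 b))) = _
    rw [e1, h1]
    exact RingHom.congr_fun e2 _
  · intro l
    refine ⟨ov (i1 l), Subfield.subset_closure ⟨_, rfl⟩, ?_⟩
    exact (map_pow (V.subtype.comp (ov.comp i1)) l _).symm
  · intro a
    obtain ⟨r, rfl⟩ := IsAlgClosed.exists_pow_nat_eq a (pow_pos hp.pos n)
    exact ⟨ov (algebraMap K2 O r), Subfield.subset_closure ⟨_, rfl⟩,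
      (map_pow (algebraMap K2 Ω) r _).symm⟩
  · rintro _ ⟨w, hw, rfl⟩ ⟨P, hP, hP'⟩
    letI : Algebra L Ω := (V.subtype.comp (ov.comp i1)).toAlgebra
    have h3 : IsIntegral L (w ^ p ^ n) :=
      ⟨P.map (frobq hp hL n), hP.map _, by rw [eval₂_map]; exact hP'⟩
    obtain ⟨l, rfl⟩ := hcl w hw (IsIntegral.of_pow (pow_pos hp.pos n) h3)
    exact ⟨l, map_pow (V.subtype.comp (ov.comp i1)) l _⟩

end Pool.Agent.H191Z.Rig
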