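import Pool.Agent.H191Z.GAff

set_option autoImplicit false

open TensorProduct

namespace Pool.Agent.H191Z.Rig

/-- `f` is the localization away from `u` -/
structure IsLoc {M0 M : Type} [CommRing M0] [CommRing M] (f : M0 →+* M) (u : M0) : Prop where
  unit : IsUnit (f u)
  sur : ∀ m : M, ∃ (n : ℕ) (a : M0), m * f u ^ n = f a
  ker : ∀ a : M0, f a = 0 → ∃ n : ℕ, u ^ n * a = 0

/-- two affine charts `M0`, `M1` with overlap `M` of a scheme finite over the projective line -/
structure Two (R M0 M1 M : Type) [CommRing R] [CommRing M0] [CommRing M1] [CommRing M]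
    [Algebra R M0] [Algebra R M1] [Algebra R M] where
  f0 : M0 →ₐ[R] M
  f1 : M1 →ₐ[R] M
  u : M0
  v : M1
  huv : f0 u * f1 v = 1
  loc0 : IsLoc f0.toRingHom u
  loc1 : IsLoc f1.toRingHom v
  fin0 : (Polynomial.aeval u : Polynomial R →ₐ[R] M0).Finite
  fin1 : (Polynomial.aeval v : Polynomial R →ₐ[R] M1).Finite

/-- the subalgebra generated by the `q`-th powers -/
def frobSub (q : ℕ) (R B : Type) [CommRing R] [CommRing B] [Algebra R B] : Subalgebra R B :=
  Algebra.adjoin R (Set.range fun b : B => b ^ q)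

/-- evaluation at a rational point -/
noncomputable def evalAt {K S : Type} [Field K] [CommRing S] [Algebra K S] (W : Type)
    [CommRing W] [Algebra K W] (x : S →ₐ[K] K) : W ⊗[K] S →ₐ[K] W :=
  Algebra.TensorProduct.lift (AlgHom.id K W) ((Algebra.ofId K W).comp x)
    (fun _ _ => Commute.all _ _)

/-- a generic specialisation of the field `L` with set of constants `K` -/
structure RigData (L : Type) [Field L] (K : Set L) where
  K2 : Type
  [fK2 : Field K2]
  [acK2 : IsAlgClosed K2]
  [aK2 : Algebra L K2]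
  O : Type
  [cO : CommRing O]
  [nO : IsNoetherianRing O]
  [aO : Algebra K2 O]
  i1 : L →+* O
  res : O →ₐ[K2] K2
  res_i1 : ∀ l : L, res (i1 l) = algebraMap L K2 l
  const : ∀ l ∈ K, i1 l = algebraMap K2 O (algebraMap L K2 l)
  Ω : Type
  [fΩ : Field Ω]
  [acΩ : IsAlgClosed Ω]
  V : ValuationSubring Ω
  ov : O →+* V
  ov_ker : ∀ o : O, res o = 0 → ov o ∈ IsLocalRing.maximalIdeal V
  closed : ∀ w ∈ Subfield.closure (Set.range fun o : O => (ov o : Ω)),
    (V.subtype.comp (ov.comp i1)).IsIntegralElem w → ∃ l : L, (ov (i1 l) : Ω) = w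

end Pool.Agent.H191Z.Rig
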