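import Pool.Agent.H191Z.RLoc

set_option autoImplicit false
set_option linter.style.haveILetI false

open TensorProduct Polynomial

namespace Pool.Agent.H191Z.Rig

section

variable {A E F : Type} [CommRing A] [CommRing E] [CommRing F] [Algebra A E] [Algebra A F]

/-- the retraction given by a point -/
noncomputable def mu (φ : E →ₐ[A] F) : F ⊗[A] E →+* F :=
  liftR (RingHom.id F) φ.toRingHom (by ext a; simp)

@[simp] theorem mu_tmul (φ : E →ₐ[A] F) (f : F) (x : E) : mu φ (f ⊗ₜ x) = f * φ x := rfl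

/-- `t` cuts out the graph of `φ` -/
structure IsDiag (φ : E →ₐ[A] F) (t : F ⊗[A] E) : Prop where
  mul : ∀ x : E, t * (1 ⊗ₜ x) = t * (φ x ⊗ₜ 1)
  one : mu φ t = 1

theorem IsDiag.mul_eq {φ : E →ₐ[A] F} {t : F ⊗[A] E} (h : IsDiag φ t) (z : F ⊗[A] E) :
    t * z = t * (mu φ z ⊗ₜ 1) := by
  induction z using TensorProduct.induction_on with
  | zero => simp
  | tmul f x =>
    have : f ⊗ₜ[A] x = (1 ⊗ₜ x) * (f ⊗ₜ 1) := by simp
    rw [this, ← mul_assoc, h.mul, mul_assoc]
    simp [mul_comm]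
  | add x y hx hy => rw [mul_add, hx, hy, map_add, add_tmul, mul_add]

theorem IsDiag.unique {φ : E →ₐ[A] F} {t t' : F ⊗[A] E} (h : IsDiag φ t) (h' : IsDiag φ t') :
    t = t' := by
  have h1 := h.mul_eq t'
  have h2 := h'.mul_eq t
  rw [h'.one, ← Algebra.TensorProduct.one_def, mul_one] at h1
  rw [h.one, ← Algebra.TensorProduct.one_def, mul_one] at h2
  rw [← h1, mul_comm, h2]

theorem IsDiag.idem {φ : E →ₐ[A] F} {t : F ⊗[A] E} (h : IsDiag φ t) : IsIdempotentElem t := by
  have h1 := h.mul_eq t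
  rwa [h.one, ← Algebra.TensorProduct.one_def, mul_one] at h1

theorem exists_isDiag [Algebra.Etale A E] (φ : E →ₐ[A] F) : ∃ t, IsDiag φ t := by
  refine ⟨Algebra.TensorProduct.map φ (AlgHom.id A E) (Algebra.FormallyUnramified.elem A E),
    fun x => ?_, ?_⟩
  · have := congrArg (Algebra.TensorProduct.map φ (AlgHom.id A E))
      (Algebra.FormallyUnramified.one_tmul_mul_elem (R := A) x)
    simpa [mul_comm] using this
  · have h1 : (mu φ).comp (Algebra.TensorProduct.map φ (AlgHom.id A E)).toRingHom =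
        φ.toRingHom.comp (Algebra.TensorProduct.lmul' A).toRingHom := by
      apply tensor_ringHom_ext <;> intro x <;> simp
    have := RingHom.congr_fun h1 (Algebra.FormallyUnramified.elem A E)
    simpa [Algebra.FormallyUnramified.lmul_elem] using this

end

section transfer

variable {A0 E0 F0 A E F : Type} [CommRing A0] [CommRing E0] [CommRing F0] [Algebra A0 E0]
  [Algebra A0 F0] [CommRing A] [CommRing E] [CommRing F] [Algebra A E] [Algebra A F]
  {fA : A0 →+* A} {fF : F0 →+* F} {fE : E0 →+* E}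
  (HF : fF.comp (algebraMap _ _) = (algebraMap _ _).comp fA)
  (HE : fE.comp (algebraMap _ _) = (algebraMap _ _).comp fA)

theorem IsDiag.map {a : A0} (hE : IsLoc fE (algebraMap A0 E0 a)) {φ0 : E0 →ₐ[A0] F0}
    {φ : E →ₐ[A] F} (hφ : ∀ x, φ (fE x) = fF (φ0 x)) {t : F0 ⊗[A0] E0} (h : IsDiag φ0 t) :
    IsDiag φ (Algebra.TensorProduct.mapRingHom fA fF fE HF HE t) := by
  refine ⟨fun x => ?_, ?_⟩
  · obtain ⟨n, y, hy⟩ := hE.sur x
    have h1 := congrArg (Algebra.TensorProduct.mapRingHom fA fF fE HF HE) (h.mul y)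
    simp only [map_mul, Algebra.TensorProduct.mapRingHom_tmul, map_one, ← hφ, ← hy] at h1
    have e : fE (algebraMap A0 E0 a) = algebraMap A E (fA a) := RingHom.congr_fun HE a
    have hu : IsUnit ((1 : F) ⊗ₜ[A] (fE (algebraMap A0 E0 a) ^ n)) :=
      (hE.unit.pow n).map (Algebra.TensorProduct.includeRight : E →ₐ[A] F ⊗[A] E)
    apply hu.mul_right_cancel
    rw [mul_assoc, mul_assoc, Algebra.TensorProduct.tmul_mul_tmul, one_mul, h1,
      Algebra.TensorProduct.tmul_mul_tmul, mul_one, one_mul, e, ← map_pow, AlgHom.commutes]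
    congr 1
    rw [Algebra.algebraMap_eq_smul_one (A := E), tmul_smul, smul_tmul', Algebra.smul_def, mul_comm]
  · have h1 : (mu φ).comp (Algebra.TensorProduct.mapRingHom fA fF fE HF HE) =
        fF.comp (mu φ0) := by
      apply tensor_ringHom_ext <;> intro x <;> simp [hφ]
    have := RingHom.congr_fun h1 t
    simpa [h.one] using this

theorem IsDiag.compat {φ0 : E0 →ₐ[A0] F0} {φ : E →ₐ[A] F} {t : F0 ⊗[A0] E0} (h : IsDiag φ0 t)
    (h' : IsDiag φ (Algebra.TensorProduct.mapRingHom fA fF fE HF HE t)) (x : E0) :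
    φ (fE x) = fF (φ0 x) := by
  have h1 := congrArg (fun z => mu φ (Algebra.TensorProduct.mapRingHom fA fF fE HF HE z)) (h.mul x)
  simpa [h'.one] using h1

end transfer

section sec

variable {A E T : Type} [CommRing A] [CommRing E] [CommRing T] [Algebra A E] [Algebra A T]

/-- base change on the left factor -/
noncomputable def mapT (F : Type) [CommRing F] [Algebra T F] [Algebra A F] [IsScalarTower A T F] :
    T ⊗[A] E →+* F ⊗[A] E :=
  (Algebra.TensorProduct.map (IsScalarTower.toAlgHom A T F) (AlgHom.id A E)).toRingHom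

theorem mapT_tmul (F : Type) [CommRing F] [Algebra T F] [Algebra A F] [IsScalarTower A T F]
    (t : T) (x : E) : mapT F (t ⊗ₜ[A] x) = algebraMap T F t ⊗ₜ x := rfl

theorem finrank_one {Z : Type} [CommRing Z] [Algebra T Z] (e : T ⊗[A] E)
    (q : T ⊗[A] E →ₐ[T] Z) (hq : Function.Surjective q) (hq1 : q e = 1)
    (hker : ∀ z, q z = 0 → ∃ c, c * (1 - e) = z)
    (F : Type) [Field F] [Algebra T F] [Algebra A F] [IsScalarTower A T F] (φ : E →ₐ[A] F)
    (hφ : IsDiag φ
      (Algebra.TensorProduct.map (IsScalarTower.toAlgHom A T F) (AlgHom.id A E) e)) :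
    Module.finrank F (F ⊗[T] Z) = 1 := by
  let m := Algebra.TensorProduct.map (IsScalarTower.toAlgHom A T F) (AlgHom.id A E)
  let ν : Z →+* F := q.toRingHom.liftOfSurjective hq ⟨(mu φ).comp m.toRingHom, by
    intro z hz
    obtain ⟨c, rfl⟩ := hker z hz
    have : mu φ (m e) = 1 := hφ.one
    simp [RingHom.mem_ker, this]⟩
  have hν0 : ∀ z, ν (q z) = mu φ (m z) := fun z => RingHom.liftOfSurjective_comp_apply _ _ _ z
  have hν : ∀ x : T, ν (algebraMap T Z x) = algebraMap T F x := by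
    intro x
    rw [← q.commutes, hν0]
    simp [m]
  let ν' : F ⊗[T] Z →+* F := liftR (RingHom.id F) ν (by ext x; simp [hν])
  let θ1 : F →+* F ⊗[T] Z := Algebra.TensorProduct.includeLeftRingHom
  let θ2 : E →+* F ⊗[T] Z :=
    (Algebra.TensorProduct.includeRight : Z →ₐ[T] F ⊗[T] Z).toRingHom.comp
      (q.toRingHom.comp (Algebra.TensorProduct.includeRight : E →ₐ[A] T ⊗[A] E).toRingHom)
  have hθ0 : θ1.comp (algebraMap A F) = θ2.comp (algebraMap A E) := by
    ext a
    change algebraMap A F a ⊗ₜ[T] (1 : Z) = 1 ⊗ₜ q (1 ⊗ₜ algebraMap A E a)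
    rw [IsScalarTower.algebraMap_apply A T F, Algebra.TensorProduct.tmul_one_eq_one_tmul,
      ← Algebra.TensorProduct.tmul_one_eq_one_tmul (R := A), ← q.commutes]
    rfl
  let θ : F ⊗[A] E →+* F ⊗[T] Z := liftR (N := F ⊗[T] Z) θ1 θ2 hθ0
  have hθt : ∀ (f : F) (x : E), θ (f ⊗ₜ x) = f ⊗ₜ q (1 ⊗ₜ x) := by
    intro f x
    change (f ⊗ₜ[T] (1 : Z)) * (1 ⊗ₜ q (1 ⊗ₜ x)) = _
    rw [Algebra.TensorProduct.tmul_mul_tmul, mul_one, one_mul]
  have hθ : θ.comp m.toRingHom =
      (Algebra.TensorProduct.includeRight : Z →ₐ[T] F ⊗[T] Z).toRingHom.comp q.toRingHom := by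
    apply tensor_ringHom_ext (N := F ⊗[T] Z)
    · intro x
      change θ (algebraMap T F x ⊗ₜ 1) = 1 ⊗ₜ q (algebraMap T _ x)
      rw [q.commutes, ← Algebra.TensorProduct.tmul_one_eq_one_tmul, hθt,
        ← Algebra.TensorProduct.one_def, map_one]
    · intro x
      change θ (algebraMap T F 1 ⊗ₜ x) = _
      rw [hθt, map_one]
      rfl
  have hθ' : ∀ z, θ (m z) = 1 ⊗ₜ q z := fun z => RingHom.congr_fun hθ z
  have hθe : θ (m e) = 1 := by rw [hθ', hq1]; rfl
  have hbij : Function.Bijective (Algebra.linearMap F (F ⊗[T] Z)) := by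
    constructor
    · intro x y hxy
      have := congrArg ν' hxy
      simpa [ν'] using this
    · intro w
      induction w using TensorProduct.induction_on with
      | zero => exact ⟨0, by simp⟩
      | add x y hx hy =>
        obtain ⟨a, rfl⟩ := hx
        obtain ⟨b, rfl⟩ := hy
        exact ⟨a + b, by simp only [map_add]⟩
      | tmul f z =>
        obtain ⟨z, rfl⟩ := hq z
        have h5 := congrArg θ (hφ.mul_eq (m z))
        rw [map_mul, map_mul] at h5
        change θ (m e) * _ = θ (m e) * _ at h5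
        rw [hθe, one_mul, one_mul, hθ'] at h5
        refine ⟨f * mu φ (m z), ?_⟩
        have : f ⊗ₜ[T] q z = (f ⊗ₜ[T] (1 : Z)) * (1 ⊗ₜ q z) := by simp
        rw [this, h5, hθt, Algebra.TensorProduct.tmul_mul_tmul, one_mul,
          ← Algebra.TensorProduct.one_def, map_one]
        rfl
  rw [← (LinearEquiv.ofBijective (Algebra.linearMap F (F ⊗[T] Z)) hbij).finrank_eq,
    Module.finrank_self]

theorem isDiag_of_bijective {Z : Type} [CommRing Z] [Algebra T Z] (e : T ⊗[A] E)
    (he : IsIdempotentElem e) (q : T ⊗[A] E →ₐ[T] Z) (hq1 : q e = 1)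
    (hker : ∀ z, q z = 0 → ∃ c, c * (1 - e) = z) (hb : Function.Bijective (algebraMap T Z)) :
    ∃ ψ : E →ₐ[A] T, IsDiag ψ e := by
  let ε : T ≃+* Z := RingEquiv.ofBijective (algebraMap T Z) hb
  have hε : ∀ x, ε x = q (x ⊗ₜ 1) := fun x => (q.commutes x).symm
  let ψ : E →ₐ[A] T :=
    { toRingHom := ε.symm.toRingHom.comp (q.toRingHom.comp
          (Algebra.TensorProduct.includeRight : E →ₐ[A] T ⊗[A] E).toRingHom)
      commutes' := fun a => by
        apply ε.injective
        change ε (ε.symm (q (1 ⊗ₜ algebraMap A E a))) = _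
        rw [ε.apply_symm_apply, ← Algebra.TensorProduct.tmul_one_eq_one_tmul, hε] }
  have hψ : ∀ x, ε (ψ x) = q (1 ⊗ₜ x) := fun x => ε.apply_symm_apply _
  refine ⟨ψ, fun x => ?_, ?_⟩
  · have h5 := hψ x
    rw [hε, ← sub_eq_zero, ← map_sub] at h5
    obtain ⟨c, hc⟩ := hker _ h5
    have h6 : e * (c * (1 - e)) = 0 := by
      rw [mul_left_comm, he.mul_one_sub_self, mul_zero]
    rw [hc, mul_sub, sub_eq_zero] at h6
    exact h6.symm
  · have h5 : ε.toRingHom.comp (mu ψ) = q.toRingHom := by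
      apply tensor_ringHom_ext
      · intro x
        simp [hε]
      · intro x
        simp [hψ]
    apply ε.injective
    rw [map_one, ← hq1]
    exact RingHom.congr_fun h5 e

theorem exists_section [Algebra.Etale A E] [Module.Finite A E] (e : T ⊗[A] E)
    (he : IsIdempotentElem e) (P : Set T)
    (hRK : ∀ (Z : Type) [CommRing Z] [Algebra T Z] [Module.Flat T Z]
      [Module.FinitePresentation T Z], (∀ (F : Type) [Field F] [Algebra T F],
        (∀ x ∈ P, algebraMap T F x = 0) → Module.finrank F (F ⊗[T] Z) = 1) →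
      Function.Bijective (algebraMap T Z))
    (hF : ∀ (F : Type) [Field F] [Algebra T F] [Algebra A F] [IsScalarTower A T F],
      (∀ x ∈ P, algebraMap T F x = 0) → ∃ φ : E →ₐ[A] F, IsDiag φ (mapT F e)) :
    ∃ ψ : E →ₐ[A] T, IsDiag ψ e := by
  let Z := (T ⊗[A] E) ⧸ Ideal.span {1 - e}
  have hl : IsLocalization.Away e Z :=
    IsLocalization.away_of_isIdempotentElem he Ideal.mk_ker Ideal.Quotient.mk_surjective
  have h1 : Algebra.Etale (T ⊗[A] E) Z := Algebra.Etale.of_isLocalizationAway e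
  have h2 : Algebra.Etale T Z := Algebra.Etale.comp T (T ⊗[A] E) Z
  have h3 : Module.Finite T Z := Module.Finite.trans (T ⊗[A] E) Z
  have h4 : Module.FinitePresentation T Z :=
    Module.FinitePresentation.of_finite_of_finitePresentation T Z
  let q : T ⊗[A] E →ₐ[T] Z := Ideal.Quotient.mkₐ T _
  have hq : Function.Surjective q := Ideal.Quotient.mk_surjective
  have hker : ∀ z, q z = 0 → ∃ c, c * (1 - e) = z := fun z hz =>
    Ideal.mem_span_singleton'.1 (Ideal.Quotient.eq_zero_iff_mem.1 hz)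
  have hq1 : q e = 1 := by
    rw [eq_comm, ← sub_eq_zero, ← map_one q, ← map_sub]
    exact Ideal.Quotient.eq_zero_iff_mem.2 (Ideal.subset_span rfl)
  refine isDiag_of_bijective e he q hq1 hker (hRK Z (fun F _ _ hP => ?_))
  letI : Algebra A F := ((algebraMap T F).comp (algebraMap A T)).toAlgebra
  haveI : IsScalarTower A T F := IsScalarTower.of_algebraMap_eq' rfl
  obtain ⟨φ, hφ⟩ := hF F hP
  exact finrank_one e q hq hq1 hker F φ hφ

end sec

end Pool.Agent.H191Z.Rig
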