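import Pool.Agent.H191Z.GMain
import Pool.Agent.H191Z.RAlg

set_option autoImplicit false
set_option backward.isDefEq.respectTransparency false
set_option linter.style.haveILetI false

universe w w' u v u₀ v₀

open CategoryTheory AlgebraicGeometry TensorProduct Limits

namespace Pool.Agent.H191Z.Rig

open Pool.Agent.H191Z.Gerbe

variable {k L : Type} [Field k] [Field L] [Algebra k L] (σ : L ≃ₐ[k] L)

theorem tlift_sig {A : Type} [CommRing A] [Algebra k A] (ι : L →ₐ[k] A)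
    (n : ℤ) : tlift (𝟙 (SpO k A)) (SpM ι ≫ SpM (σ ^ n).toAlgHom) = SpM (theta σ ι n) := by
  apply tensor_ext
  · rw [tlift_fst, ← SpM_comp, ← SpM_id]
    congr 1
    ext x
    simp
  · rw [tlift_snd, ← SpM_comp, ← SpM_comp]
    congr 1
    ext x
    simp

theorem tlift_sig' (n : ℤ) :
    tlift (𝟙 (SpO k (L))) (SpM (σ ^ n).toAlgHom) =
      SpM (theta σ (AlgHom.id k _) n) := by
  rw [← tlift_sig, SpM_id, Category.id_comp]

theorem dens_aux (hfix : HFix σ) {A : Type} [CommRing A] [Algebra k A] (ι : L →ₐ[k] A)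
    {R : Sch k} (hR : IsFinite R.hom) (m m' : SpO k (A ⊗[k] L) ⟶ R)
    (h : ∀ n, SpM (theta σ ι n) ≫ m = SpM (theta σ ι n) ≫ m') : m = m' := by
  obtain ⟨B, _, _, -, ⟨e⟩⟩ := exists_finite R hR
  rw [← cancel_mono e.hom]
  obtain ⟨μ, hμ⟩ := SpM_surjective (m ≫ e.hom)
  obtain ⟨μ', hμ'⟩ := SpM_surjective (m' ≫ e.hom)
  rw [← hμ, ← hμ']
  congr 1
  ext b
  rw [← sub_eq_zero]
  apply theta_inj σ hfix ι
  intro n
  have h1 : (theta σ ι n).comp μ = (theta σ ι n).comp μ' := by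
    apply SpM_injective
    rw [SpM_comp, SpM_comp, hμ, hμ', ← Category.assoc, h n, Category.assoc]
  rw [map_sub, sub_eq_zero]
  exact congrArg (fun f => f b) h1

/-- the geometric data for a finite field -/
noncomputable def frobData (hfix : HFix σ) (horb : HOrb σ) :
    FrobData (fpqc k) (fun R : Sch k => IsFinite R.hom) where
  pt := pt k
  K := SpO k (L)
  W := SpO k (L ⊗[k] L)
  W3 := SpO k ((L ⊗[k] L) ⊗[k] L)
  π := toPt _
  term := pt_term
  cover := toPt_mem_fpqc _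
  Fr n := SpM (σ ^ n).toAlgHom
  Fr_zero := by
    rw [← SpM_id]
    rfl
  Fr_add m n := by
    rw [← SpM_comp, zpow_add]
    rfl
  p1 := SpM Algebra.TensorProduct.includeLeft
  p2 := SpM Algebra.TensorProduct.includeRight
  lift := tlift
  lift_p1 := tlift_fst
  lift_p2 := tlift_snd
  W_ext := tensor_ext
  q1 := SpM Algebra.TensorProduct.includeLeft ≫ SpM Algebra.TensorProduct.includeLeft
  q2 := SpM Algebra.TensorProduct.includeLeft ≫ SpM Algebra.TensorProduct.includeRight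
  q3 := SpM Algebra.TensorProduct.includeRight
  lift3 f g h := tlift (tlift f g) h
  lift3_q1 f g h := by rw [← Category.assoc, tlift_fst, tlift_fst]
  lift3_q2 f g h := by rw [← Category.assoc, tlift_fst, tlift_snd]
  lift3_q3 f g h := tlift_snd _ _
  dens hR m m' h := dens_aux σ hfix (AlgHom.id k _) hR m m' (fun n => by
    rw [← tlift_sig']
    exact h n)
  dens3 hR m m' h := by
    refine dens_aux σ hfix Algebra.TensorProduct.includeLeft hR m m' (fun n' => ?_)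
    refine dens_aux σ hfix (AlgHom.id k _) hR _ _ (fun n => ?_)
    have key : SpM (theta σ (AlgHom.id k _) n) ≫ SpM (theta σ Algebra.TensorProduct.includeLeft n') =
        tlift (tlift (𝟙 (SpO k (L))) (SpM (σ ^ n).toAlgHom))
          (SpM (σ ^ n').toAlgHom) := by
      apply tensor_ext
      · rw [tlift_fst, tlift_sig', ← SpM_comp, ← SpM_comp]
        congr 1
        ext x <;> simp [Algebra.TensorProduct.one_def]
      · rw [tlift_snd, ← SpM_comp, ← SpM_comp]
        congr 1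
        ext x
        simp [Algebra.TensorProduct.one_def]
    rw [← Category.assoc, ← Category.assoc, key]
    exact h n n'
  interp := by
    intro R hR r N hN hr
    obtain ⟨B, _, _, -, ⟨e⟩⟩ := exists_finite R hR
    choose r' hr' using fun n => SpM_surjective (r n ≫ e.hom)
    obtain ⟨ρ, hρ⟩ := exists_interp_algHom σ hfix horb N hN r' (fun n => SpM_injective (by
      rw [hr', hr', hr]))
    refine ⟨SpM ρ ≫ e.inv, fun n => ?_⟩
    rw [tlift_sig', ← Category.assoc, ← SpM_comp, hρ, hr', Category.assoc, e.hom_inv_id,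
      Category.comp_id]
  finite := by
    intro R hR
    obtain ⟨B, _, _, hB, ⟨e⟩⟩ := exists_finite R hR
    have : Finite (B →ₐ[k] L) := inferInstance
    refine Finite.of_surjective (fun f : B →ₐ[k] L => SpM f ≫ e.inv) ?_
    intro m
    obtain ⟨f, hf⟩ := SpM_surjective (m ≫ e.hom)
    exact ⟨f, by simp [hf]⟩

/-- the projective limit of finite gerbes has an object over the point -/
theorem lim_neutral' {C : Type u₀} [Category.{v₀} C] {J : GrothendieckTopology C}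
    {Fn : C → Prop} (D : FrobData J Fn) {I : Type w} [Category.{w'} I] [IsCofiltered I]
    (Γ : ProjSystem.{w, w', v} I C) (hst : ∀ i, (Γ.obj i).IsStack J)
    (ch : ∀ i, Chart Fn (Γ.obj i))
    (ξ : Γ.LimObj D.K)
    (hA : ∀ i, Nonempty ((Γ.obj i).Hom (ξ.ξ i) (ch i).u))
    (hB : ∀ i, ∃ φ : (Γ.obj i).Hom (ξ.ξ i) (ξ.ξ i), (Γ.obj i).base φ = D.Fr 1) :
    Nonempty (Γ.LimObj D.pt) := by
  have hF := fun i => (hst i).fibered
  -- lifts of Frobenius
  have htr : ∀ {j i : I} (a : j ⟶ i)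
      (φ : {φ : (Γ.obj j).Hom (ξ.ξ j) (ξ.ξ j) // (Γ.obj j).base φ = D.Fr 1}),
      ∃ ψ : {φ : (Γ.obj i).Hom (ξ.ξ i) (ξ.ξ i) // (Γ.obj i).base φ = D.Fr 1},
        (Γ.obj i).comp (ξ.τ a) ψ.1 = (Γ.obj i).comp ((Γ.map a).map φ.1) (ξ.τ a) := by
    intro j i a φ
    obtain ⟨σ, h0, h1, h2⟩ := (hF i).exists_vinv (ξ.τ a) (ξ.base_τ a)
    refine ⟨⟨(Γ.obj i).comp σ ((Γ.obj i).comp ((Γ.map a).map φ.1) (ξ.τ a)), ?_⟩, ?_⟩
    · simp [h0, φ.2, ξ.base_τ]
    · rw [← CatOver.assoc, h2, CatOver.id_comp]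
  choose tr htr using @htr
  let G : I ⥤ Type v :=
    { obj := fun i => {φ : (Γ.obj i).Hom (ξ.ξ i) (ξ.ξ i) // (Γ.obj i).base φ = D.Fr 1}
      map := fun a => ↾(tr a)
      map_id := fun i => by
        ext φ
        apply (hF i).cancel_vert (ξ.τ (𝟙 i)) (ξ.base_τ _)
        change (Γ.obj i).comp (ξ.τ (𝟙 i)) (tr (𝟙 i) φ).1 = (Γ.obj i).comp (ξ.τ (𝟙 i)) φ.1
        rw [htr, ξ.τ_id', Γ.un_nat]
      map_comp := fun {k j i} a b => by
        ext φ
        apply (hF i).cancel_vert (ξ.τ (a ≫ b)) (ξ.base_τ _)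
        change (Γ.obj i).comp (ξ.τ (a ≫ b)) (tr (a ≫ b) φ).1 =
          (Γ.obj i).comp (ξ.τ (a ≫ b)) (tr b (tr a φ)).1
        rw [htr, ξ.τ_comp' a b _ rfl, ← CatOver.assoc, Γ.cp_nat]
        simp only [CatOver.assoc]
        rw [htr, ← CatOver.assoc _ ((Γ.map b).map (ξ.τ a)), ← Mor.map_comp, htr, Mor.map_comp,
          CatOver.assoc] }
  have hfin : ∀ i, Finite (G.obj i) := fun i =>
    (ch i).finite_over D (hF i) _ _ (hA i).some _
  have hne : ∀ i, Nonempty (G.obj i) := by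
    intro i
    obtain ⟨e, he⟩ := hB i
    exact ⟨⟨e, he⟩⟩
  obtain ⟨φ, hφ⟩ := nonempty_sections_of_finite_cofiltered_system G
  have hφ' : ∀ {j i : I} (a : j ⟶ i), (Γ.obj i).comp (ξ.τ a) (φ i).1 =
      (Γ.obj i).comp ((Γ.map a).map (φ j).1) (ξ.τ a) := by
    intro j i a
    have : tr a (φ j) = φ i := hφ a
    rw [← this, htr]
  choose η c hc using fun i => frob_descend D (hst i) (ch i) (ξ.ξ i) (hA i).some (φ i).1 (φ i).2
  have hψ : ∀ {j i : I} (a : j ⟶ i), ∃ ψ : (Γ.obj i).Hom ((Γ.map a).obj (η j)) (η i),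
      (Γ.obj i).base ψ = 𝟙 _ ∧
      (Γ.obj i).comp ((Γ.map a).map (c j)) ψ = (Γ.obj i).comp (ξ.τ a) (c i) := by
    intro j i a
    refine (hst i).descend_hom D.cover _ (D.term _ _) _ (D.term _ _) ?_
    intro V z b₁ b₂ e
    refine same_datum D (hF i) (ch i) _ ((Γ.obj i).comp (ξ.τ a) (hA i).some) ((Γ.map a).map (φ j).1)
      (by simp [(φ j).2]) _ _ ?_ ?_ b₁ b₂ e
    · rw [← Mor.map_comp, hc]
    · rw [← CatOver.assoc, ← hφ', CatOver.assoc, hc]
  choose ψ hψ1 hψ2 using @hψ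
  refine ⟨⟨η, ψ, hψ1, ?_, ?_⟩⟩
  · intro i
    refine (hst i).cancel_cover D.cover ((Γ.map (𝟙 i)).map (c i)) (D.term _ _) (D.term _ _) ?_
    change _ = (Γ.obj i).comp _ (Γ.un i (η i))
    rw [hψ2, ξ.τ_id', Γ.un_nat]
  · intro k j i a b ab e
    refine (hst i).cancel_cover D.cover ((Γ.map ab).map (c k)) (D.term _ _) (D.term _ _) ?_
    change _ = (Γ.obj i).comp _ ((Γ.obj i).comp (Γ.cp a b ab e (η k))
      ((Γ.obj i).comp ((Γ.map b).map (ψ a)) (ψ b)))
    rw [hψ2, ξ.τ_comp' a b ab e, ← CatOver.assoc _ ((Γ.map ab).map (c k)), Γ.cp_nat]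
    simp only [CatOver.assoc]
    rw [← CatOver.assoc _ ((Γ.map b).map ((Γ.map a).map (c k))), ← Mor.map_comp, hψ2,
      Mor.map_comp, CatOver.assoc, hψ2]

end Pool.Agent.H191Z.Rig
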