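import Pool.Agent.H191Z.RDefs

set_option autoImplicit false
set_option linter.style.haveILetI false

open TensorProduct Polynomial

namespace Pool.Agent.H191Z.Rig

section liftR

variable {A T E N : Type} [CommRing A] [CommRing T] [CommRing E] [CommRing N] [Algebra A T]
  [Algebra A E]

/-- the ring map out of a tensor product -/
noncomputable def liftR (f : T →+* N) (g : E →+* N)
    (h : f.comp (algebraMap A T) = g.comp (algebraMap A E)) : T ⊗[A] E →+* N :=
  letI : Algebra A N := (f.comp (algebraMap A T)).toAlgebra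
  (Algebra.TensorProduct.lift (⟨f, fun _ => rfl⟩ : T →ₐ[A] N)
    (⟨g, fun a => (RingHom.congr_fun h a).symm⟩ : E →ₐ[A] N)
    (fun _ _ => Commute.all _ _)).toRingHom

@[simp] theorem liftR_tmul (f : T →+* N) (g : E →+* N)
    (h : f.comp (algebraMap A T) = g.comp (algebraMap A E)) (t : T) (e : E) :
    liftR f g h (t ⊗ₜ e) = f t * g e := rfl

theorem tensor_ringHom_ext {f g : T ⊗[A] E →+* N} (h1 : ∀ t : T, f (t ⊗ₜ 1) = g (t ⊗ₜ 1))
    (h2 : ∀ e : E, f (1 ⊗ₜ e) = g (1 ⊗ₜ e)) : f = g :=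
  Algebra.TensorProduct.ringHom_ext (RingHom.ext h1) (RingHom.ext h2)

end liftR

namespace IsLoc

variable {M0 M N : Type} [CommRing M0] [CommRing M] [CommRing N]

theorem away {f : M0 →+* M} {u : M0} (h : IsLoc f u) :
    @IsLocalization.Away _ _ u M _ f.toAlgebra := by
  letI := f.toAlgebra
  refine IsLocalization.Away.mk u h.unit (fun m => h.sur m) ?_
  intro a b hab
  obtain ⟨n, hn⟩ := h.ker (a - b) (by rw [map_sub, sub_eq_zero]; exact hab)
  exact ⟨n, by rw [← sub_eq_zero, ← mul_sub, hn]⟩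

theorem id (M : Type) [CommRing M] : IsLoc (RingHom.id M) 1 :=
  ⟨isUnit_one, fun m => ⟨0, m, by simp⟩, fun a h => ⟨0, by simpa using h⟩⟩

theorem exists_lift {f : M0 →+* M} {u : M0} (h : IsLoc f u) (g : M0 →+* N) (hg : IsUnit (g u)) :
    ∃ g' : M →+* N, g'.comp f = g := by
  letI := f.toAlgebra
  have := h.away
  exact ⟨IsLocalization.Away.lift u hg, IsLocalization.Away.lift_comp u hg⟩

theorem hom_ext {f : M0 →+* M} {u : M0} (h : IsLoc f u) {g g' : M →+* N}
    (e : g.comp f = g'.comp f) : g = g' := by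
  letI := f.toAlgebra
  have := h.away
  exact IsLocalization.ringHom_ext (Submonoid.powers u) e

theorem of_dvd {f : M0 →+* M} {w u : M0} (h : IsLoc f w) (hu : IsUnit (f u)) (k : ℕ)
    (hd : w ∣ u ^ k) : IsLoc f u := by
  obtain ⟨c, hc⟩ := hd
  refine ⟨hu, fun m => ?_, fun a ha => ?_⟩
  · obtain ⟨n, a, e⟩ := h.sur m
    refine ⟨k * n, a * c ^ n, ?_⟩
    rw [pow_mul, ← map_pow f u, hc, map_mul, mul_pow, ← mul_assoc, e, map_mul, map_pow]
  · obtain ⟨n, e⟩ := h.ker a ha
    refine ⟨k * n, ?_⟩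
    rw [pow_mul, hc, mul_pow, mul_right_comm, e, zero_mul]

theorem tensor {A0 T0 E0 A T E : Type} [CommRing A0] [CommRing T0] [CommRing E0] [CommRing A]
    [CommRing T] [CommRing E] [Algebra A0 T0] [Algebra A0 E0] [Algebra A T] [Algebra A E]
    {fA : A0 →+* A} {fT : T0 →+* T} {fE : E0 →+* E}
    (HT : fT.comp (algebraMap _ _) = (algebraMap _ _).comp fA)
    (HE : fE.comp (algebraMap _ _) = (algebraMap _ _).comp fA) {a : A0} {t : T0} {e : E0}
    (hA : IsLoc fA a) (hT : IsLoc fT t) (hE : IsLoc fE e) :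
    IsLoc (Algebra.TensorProduct.mapRingHom fA fT fE HT HE) (t ⊗ₜ e) := by
  refine ⟨?_, ?_, ?_⟩
  · rw [Algebra.TensorProduct.mapRingHom_tmul]
    have h1 := hT.unit.map (Algebra.TensorProduct.includeLeftRingHom : T →+* T ⊗[A] E)
    have h2 := hE.unit.map (Algebra.TensorProduct.includeRight : E →ₐ[A] T ⊗[A] E)
    have := h1.mul h2
    simpa using this
  · intro m
    induction m using TensorProduct.induction_on with
    | zero => exact ⟨0, 0, by simp⟩
    | tmul x y =>
      obtain ⟨n, b, hb⟩ := hT.sur x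
      obtain ⟨n', c, hc⟩ := hE.sur y
      refine ⟨n + n', (b * t ^ n') ⊗ₜ (c * e ^ n), ?_⟩
      simp only [Algebra.TensorProduct.mapRingHom_tmul, Algebra.TensorProduct.tmul_pow,
        Algebra.TensorProduct.tmul_mul_tmul, map_mul, map_pow, ← hb, ← hc]
      congr 1 <;> ring
    | add x y hx hy =>
      obtain ⟨n, b, hb⟩ := hx
      obtain ⟨n', c, hc⟩ := hy
      refine ⟨n + n', b * (t ⊗ₜ e) ^ n' + c * (t ⊗ₜ e) ^ n, ?_⟩
      rw [map_add, map_mul, map_mul, map_pow, map_pow, ← hb, ← hc]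
      ring
  · intro z hz
    let Λ := Localization.Away (t ⊗ₜ[A0] e)
    let ι : T0 ⊗[A0] E0 →+* Λ := algebraMap _ _
    have hu : IsUnit (ι (t ⊗ₜ e)) := IsLocalization.Away.algebraMap_isUnit _
    have hu' : IsUnit (ι (t ⊗ₜ 1) * ι (1 ⊗ₜ e)) := by
      rw [← map_mul]
      simpa using hu
    obtain ⟨ρT, hρT⟩ := hT.exists_lift (ι.comp Algebra.TensorProduct.includeLeftRingHom)
      (isUnit_of_mul_isUnit_left hu')
    obtain ⟨ρE, hρE⟩ := hE.exists_lift
      (ι.comp (Algebra.TensorProduct.includeRight : E0 →ₐ[A0] T0 ⊗[A0] E0).toRingHom)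
      (isUnit_of_mul_isUnit_right hu')
    have hc : ρT.comp (algebraMap A T) = ρE.comp (algebraMap A E) := by
      apply hA.hom_ext
      rw [RingHom.comp_assoc, RingHom.comp_assoc, ← HT, ← HE, ← RingHom.comp_assoc,
        ← RingHom.comp_assoc, hρT, hρE]
      ext x
      change ι (algebraMap A0 T0 x ⊗ₜ 1) = ι (1 ⊗ₜ algebraMap A0 E0 x)
      rw [Algebra.TensorProduct.tmul_one_eq_one_tmul]
    have hρ : (liftR ρT ρE hc).comp (Algebra.TensorProduct.mapRingHom fA fT fE HT HE) = ι := by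
      apply tensor_ringHom_ext
      · intro x
        simpa using RingHom.congr_fun hρT x
      · intro x
        simpa using RingHom.congr_fun hρE x
    have h0 : ι z = 0 := by rw [← hρ, RingHom.comp_apply, hz, map_zero]
    obtain ⟨⟨_, n, rfl⟩, hn⟩ :=
      (IsLocalization.map_eq_zero_iff (Submonoid.powers (t ⊗ₜ[A0] e)) Λ z).1 h0
    exact ⟨n, hn⟩

end IsLoc

theorem finite_aeval_baseChange {R M : Type} [CommRing R] [CommRing M] [Algebra R M] (R' : Type)
    [CommRing R'] [Algebra R R'] {u : M} (h : (aeval u : R[X] →ₐ[R] M).Finite) :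
    (aeval (1 ⊗ₜ u) : R'[X] →ₐ[R'] R' ⊗[R] M).Finite := by
  classical
  letI a1 : Algebra R[X] M := (aeval u : R[X] →ₐ[R] M).toRingHom.toAlgebra
  letI a2 : Algebra R'[X] (R' ⊗[R] M) :=
    (aeval (1 ⊗ₜ u) : R'[X] →ₐ[R'] R' ⊗[R] M).toRingHom.toAlgebra
  obtain ⟨s, hs⟩ : (⊤ : Submodule R[X] M).FG := h.fg_top
  refine ⟨⟨s.image (fun m => (1 : R') ⊗ₜ[R] m), ?_⟩⟩
  rw [eq_top_iff]
  have key : ∀ m : M, (1 : R') ⊗ₜ[R] m ∈
      Submodule.span R'[X] (↑(s.image (fun m => (1 : R') ⊗ₜ[R] m)) : Set (R' ⊗[R] M)) := by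
    intro m
    have hm : m ∈ Submodule.span R[X] (s : Set M) := hs ▸ Submodule.mem_top
    induction hm using Submodule.span_induction with
    | mem x hx => exact Submodule.subset_span (by simpa using ⟨x, hx, rfl⟩)
    | zero => simp
    | add x y _ _ hx hy => rw [tmul_add]; exact Submodule.add_mem _ hx hy
    | smul p x _ hx =>
      have : (1 : R') ⊗ₜ[R] (p • x) = (p.map (algebraMap R R')) • ((1 : R') ⊗ₜ[R] x) := by
        change (1 : R') ⊗ₜ[R] (aeval u p * x) =
          aeval ((1 : R') ⊗ₜ[R] u) (p.map (algebraMap R R')) * ((1 : R') ⊗ₜ[R] x)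
        rw [aeval_map_algebraMap]
        have := aeval_algHom_apply (Algebra.TensorProduct.includeRight : M →ₐ[R] R' ⊗[R] M) u p
        rw [Algebra.TensorProduct.includeRight_apply] at this
        rw [this]
        simp
      rw [this]
      exact Submodule.smul_mem _ _ hx
  intro z _
  induction z using TensorProduct.induction_on with
  | zero => simp
  | tmul r m =>
    have : r ⊗ₜ[R] m = (C r : R'[X]) • ((1 : R') ⊗ₜ[R] m) := by
      change _ = aeval ((1 : R') ⊗ₜ[R] u) (C r : R'[X]) * ((1 : R') ⊗ₜ[R] m)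
      simp
    rw [this]
    exact Submodule.smul_mem _ _ (key m)
  | add x y hx hy => exact Submodule.add_mem _ (hx trivial) (hy trivial)

theorem finite_aeval_comp {R M N : Type} [CommRing R] [CommRing M] [Algebra R M] [CommRing N]
    [Algebra R N] [Algebra M N] [IsScalarTower R M N] [Module.Finite M N] {u : M}
    (h : (aeval u : R[X] →ₐ[R] M).Finite) :
    (aeval (algebraMap M N u) : R[X] →ₐ[R] N).Finite := by
  have h2 : (IsScalarTower.toAlgHom R M N).Finite :=
    RingHom.finite_algebraMap.2 inferInstance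
  have := h2.comp h
  convert this using 1
  ext
  simp

end Pool.Agent.H191Z.Rig
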