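import Pool.Agent.H191Z.RChase
import Pool.Agent.H191Z.RLoc
import Pool.Agent.H191Z.GMain
import Pool.Agent.H530Z.FDMain

set_option autoImplicit false
set_option backward.isDefEq.respectTransparency false
set_option linter.style.haveILetI false

universe u u₀ v₀

open CategoryTheory AlgebraicGeometry TensorProduct Limits

namespace Pool.Agent.H191Z.Rig

open Pool.Agent.H191Z.Gerbe Pool.Agent.H530Z.FD

section abstract

variable {C : Type u₀} [Category.{v₀} C] {Y : CatOver.{u} C}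

/-- `z` represents isomorphisms between `ξ` and the pullback of `η` along `s` -/
def IsPair {X L P : C} {ξ : Y.Obj X} {η : Y.Obj L} {z : Y.Obj P} (α : Y.Hom z ξ) (β : Y.Hom z η)
    (s : X ⟶ L) : Prop :=
  Y.base β = Y.base α ≫ s ∧
  ∀ {T : C} {z' : Y.Obj T} (a : Y.Hom z' ξ) (b : Y.Hom z' η), Y.base b = Y.base a ≫ s →
    ∃! h : Y.Hom z' z, Y.comp h α = a ∧ Y.comp h β = b

theorem isPair_of_isIsom (hY : Y.IsFiberedInGroupoids) {X L P : C} {ξ η' : Y.Obj X} {η : Y.Obj L}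
    {z : Y.Obj P} {a : Y.Hom z ξ} {b : Y.Hom z η'} (h : Y.IsIsom a b) (e : Y.Hom η' η) :
    IsPair a (Y.comp b e) (Y.base e) := by
  refine ⟨by simp [h.1], fun a' b' hb => ?_⟩
  obtain ⟨b'', h1, h2⟩ := hY.exists_fill b' e (Y.base a') hb.symm
  obtain ⟨m, ⟨m1, m2⟩, hm⟩ := h.2 a' b'' h1.symm
  refine ⟨m, ⟨m1, by rw [← Y.assoc, m2, h2]⟩, ?_⟩
  rintro m' ⟨k1, k2⟩
  refine hm m' ⟨k1, hY.ext e ?_ (by rw [Y.assoc, k2, h2])⟩
  rw [h1, ← k1, Y.base_comp, Y.base_comp, h.1]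

theorem isPullback_of_isPair (hY : Y.IsFiberedInGroupoids) {X0 X L P0 P : C} {ξ0 : Y.Obj X0}
    {ξ : Y.Obj X} {η : Y.Obj L} {z0 : Y.Obj P0} {z : Y.Obj P} {α0 : Y.Hom z0 ξ0}
    {β0 : Y.Hom z0 η} {α : Y.Hom z ξ} {β : Y.Hom z η} {s0 : X0 ⟶ L} {s : X ⟶ L}
    (h0 : IsPair α0 β0 s0) (h : IsPair α β s) (w : Y.Hom ξ ξ0) (hw : Y.base w ≫ s0 = s) :
    ∃ γ : Y.Hom z z0, Y.comp γ α0 = Y.comp α w ∧ Y.comp γ β0 = β ∧
      IsPullback (Y.base γ) (Y.base α) (Y.base α0) (Y.base w) := by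
  obtain ⟨γ, ⟨h1, h2⟩, -⟩ := h0.2 (Y.comp α w) β (by simp [h.1, hw])
  refine ⟨γ, h1, h2, ⟨by rw [← Y.base_comp, h1, Y.base_comp]⟩,
    ⟨PullbackCone.IsLimit.mk _ ?_ ?_ ?_ ?_⟩⟩
  all_goals
    have key : ∀ c : PullbackCone (Y.base α0) (Y.base w),
        ∃ m : c.pt ⟶ P, m ≫ Y.base γ = c.fst ∧ m ≫ Y.base α = c.snd := by
      intro c
      obtain ⟨q, l, hl⟩ := hY.exists_lift c.fst z0
      obtain ⟨a, ha, ha'⟩ := hY.exists_fill (Y.comp l α0) w c.snd (by simp [hl, c.condition])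
      obtain ⟨m, ⟨m1, m2⟩, -⟩ := h.2 a (Y.comp l β0) (by
        rw [Y.base_comp, h0.1, ha, ← hw, hl, ← Category.assoc, c.condition, Category.assoc])
      refine ⟨Y.base m, ?_, by rw [← Y.base_comp, m1, ha]⟩
      rw [← Y.base_comp, ← hl]
      congr 1
      exact (h0.2 (Y.comp l α0) (Y.comp l β0) (by simp [h0.1])).unique
        ⟨by rw [Y.assoc, h1, ← Y.assoc, m1, ha'], by rw [Y.assoc, h2, m2]⟩ ⟨rfl, rfl⟩
  · exact fun c => (key c).choose
  · exact fun c => (key c).choose_spec.1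
  · exact fun c => (key c).choose_spec.2
  · intro c m hm1 hm2
    obtain ⟨k1, k2⟩ := (key c).choose_spec
    generalize (key c).choose = m' at k1 k2
    obtain ⟨q, l, hl⟩ := hY.exists_lift m z
    obtain ⟨l', hl', hl''⟩ := hY.exists_fill (Y.comp l α) α m' (by simp [hl, hm2, k2])
    have e1 : Y.comp l' γ = Y.comp l γ :=
      hY.ext α0 (by simp [hl, hl', hm1, k1]) (by rw [Y.assoc, Y.assoc, h1, ← Y.assoc, hl'', Y.assoc])
    have e2 : l' = l := (h.2 (Y.comp l α) (Y.comp l β) (by simp [h.1])).unique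
      ⟨hl'', by rw [← h2, ← Y.assoc, e1, Y.assoc]⟩ ⟨rfl, rfl⟩
    rw [← hl, ← hl', e2]

theorem triv (hY : Y.IsFiberedInGroupoids) {X L P G S Q1 Q2 : C} {ξ : Y.Obj X} {η : Y.Obj L}
    {z : Y.Obj P} {α : Y.Hom z ξ} {β : Y.Hom z η} {s : X ⟶ L} (h : IsPair α β s)
    {g : Y.Obj G} {a b : Y.Hom g η} (hG : Y.IsIsom a b) {z' : Y.Obj S} (a' : Y.Hom z' ξ)
    (b' : Y.Hom z' η) (hab : Y.base b' = Y.base a' ≫ s) {p1 : Q1 ⟶ S} {q1 : Q1 ⟶ P}
    (H1 : IsPullback p1 q1 (Y.base a') (Y.base α)) {p2 : Q2 ⟶ S} {q2 : Q2 ⟶ G}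
    (H2 : IsPullback p2 q2 (Y.base b') (Y.base a)) :
    ∃ e : Q1 ≅ Q2, e.hom ≫ p2 = p1 := by
  obtain ⟨w1, l1, hl1⟩ := hY.exists_lift q1 z
  obtain ⟨σ1, hσ1, hσ1'⟩ := hY.exists_fill (Y.comp l1 α) a' p1 (by simp [hl1, H1.w])
  obtain ⟨k1, ⟨k1a, k1b⟩, -⟩ := hG.2 (Y.comp σ1 b') (Y.comp l1 β)
    (by simp [hσ1, hl1, hab, h.1, H1.w_assoc])
  obtain ⟨w2, l2, hl2⟩ := hY.exists_lift q2 g
  obtain ⟨σ2, hσ2, hσ2'⟩ := hY.exists_fill (Y.comp l2 a) b' p2 (by simp [hl2, H2.w])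
  obtain ⟨k2, ⟨k2a, k2b⟩, -⟩ := h.2 (Y.comp σ2 a') (Y.comp l2 b) (by
    rw [Y.base_comp, Y.base_comp, ← hG.1, hl2, hσ2, ← H2.w, hab, Category.assoc])
  have c1 : p1 ≫ Y.base b' = Y.base k1 ≫ Y.base a := by
    rw [← Y.base_comp, k1a, Y.base_comp, hσ1]
  have c2 : p2 ≫ Y.base a' = Y.base k2 ≫ Y.base α := by
    rw [← Y.base_comp, k2a, Y.base_comp, hσ2]
  obtain ⟨n1, hn1, hn1'⟩ := hY.exists_fill k1 l2 (H2.lift p1 (Y.base k1) c1) (by simp [hl2])
  obtain ⟨n2, hn2, hn2'⟩ := hY.exists_fill k2 l1 (H1.lift p2 (Y.base k2) c2) (by simp [hl1])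
  have e1 : Y.comp n1 σ2 = σ1 :=
    hY.ext b' (by simp [hn1, hσ2, hσ1]) (by rw [Y.assoc, hσ2', ← Y.assoc, hn1', k1a])
  have e2 : Y.comp n2 σ1 = σ2 :=
    hY.ext a' (by simp [hn2, hσ2, hσ1]) (by rw [Y.assoc, hσ1', ← Y.assoc, hn2', k2a])
  have e3 : Y.comp n1 k2 = l1 := (h.2 (Y.comp l1 α) (Y.comp l1 β) (by simp [h.1])).unique
    ⟨by rw [Y.assoc, k2a, ← Y.assoc, e1, hσ1'], by rw [Y.assoc, k2b, ← Y.assoc, hn1', k1b]⟩
    ⟨rfl, rfl⟩
  have e4 : Y.comp n2 k1 = l2 := (hG.2 (Y.comp l2 a) (Y.comp l2 b) (by simp [hG.1])).unique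
    ⟨by rw [Y.assoc, k1a, ← Y.assoc, e2, hσ2'], by rw [Y.assoc, k1b, ← Y.assoc, hn2', k2b]⟩
    ⟨rfl, rfl⟩
  refine ⟨⟨H2.lift p1 (Y.base k1) c1, H1.lift p2 (Y.base k2) c2, ?_, ?_⟩, by simp⟩
  · apply H1.hom_ext
    · simp
    · rw [Category.assoc, IsPullback.lift_snd, ← hn1, ← Y.base_comp, e3, hl1, Category.id_comp]
  · apply H2.hom_ext
    · simp
    · rw [Category.assoc, IsPullback.lift_snd, ← hn2, ← Y.base_comp, e4, hl2, Category.id_comp]

end abstract

variable {k : Type} [Field k]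

theorem exists_finite_cover_fpqc {S : Sch k} [IsAffine S.left] {V : Sieve S}
    (hV : V ∈ fpqc k S) :
    ∃ (ι : Type) (_ : Finite ι) (T : ι → Sch k) (f : ∀ i, T i ⟶ S),
      (∀ i, IsAffine (T i).left) ∧ (∀ i, V (f i)) ∧ Flat (dsc f).left ∧
        Surjective (dsc f).left := by
  rw [fpqc, GrothendieckTopology.mem_over_iff,
    Precoverage.mem_toGrothendieck_iff_of_isStableUnderComposition] at hV
  obtain ⟨R, hR, hle⟩ := hV
  obtain ⟨𝒰, h𝒰, rfl⟩ := Scheme.mem_propQCPrecoverage_iff_exists_quasiCompactCover.1 hR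
  obtain ⟨n, f, W, hW, h⟩ := QuasiCompactCover.exists_isAffineOpen_of_isCompact 𝒰.1
    (show IsCompact (⊤ : TopologicalSpace.Opens S.left).carrier from isCompact_univ)
  refine ⟨Fin n, inferInstance, fun i => Over.mk (((W i).ι ≫ 𝒰.f (f i)) ≫ S.hom),
    fun i => Over.homMk ((W i).ι ≫ 𝒰.f (f i)), fun i => hW i, fun i => ?_, ?_, ?_⟩
  · refine (Sieve.overEquiv_iff _ _).1 ?_
    exact Sieve.downward_closed _ (hle _ _ (Presieve.ofArrows.mk _)) _
  · have : ∀ i, Flat (𝒰.f i) := fun i => 𝒰.map_prop i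
    exact inferInstanceAs (Flat (Sigma.desc fun i => (W i).ι ≫ 𝒰.f (f i)))
  · refine Surjective.sigmaDesc_of_union_range_eq_univ (f := fun i => (W i).ι ≫ 𝒰.f (f i)) ?_
    refine Set.eq_univ_of_forall fun s => ?_
    have hs : s ∈ ((⊤ : TopologicalSpace.Opens S.left) : Set S.left) := trivial
    rw [← h] at hs
    obtain ⟨i, x, hx, rfl⟩ := Set.mem_iUnion.mp hs
    exact Set.mem_iUnion.mpr ⟨i, ⟨x, hx⟩, rfl⟩

theorem glue_sigma' {Y : CatOver.{u} (Sch k)} (hY : Y.IsStack (fpqc k)) {ι : Type}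
    {T : ι → Sch k} {U : Sch k} {u : Y.Obj U} (x : Y.Obj (Sig T)) (z : ∀ i, Y.Obj (T i))
    (c : ∀ i, Y.Hom (z i) x) (hc : ∀ i, Y.base (c i) = inc T i) (d : ∀ i, Y.Hom (z i) u) :
    ∃ ψ : Y.Hom x u, Y.base ψ = dsc fun i => Y.base (d i) := by
  obtain ⟨u', δ, hδ⟩ := hY.fibered.exists_lift (dsc fun i => Y.base (d i)) u
  have h1 : ∀ i, ∃ d' : Y.Hom (z i) u', Y.base d' = inc T i ∧ Y.comp d' δ = d i := fun i =>
    hY.fibered.exists_fill (d i) δ (inc T i) (by rw [hδ, inc_dsc])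
  choose d' hd' _ using h1
  have W : ∀ {V : Sch k} {w : Y.Obj V} (i j : ι) (b : Y.Hom w (z i)) (b' : Y.Hom w (z j)),
      Y.comp b (c i) = Y.comp b' (c j) → Y.comp b (d' i) = Y.comp b' (d' j) := by
    intro V w i j b b' h
    have hb : Y.base b ≫ inc T i = Y.base b' ≫ inc T j := by
      have := congrArg Y.base h
      simpa [hc] using this
    by_cases hij : i = j
    · subst hij
      have : Y.base b = Y.base b' := by
        ext1
        have h2 : (Y.base b).left ≫ Sigma.ι (fun i => (T i).left) i =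
          (Y.base b').left ≫ Sigma.ι (fun i => (T i).left) i := congrArg (fun m => m.left) hb
        exact (cancel_mono _).mp h2
      rw [hY.fibered.ext (c i) this h]
    · have : IsEmpty V.left :=
        isEmpty_of_commSq_sigmaι_of_ne (g := fun i => (T i).left)
          ⟨congrArg (fun m => m.left) hb⟩ hij
      refine hY.ext_of_cover ⊥ bot_mem (by simp [hd', hb]) ?_
      intro V' z' a ha
      exact ha.elim
  have key : ∀ {V : Sch k} {w : Y.Obj V} (a : Y.Hom w x),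
      InSieve (Sieve.generate (Presieve.ofArrows T (inc T))) (Y.base a) →
      ∃ (i : ι) (b : Y.Hom w (z i)), Y.comp b (c i) = a := by
    intro V w a ha
    obtain ⟨Z, g, f, hf, e⟩ := inSieve_iff.1 ha
    obtain ⟨i⟩ := hf
    obtain ⟨b, -, hb2⟩ := hY.fibered.exists_fill a (c i) g (by rw [hc, e])
    exact ⟨i, b, hb2⟩
  choose i b hb using @key
  obtain ⟨ψ, ⟨hψ, -⟩, -⟩ := hY.glue_hom _ (inc_mem T) x u' (fun a ha => Y.comp (b a ha) (d' _))
    (fun a ha => by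
      conv_rhs => rw [← hb a ha]
      simp [hc, hd'])
    (fun b' a ha hba => by
      rw [← Y.assoc]
      apply W
      rw [hb, Y.assoc, hb])
  exact ⟨Y.comp ψ δ, by simp [hψ, hδ]⟩

theorem exists_alg {R : Type} [CommRing R] [Algebra k R] {T : Sch k} [IsAffine T.left]
    (π : T ⟶ SpO k R) : ∃ (B : Type) (_ : CommRing B) (_ : Algebra k B) (_ : Algebra R B)
      (_ : IsScalarTower k R B) (e : SpO k B ≅ T),
      e.hom ≫ π = SpM (IsScalarTower.toAlgHom k R B) := by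
  obtain ⟨B, _, _, ⟨e⟩⟩ := exists_affine T
  obtain ⟨φ, hφ⟩ := SpM_surjective (e.inv ≫ π)
  letI : Algebra R B := φ.toRingHom.toAlgebra
  haveI : IsScalarTower k R B := IsScalarTower.of_algebraMap_eq fun x => (φ.commutes x).symm
  exact ⟨B, inferInstance, inferInstance, inferInstance, inferInstance, e.symm, hφ.symm⟩

theorem exists_iso_cover {Y : CatOver.{u} (Sch k)} (hY : Y.IsGerbe (fpqc k)) {R : Type}
    [CommRing R] [Algebra k R] (x y : Y.Obj (SpO k R)) :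
    ∃ (B : Type) (_ : CommRing B) (_ : Algebra k B) (_ : Algebra R B)
      (_ : IsScalarTower k R B) (z : Y.Obj (SpO k B)) (a : Y.Hom z x) (b : Y.Hom z y),
      Module.FaithfullyFlat R B ∧ Y.base a = SpM (IsScalarTower.toAlgHom k R B) ∧
        Y.base b = SpM (IsScalarTower.toAlgHom k R B) := by
  have hF := hY.stack.fibered
  obtain ⟨V, hV, h⟩ := hY.locally_isomorphic x y
  have : IsAffine (SpO k R).left := inferInstanceAs (IsAffine (Spec _))
  obtain ⟨ι, _, T, f, hT, hf, hfl, hs⟩ := exists_finite_cover_fpqc hV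
  choose z a b ha hb using fun i => h (f i) (inSieve_iff.2 (hf i))
  obtain ⟨x', c, hc⟩ := hF.exists_lift (dsc f) x
  have h1 : ∀ i, ∃ c' : Y.Hom (z i) x', Y.base c' = inc T i ∧ Y.comp c' c = a i := fun i =>
    hF.exists_fill (a i) c (inc T i) (by rw [hc, inc_dsc, ha])
  choose c' hc' _ using h1
  obtain ⟨ψ, hψ⟩ := glue_sigma' hY.stack x' z c' hc' b
  simp only [hb] at hψ
  have : IsAffine (Sig T).left := inferInstanceAs (IsAffine (∐ fun i => (T i).left))
  obtain ⟨B, _, _, _, _, e, he⟩ := exists_alg (dsc f)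
  obtain ⟨w, l, hl⟩ := hF.exists_lift e.hom x'
  refine ⟨B, inferInstance, inferInstance, inferInstance, inferInstance, w, Y.comp l c,
    Y.comp l ψ, ?_, by simp [hl, hc, he], by simp [hl, hψ, he]⟩
  refine RingHom.faithfullyFlat_algebraMap_iff.mp
    ((flat_and_surjective_SpecMap_iff (CommRingCat.ofHom (algebraMap R B))).mp ?_)
  have e2 : Spec.map (CommRingCat.ofHom (algebraMap R B)) = e.hom.left ≫ (dsc f).left :=
    (congrArg (fun m => m.left) he).symm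
  rw [e2]
  exact ⟨inferInstance, inferInstance⟩

theorem exists_isom_alg {Y : CatOver.{u} (Sch k)} (hY : IsFiniteStack Y) {R : Type}
    [CommRing R] [Algebra k R] (x y : Y.Obj (SpO k R)) :
    ∃ (B : Type) (_ : CommRing B) (_ : Algebra k B) (_ : Algebra R B)
      (_ : IsScalarTower k R B) (z : Y.Obj (SpO k B)) (a : Y.Hom z x) (b : Y.Hom z y),
      Module.Finite R B ∧ Y.base a = SpM (IsScalarTower.toAlgHom k R B) ∧ Y.IsIsom a b := by
  have hF := hY.1.fibered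
  have : IsAffine (SpO k R).left := inferInstanceAs (IsAffine (Spec _))
  obtain ⟨P, z, a, b, hfin, hI⟩ := finiteDiagonal Y hY this x y
  have : IsAffine P.left := isAffine_of_isAffineHom (Y.base a).left
  obtain ⟨B, _, _, _, _, e, he⟩ := exists_alg (Y.base a)
  obtain ⟨w, l, hl⟩ := hF.exists_lift e.hom z
  obtain ⟨l', -, h1, h2⟩ := hF.exists_inv l e.inv (by simp [hl]) (by simp [hl])
  refine ⟨B, inferInstance, inferInstance, inferInstance, inferInstance, w, Y.comp l a,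
    Y.comp l b, ?_, by simp [hl, he], by simp [hI.1], fun a' b' hab => ?_⟩
  · have h3 : IsFinite (Spec.map (CommRingCat.ofHom (algebraMap R B))) := by
      have e2 : Spec.map (CommRingCat.ofHom (algebraMap R B)) = e.hom.left ≫ (Y.base a).left :=
        (congrArg (fun m => m.left) he).symm
      rw [e2]
      infer_instance
    rw [IsFinite.SpecMap_iff] at h3
    exact RingHom.finite_algebraMap.1 h3
  · obtain ⟨m, ⟨m1, m2⟩, hm⟩ := hI.2 a' b' hab
    refine ⟨Y.comp m l', ⟨by rw [Y.assoc, ← Y.assoc l', h1, Y.id_comp, m1],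
      by rw [Y.assoc, ← Y.assoc l', h1, Y.id_comp, m2]⟩, ?_⟩
    rintro m' ⟨k1, k2⟩
    rw [← hm (Y.comp m' l) ⟨by rw [Y.assoc, k1], by rw [Y.assoc, k2]⟩, Y.assoc, h2, Y.comp_id]

theorem isPullback_SpM (R A B : Type) [CommRing R] [CommRing A] [CommRing B] [Algebra k R]
    [Algebra k A] [Algebra k B] [Algebra R A] [Algebra R B] [IsScalarTower k R A]
    [IsScalarTower k R B] :
    IsPullback (SpM (IsScalarTower.toAlgHom k A (A ⊗[R] B)))
      (SpM ((Algebra.TensorProduct.includeRight : B →ₐ[R] A ⊗[R] B).restrictScalars k))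
      (SpM (IsScalarTower.toAlgHom k R A)) (SpM (IsScalarTower.toAlgHom k R B)) := by
  refine IsPullback.of_map (Over.forget _) ?_
    (isPullback_SpecMap_of_isPushout _ _ _ _ (CommRingCat.isPushout_tensorProduct R A B))
  rw [← SpM_comp, ← SpM_comp]
  congr 1
  ext x
  simp [Algebra.TensorProduct.tmul_one_eq_one_tmul]

theorem isLoc_of_isPullback {A0 A B0 B : Type} [CommRing A0] [CommRing A] [CommRing B0]
    [CommRing B] [Algebra k A0] [Algebra k A] [Algebra k B0] [Algebra k B] (f : A0 →ₐ[k] A)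
    (j0 : A0 →ₐ[k] B0) (j : A →ₐ[k] B) (g : B0 →ₐ[k] B)
    (h : IsPullback (SpM g) (SpM j) (SpM j0) (SpM f)) {u : A0} (hf : IsLoc f.toRingHom u) :
    IsLoc g.toRingHom (j0 u) := by
  have hw : g.comp j0 = j.comp f := SpM_injective (by rw [SpM_comp, SpM_comp, h.w])
  have hu : IsUnit (g (j0 u)) := by
    have := AlgHom.congr_fun hw u
    rw [AlgHom.comp_apply] at this
    rw [this]
    exact hf.unit.map j
  let Λ := Localization.Away (j0 u)
  let ι : B0 →ₐ[k] Λ := IsScalarTower.toAlgHom k B0 Λ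
  obtain ⟨a, ha⟩ := hf.exists_lift (ι.comp j0).toRingHom
    (IsLocalization.Away.algebraMap_isUnit (S := Λ) (j0 u))
  let a' : A →ₐ[k] Λ := ⟨a, fun c => by
    have := RingHom.congr_fun ha (algebraMap k A0 c)
    simpa using this⟩
  have ha' : a'.comp f = ι.comp j0 := AlgHom.coe_ringHom_injective ha
  obtain ⟨ρ, hρ⟩ := SpM_surjective (h.lift (SpM ι) (SpM a') (by
    rw [← SpM_comp, ← SpM_comp, ha']))
  have h1 : ρ.comp g = ι := SpM_injective (by rw [SpM_comp, hρ, IsPullback.lift_fst])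
  have h2 : ρ.comp j = a' := SpM_injective (by rw [SpM_comp, hρ, IsPullback.lift_snd])
  let lam : Λ →ₐ[k] B := ⟨IsLocalization.Away.lift (j0 u) (g := g.toRingHom) hu, fun c => by
    have := IsLocalization.Away.lift_eq (S := Λ) (j0 u) (g := g.toRingHom) hu (algebraMap k B0 c)
    rw [← IsScalarTower.algebraMap_apply] at this
    simpa using this⟩
  have h3 : lam.comp ι = g := by
    ext x
    exact IsLocalization.Away.lift_eq (S := Λ) (j0 u) (g := g.toRingHom) hu x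
  have h4 : lam.comp ρ = AlgHom.id k B := by
    apply SpM_injective
    apply h.hom_ext
    · rw [← SpM_comp, ← SpM_comp, AlgHom.comp_assoc, h1, h3, AlgHom.id_comp]
    · rw [← SpM_comp, ← SpM_comp, AlgHom.comp_assoc, h2, AlgHom.id_comp]
      congr 1
      apply AlgHom.coe_ringHom_injective
      apply hf.hom_ext
      change ((lam.comp a').comp f).toRingHom = (j.comp f).toRingHom
      rw [AlgHom.comp_assoc, ha', ← AlgHom.comp_assoc, h3, hw]
  refine ⟨hu, fun m => ?_, fun x hx => ?_⟩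
  · obtain ⟨n, x, hx⟩ := IsLocalization.Away.surj (S := Λ) (j0 u) (ρ m)
    refine ⟨n, x, ?_⟩
    have := congrArg lam hx
    rw [map_mul, map_pow] at this
    have e1 : lam (ρ m) = m := AlgHom.congr_fun h4 m
    have e2 : ∀ y, lam (algebraMap B0 Λ y) = g y := fun y => AlgHom.congr_fun h3 y
    rwa [e1, e2, e2] at this
  · have h5 : algebraMap B0 Λ x = 0 := by
      have := AlgHom.congr_fun h1 x
      rw [AlgHom.comp_apply] at this
      change ρ (g.toRingHom x) = algebraMap B0 Λ x at this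
      rw [← this, hx, map_zero]
    obtain ⟨⟨_, n, rfl⟩, hn⟩ :=
      (IsLocalization.map_eq_zero_iff (Submonoid.powers (j0 u)) Λ x).1 h5
    exact ⟨n, hn⟩

end Pool.Agent.H191Z.Rig
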