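import Pool.Agent.H191Z.RChart
import Pool.Agent.H191Z.RCore

set_option autoImplicit false
set_option backward.isDefEq.respectTransparency false
set_option linter.style.haveILetI false

universe u

open CategoryTheory AlgebraicGeometry TensorProduct Limits

namespace Pool.Agent.H191Z.Rig

open Pool.Agent.H191Z.Gerbe

variable {κ : Type} [Field κ]

/-- evaluation at a point -/
noncomputable def evL (κ : Type) [Field κ] {L A : Type} [Field L] [Algebra κ L] [CommRing A]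
    (xb : A →+* L) : L ⊗[ℤ] A →ₐ[κ] L :=
  ⟨liftR (RingHom.id L) xb (RingHom.ext_int _ _), fun c => by
    simp [Algebra.TensorProduct.algebraMap_apply]⟩

@[simp] theorem evL_tmul {L A : Type} [Field L] [Algebra κ L] [CommRing A]
    (xb : A →+* L) (l : L) (a : A) : evL κ xb (l ⊗ₜ a) = l * xb a := rfl

section tens

variable {K Ω E : Type} [Field K] [CommRing Ω] [CommRing E] [Algebra K Ω] [Algebra K E]
  [Algebra κ Ω] [Algebra κ E] [SMulCommClass K κ Ω] [SMulCommClass K κ E]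

/-- a tensor product of maps, linear over `κ` -/
noncomputable def tmap {S S' : Type} [CommRing S] [CommRing S'] [Algebra K S] [Algebra K S']
    (j : Ω →ₐ[K] E) (hj : ∀ c, j (algebraMap κ Ω c) = algebraMap κ E c) (f : S →ₐ[K] S') :
    Ω ⊗[K] S →ₐ[κ] E ⊗[K] S' :=
  ⟨(Algebra.TensorProduct.map j f).toRingHom, fun c => by
    simp [Algebra.TensorProduct.algebraMap_apply, hj]⟩

@[simp] theorem tmap_tmul {S S' : Type} [CommRing S] [CommRing S'] [Algebra K S] [Algebra K S']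
    (j : Ω →ₐ[K] E) (hj : ∀ c, j (algebraMap κ Ω c) = algebraMap κ E c) (f : S →ₐ[K] S')
    (ω : Ω) (s : S) : tmap j hj f (ω ⊗ₜ s) = j ω ⊗ₜ f s := rfl

/-- evaluation, linear over `κ` -/
noncomputable def tev (κ : Type) [Field κ] (Ω : Type) [CommRing Ω] [Algebra K Ω] [Algebra κ Ω]
    [SMulCommClass K κ Ω] {S : Type} [CommRing S] [Algebra K S] (x : S →ₐ[K] K) :
    Ω ⊗[K] S →ₐ[κ] Ω :=
  ⟨(evalAt Ω x).toRingHom, fun c => by
    simp [Algebra.TensorProduct.algebraMap_apply, evalAt]⟩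

@[simp] theorem tev_tmul {S : Type} [CommRing S] [Algebra K S] (x : S →ₐ[K] K) (ω : Ω) (s : S) :
    tev κ Ω x (ω ⊗ₜ s) = ω * algebraMap K Ω (x s) := rfl

end tens

theorem SpM_congr {R M T N : Type} [CommRing R] [CommRing M] [CommRing T] [CommRing N]
    [Algebra κ T] [Algebra κ N] [Algebra R T] [Algebra R M] [SMulCommClass R κ T]
    {f g : T ⊗[R] M →ₐ[κ] N} (h1 : ∀ t, f (t ⊗ₜ 1) = g (t ⊗ₜ 1))
    (h2 : ∀ m, f (1 ⊗ₜ m) = g (1 ⊗ₜ m)) : SpM f = SpM g :=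
  congrArg SpM (AlgHom.coe_ringHom_injective (tensor_ringHom_ext (N := N) h1 h2))

theorem iso_of_core {Y : CatOver.{u} (Sch κ)} (hY : IsFiniteStack Y) {L : Type} [Field L]
    [Algebra κ L] {A0 A1 A : Type} [CommRing A0] [CommRing A1] [CommRing A]
    {D : Two ℤ A0 A1 A} {B0 B1 B : Type} [CommRing B0] [CommRing B1] [CommRing B]
    [Algebra (L ⊗[ℤ] A0) B0] [Algebra (L ⊗[ℤ] A1) B1] [Algebra (L ⊗[ℤ] A) B]
    [Algebra κ B0] [Algebra κ B1] [Algebra κ B] [IsScalarTower κ (L ⊗[ℤ] A0) B0]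
    [IsScalarTower κ (L ⊗[ℤ] A1) B1] [IsScalarTower κ (L ⊗[ℤ] A) B]
    (c : Cov L D B0 B1 B) (xb yb : A →+* L) (cd : CoreData c xb yb)
    {ξ0 : Y.Obj (SpO κ (L ⊗[ℤ] A0))} {ξ1 : Y.Obj (SpO κ (L ⊗[ℤ] A1))}
    {ξ : Y.Obj (SpO κ (L ⊗[ℤ] A))} (w0 : Y.Hom ξ ξ0) (w1 : Y.Hom ξ ξ1)
    {η η' : Y.Obj (SpO κ L)} (ex : Y.Hom η ξ) (ey : Y.Hom η' ξ)
    (hex : Y.base ex = SpM (evL κ xb)) (hey : Y.base ey = SpM (evL κ yb))
    {z0 : Y.Obj (SpO κ B0)} {z1 : Y.Obj (SpO κ B1)} {z : Y.Obj (SpO κ B)}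
    (α0 : Y.Hom z0 ξ0) (β0 : Y.Hom z0 η) (α1 : Y.Hom z1 ξ1) (β1 : Y.Hom z1 η) (α : Y.Hom z ξ)
    (β : Y.Hom z η)
    (hα0 : Y.base α0 = SpM (IsScalarTower.toAlgHom κ (L ⊗[ℤ] A0) B0))
    (hα1 : Y.base α1 = SpM (IsScalarTower.toAlgHom κ (L ⊗[ℤ] A1) B1))
    (hα : Y.base α = SpM (IsScalarTower.toAlgHom κ (L ⊗[ℤ] A) B))
    (hβ0 : Y.base β0 = Y.base α0 ≫ SpM (IsScalarTower.toAlgHom κ L (L ⊗[ℤ] A0)))
    (hβ1 : Y.base β1 = Y.base α1 ≫ SpM (IsScalarTower.toAlgHom κ L (L ⊗[ℤ] A1)))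
    (hβ : Y.base β = Y.base α ≫ SpM (IsScalarTower.toAlgHom κ L (L ⊗[ℤ] A)))
    (γ0 : Y.Hom z z0) (hγα0 : Y.comp γ0 α0 = Y.comp α w0) (hγβ0 : Y.comp γ0 β0 = β)
    (γ1 : Y.Hom z z1) (hγα1 : Y.comp γ1 α1 = Y.comp α w1) (hγβ1 : Y.comp γ1 β1 = β)
    (g0 : B0 →ₐ[κ] B) (hg0 : Y.base γ0 = SpM g0) (hc0 : ∀ b, g0 b = c.g0 b)
    (g1 : B1 →ₐ[κ] B) (hg1 : Y.base γ1 = SpM g1) (hc1 : ∀ b, g1 b = c.g1 b) :
    ∃ φ : Y.Hom η η', Y.base φ = 𝟙 _ := by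
  have hF := hY.1.fibered
  obtain ⟨C, _, _, _, _, g, a, b, -, -, hG⟩ := exists_isom_alg hY η η
  obtain ⟨B', _, _, _, _, q, c', d, hfin, hc', hI⟩ := exists_isom_alg hY η η'
  obtain ⟨Ω, ρ, K2, S0, S1, S, f0, f1, x, y, Ψ0, Ψ1, Ψ, F, hxy, h0, h1, l0, l1, l2, r0, r1, r2,
    ex', ey', F1, F2, F3⟩ := cd
  obtain ⟨E, _, j1, j2, hj⟩ := exists_double F
  letI : Algebra κ Ω := (ρ.comp (algebraMap κ L)).toAlgebra
  letI : Algebra κ E := (j1.comp (ρ.comp (algebraMap κ L))).toAlgebra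
  letI : Algebra K2 E := (j1.comp (algebraMap K2 Ω)).toAlgebra
  haveI : SMulCommClass K2 κ Ω := ⟨fun a b x => by simp only [Algebra.smul_def, mul_left_comm]⟩
  haveI : SMulCommClass K2 κ E := ⟨fun a b x => by simp only [Algebra.smul_def, mul_left_comm]⟩
  have hjρ : ∀ l, j1 (ρ l) = j2 (ρ l) := fun l => (hj _).2 (F1 l)
  have hjK : ∀ a, j1 (algebraMap K2 Ω a) = j2 (algebraMap K2 Ω a) := fun a => (hj _).2 (F2 a)
  let J1 : Ω →ₐ[K2] E := ⟨j1, fun _ => rfl⟩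
  let J2 : Ω →ₐ[K2] E := ⟨j2, fun a => (hjK a).symm⟩
  have hJ1 : ∀ c, J1 (algebraMap κ Ω c) = algebraMap κ E c := fun _ => rfl
  have hJ2 : ∀ c, J2 (algebraMap κ Ω c) = algebraMap κ E c := fun c => (hjρ _).symm
  let k1 : Ω →ₐ[κ] E := ⟨j1, hJ1⟩
  let k2 : Ω →ₐ[κ] E := ⟨j2, hJ2⟩
  let ρ' : L →ₐ[κ] Ω := ⟨ρ, fun _ => rfl⟩
  let Φ0 : B0 →ₐ[κ] Ω ⊗[K2] S0 := ⟨Ψ0, fun c => by
    rw [IsScalarTower.algebraMap_apply κ (L ⊗[ℤ] A0) B0]
    exact l0 _⟩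
  let Φ1 : B1 →ₐ[κ] Ω ⊗[K2] S1 := ⟨Ψ1, fun c => by
    rw [IsScalarTower.algebraMap_apply κ (L ⊗[ℤ] A1) B1]
    exact l1 _⟩
  let Φ : B →ₐ[κ] Ω ⊗[K2] S := ⟨Ψ, fun c => by
    rw [IsScalarTower.algebraMap_apply κ (L ⊗[ℤ] A) B]
    exact l2 _⟩
  have key : ∃ m : SpO κ Ω ⟶ SpO κ B', m ≫ Y.base c' = SpM ρ' ∧ SpM k1 ≫ m = SpM k2 ≫ m := by
    refine chase hF w0 w1 ex ey α0 β0 α1 β1 α β _ _ _ hβ0 hβ1 hβ ?_ ?_ γ0 hγα0 hγβ0 γ1 hγα1 hγβ1
      (SpM Φ0) (SpM Φ1) (SpM Φ) (SpM (tmap (AlgHom.id K2 Ω) (fun _ => rfl) f0))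
      (SpM (tmap (AlgHom.id K2 Ω) (fun _ => rfl) f1)) ?_ ?_
      (SpM (tmap (AlgHom.id K2 E) (fun _ => rfl) f0))
      (SpM (tmap (AlgHom.id K2 E) (fun _ => rfl) f1))
      (SpM (tmap J1 hJ1 (AlgHom.id K2 S0))) (SpM (tmap J2 hJ2 (AlgHom.id K2 S0)))
      (SpM (tmap J1 hJ1 (AlgHom.id K2 S1))) (SpM (tmap J2 hJ2 (AlgHom.id K2 S1)))
      (SpM (tmap J1 hJ1 (AlgHom.id K2 S))) (SpM (tmap J2 hJ2 (AlgHom.id K2 S)))
      ?_ ?_ ?_ ?_ ?_ ?_ ?_ (SpM ρ') (SpM k1) (SpM k2) ?_ (SpM (tev κ Ω x)) (SpM (tev κ Ω y))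
      (SpM (tev κ E x)) (SpM (tev κ E y)) ?_ ?_ ?_ ?_ ?_ ?_ hG ?_ hI
    · rw [hex, ← SpM_comp, ← SpM_id]
      congr 1
      ext l
      simp
    · rw [hey, ← SpM_comp, ← SpM_id]
      congr 1
      ext l
      simp
    · rw [hg0, ← SpM_comp, ← SpM_comp]
      congr 1
      ext b
      exact ((congrArg Ψ (hc0 b)).trans (h0 b)).symm
    · rw [hg1, ← SpM_comp, ← SpM_comp]
      congr 1
      ext b
      exact ((congrArg Ψ (hc1 b)).trans (h1 b)).symm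
    · simp only [hα0, ← SpM_comp]
      refine SpM_congr (fun l => ?_) (fun a => ?_)
      · change tmap J1 hJ1 _ (Ψ0 (algebraMap _ B0 _)) = tmap J2 hJ2 _ (Ψ0 (algebraMap _ B0 _))
        rw [l0, tmap_tmul, tmap_tmul]
        exact congrArg (fun t => t ⊗ₜ[K2] _) (hjρ l)
      · change tmap J1 hJ1 _ (Ψ0 (algebraMap _ B0 _)) = tmap J2 hJ2 _ (Ψ0 (algebraMap _ B0 _))
        obtain ⟨s, hs⟩ := r0 a
        rw [hs, tmap_tmul, tmap_tmul, map_one, map_one]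
    · simp only [hα1, ← SpM_comp]
      refine SpM_congr (fun l => ?_) (fun a => ?_)
      · change tmap J1 hJ1 _ (Ψ1 (algebraMap _ B1 _)) = tmap J2 hJ2 _ (Ψ1 (algebraMap _ B1 _))
        rw [l1, tmap_tmul, tmap_tmul]
        exact congrArg (fun t => t ⊗ₜ[K2] _) (hjρ l)
      · change tmap J1 hJ1 _ (Ψ1 (algebraMap _ B1 _)) = tmap J2 hJ2 _ (Ψ1 (algebraMap _ B1 _))
        obtain ⟨s, hs⟩ := r1 a
        rw [hs, tmap_tmul, tmap_tmul, map_one, map_one]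
    · simp only [hα, ← SpM_comp]
      refine SpM_congr (fun l => ?_) (fun a => ?_)
      · change tmap J1 hJ1 _ (Ψ (algebraMap _ B _)) = tmap J2 hJ2 _ (Ψ (algebraMap _ B _))
        rw [l2, tmap_tmul, tmap_tmul]
        exact congrArg (fun t => t ⊗ₜ[K2] _) (hjρ l)
      · change tmap J1 hJ1 _ (Ψ (algebraMap _ B _)) = tmap J2 hJ2 _ (Ψ (algebraMap _ B _))
        obtain ⟨s, hs⟩ := r2 a
        rw [hs, tmap_tmul, tmap_tmul, map_one, map_one]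
    · simp only [← SpM_comp]
      exact SpM_congr (fun _ => rfl) (fun _ => rfl)
    · simp only [← SpM_comp]
      exact SpM_congr (fun _ => rfl) (fun _ => rfl)
    · simp only [← SpM_comp]
      exact SpM_congr (fun _ => rfl) (fun _ => rfl)
    · simp only [← SpM_comp]
      exact SpM_congr (fun _ => rfl) (fun _ => rfl)
    · simp only [← SpM_comp]
      congr 1
      ext l
      exact hjρ l
    · simp only [hα, hex, ← SpM_comp]
      refine SpM_congr (fun l => ?_) (fun a => ?_)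
      · change tev κ Ω x (Ψ (algebraMap _ B _)) = ρ (l * xb 1)
        rw [l2, tev_tmul]
        simp
      · exact (ex' a).trans (congrArg ρ (one_mul _).symm)
    · simp only [hα, hey, ← SpM_comp]
      refine SpM_congr (fun l => ?_) (fun a => ?_)
      · change tev κ Ω y (Ψ (algebraMap _ B _)) = ρ (l * yb 1)
        rw [l2, tev_tmul]
        simp
      · exact (ey' a).trans (congrArg ρ (one_mul _).symm)
    · simp only [← SpM_comp]
      refine SpM_congr (fun ω => (map_mul j1 _ _).symm) (fun s => (map_mul j1 _ _).symm)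
    · simp only [← SpM_comp]
      refine SpM_congr (fun ω => ?_) (fun s => ?_)
      · exact (congrArg (j2 ω * ·) (hjK _)).trans (map_mul j2 _ _).symm
      · exact (congrArg (j2 1 * ·) (hjK _)).trans (map_mul j2 _ _).symm
    · simp only [← SpM_comp]
      refine SpM_congr (fun ω => (map_mul j1 _ _).symm) (fun s => (map_mul j1 _ _).symm)
    · simp only [← SpM_comp]
      refine SpM_congr (fun ω => ?_) (fun s => ?_)
      · exact (congrArg (j2 ω * ·) (hjK _)).trans (map_mul j2 _ _).symm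
      · exact (congrArg (j2 1 * ·) (hjK _)).trans (map_mul j2 _ _).symm
    · intro m0 m1 hm
      obtain ⟨φ0, rfl⟩ := SpM_surjective m0
      obtain ⟨φ1, rfl⟩ := SpM_surjective m1
      simp only [← SpM_comp] at hm ⊢
      have hm' := SpM_injective hm
      congr 1
      ext t
      exact Pool.Agent.H405Z.Help48.const_eval f0 f1 x y hxy E (φ0 t) (φ1 t)
        (AlgHom.congr_fun hm' t)
  obtain ⟨m, hm1, hm2⟩ := key
  obtain ⟨μ, rfl⟩ := SpM_surjective m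
  rw [hc', ← SpM_comp] at hm1
  rw [← SpM_comp, ← SpM_comp] at hm2
  have e1 : ∀ l, μ (algebraMap L B' l) = ρ l := AlgHom.congr_fun (SpM_injective hm1)
  have e2 : ∀ t, μ t ∈ F := fun t => (hj _).1 (AlgHom.congr_fun (SpM_injective hm2) t)
  have e3 : μ.toRingHom.comp (algebraMap L B') = ρ := RingHom.ext e1
  obtain ⟨ν, hν⟩ := exists_factor_range ρ μ.toRingHom (fun t => F3 _ (e2 t) (by
    obtain ⟨P, hP, hP'⟩ := Algebra.IsIntegral.isIntegral (R := L) t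
    refine ⟨P, hP, ?_⟩
    rw [← e3, ← Polynomial.hom_eval₂, hP', map_zero]))
  let ν' : B' →ₐ[κ] L := ⟨ν, fun c => ρ.injective ((hν _).trans (μ.commutes c))⟩
  have e4 : SpM ν' ≫ Y.base c' = 𝟙 _ := by
    rw [hc', ← SpM_comp, ← SpM_id]
    congr 1
    ext l
    exact ρ.injective ((hν _).trans (e1 l))
  obtain ⟨l, hl, -⟩ := hF.exists_fill (Y.id η) c' (SpM ν') (by rw [e4, Y.base_id])
  exact ⟨Y.comp l d, by rw [Y.base_comp, hl, ← hI.1, e4]⟩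

end Pool.Agent.H191Z.Rig
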