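import Pool.Agent.H191Z.RIso
import Pool.Agent.H191Z.RFrob

set_option autoImplicit false
set_option backward.isDefEq.respectTransparency false
set_option linter.style.haveILetI false

universe w w' u v

open CategoryTheory AlgebraicGeometry TensorProduct Limits

namespace Pool.Agent.H191Z.Rig

open Pool.Agent.H191Z.Gerbe

variable {κ : Type} [Field κ]

/-- base change of a ring map, linear over `κ` -/
noncomputable def mapK (κ : Type) [Field κ] (L : Type) [Field L] [Algebra κ L] {A A' : Type}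
    [CommRing A] [CommRing A'] (f : A →+* A') : L ⊗[ℤ] A →ₐ[κ] L ⊗[ℤ] A' :=
  ⟨mapL L f, fun c => by simp [Algebra.TensorProduct.algebraMap_apply]⟩

theorem mapK_toAlgHom (L : Type) [Field L] [Algebra κ L] {A A' : Type}
    [CommRing A] [CommRing A'] (f : A →+* A') :
    SpM (mapK κ L f) ≫ SpM (IsScalarTower.toAlgHom κ L (L ⊗[ℤ] A)) =
      SpM (IsScalarTower.toAlgHom κ L (L ⊗[ℤ] A')) := by
  rw [← SpM_comp]
  congr 1
  ext l
  change mapL L f (l ⊗ₜ 1) = l ⊗ₜ 1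
  simp

theorem claimA {Y : CatOver.{u} (Sch κ)} (hY : IsFiniteGerbe Y) {L : Type} [Field L]
    [Algebra κ L] (p : ℕ) [Fact p.Prime] [CharP L p] {A0 A1 A : Type} [CommRing A0] [CommRing A1]
    [CommRing A] (D : Two ℤ A0 A1 A) {K : Set L} (R : RigData L K)
    (hdom : ∀ (F : Type) [Field F] [CharP F p], IsDomain (F ⊗[ℤ] A))
    (xb yb : A →+* L) (hx : ∀ a, xb a ∈ K) (hy : ∀ a, yb a ∈ K)
    {ξ0 : Y.Obj (SpO κ (L ⊗[ℤ] A0))} {ξ1 : Y.Obj (SpO κ (L ⊗[ℤ] A1))}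
    {ξ : Y.Obj (SpO κ (L ⊗[ℤ] A))} (w0 : Y.Hom ξ ξ0) (w1 : Y.Hom ξ ξ1)
    (hw0 : Y.base w0 = SpM (mapK κ L D.f0.toRingHom))
    (hw1 : Y.base w1 = SpM (mapK κ L D.f1.toRingHom))
    {η η' : Y.Obj (SpO κ L)} (ex : Y.Hom η ξ) (ey : Y.Hom η' ξ)
    (hex : Y.base ex = SpM (evL κ xb)) (hey : Y.base ey = SpM (evL κ yb)) :
    ∃ φ : Y.Hom η η', Y.base φ = 𝟙 _ := by
  have hF := hY.2.stack.fibered
  obtain ⟨C, _, _, _, _, g, a, b, hC, ha, hG⟩ := exists_isom_alg hY.1 η η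
  obtain ⟨n, hn⟩ := Pool.Agent.H452Z.Frob.etale_frobSub p L C
  obtain ⟨B0, _, _, _, _, z0, α0, β0, _, hα0, hP0, _, -⟩ :=
    exists_chartData hY ha hG (p ^ n) hn ξ0
  obtain ⟨B1, _, _, _, _, z1, α1, β1, _, hα1, hP1, _, -⟩ :=
    exists_chartData hY ha hG (p ^ n) hn ξ1
  obtain ⟨B, _, _, _, _, z, α, β, _, hα, hP, _, hs⟩ :=
    exists_chartData hY ha hG (p ^ n) hn ξ
  obtain ⟨γ0, hγα0, hγβ0, H0⟩ := isPullback_of_isPair hF hP0 hP w0 (by rw [hw0, mapK_toAlgHom])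
  obtain ⟨γ1, hγα1, hγβ1, H1⟩ := isPullback_of_isPair hF hP1 hP w1 (by rw [hw1, mapK_toAlgHom])
  obtain ⟨g0, hg0⟩ := SpM_surjective (Y.base γ0)
  obtain ⟨g1, hg1⟩ := SpM_surjective (Y.base γ1)
  rw [← hg0, hα, hα0, hw0] at H0
  rw [← hg1, hα, hα1, hw1] at H1
  have hl0 := isLoc_baseChange L D.f0 D.loc0
  have hl1 := isLoc_baseChange L D.f1 D.loc1
  rw [map_eq_mapL] at hl0 hl1
  have e0 := H0.w
  have e1 := H1.w
  rw [← SpM_comp, ← SpM_comp] at e0 e1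
  let c : Cov L D B0 B1 B :=
    { g0 := g0.toRingHom
      g1 := g1.toRingHom
      hg0 := RingHom.ext (AlgHom.congr_fun (SpM_injective e0))
      hg1 := RingHom.ext (AlgHom.congr_fun (SpM_injective e1))
      hl0 := isLoc_of_isPullback _ _ _ _ H0 hl0
      hl1 := isLoc_of_isPullback _ _ _ _ H1 hl1 }
  letI : Algebra L B0 := ((algebraMap (L ⊗[ℤ] A0) B0).comp (algebraMap L _)).toAlgebra
  letI : Algebra L B1 := ((algebraMap (L ⊗[ℤ] A1) B1).comp (algebraMap L _)).toAlgebra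
  letI : Algebra L B := ((algebraMap (L ⊗[ℤ] A) B).comp (algebraMap L _)).toAlgebra
  haveI : IsScalarTower L (L ⊗[ℤ] A0) B0 :=
    IsScalarTower.of_algebraMap_eq' (R := L) (S := L ⊗[ℤ] A0) (A := B0) rfl
  haveI : IsScalarTower L (L ⊗[ℤ] A1) B1 :=
    IsScalarTower.of_algebraMap_eq' (R := L) (S := L ⊗[ℤ] A1) (A := B1) rfl
  haveI : IsScalarTower L (L ⊗[ℤ] A) B :=
    IsScalarTower.of_algebraMap_eq' (R := L) (S := L ⊗[ℤ] A) (A := B) rfl
  obtain ⟨cd⟩ := exists_core c (Fact.out : p.Prime) n R hdom xb yb hx hy hs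
  exact iso_of_core hY.1 c xb yb cd w0 w1 ex ey hex hey α0 β0 α1 β1 α β hα0 hα1 hα hP0.1 hP1.1
    hP.1 γ0 hγα0 hγβ0 γ1 hγα1 hγβ1 g0 hg0.symm (fun _ => rfl) g1 hg1.symm (fun _ => rfl)

/-- the projection from the limit -/
def limProj {C : Type 1} [Category.{0} C] {I : Type w} [Category.{w'} I]
    (Γ : ProjSystem.{w, w', v} I C) (i : I) : Mor Γ.lim (Γ.obj i) where
  obj x := x.ξ i
  map φ := φ.φ i
  base_map φ := φ.base_φ i
  map_id _ := rfl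
  map_comp _ _ := rfl

theorem exists_chart_of_finite {Y : CatOver.{u} (Sch κ)} (hY : IsFiniteStack Y) {B : Type}
    [CommRing B] [Algebra κ B] [Module.Finite κ B] (u : Y.Obj (SpO κ B)) :
    ∃ ch : Chart (fun R : Sch κ => IsFinite R.hom) Y,
      ∀ {S : Sch κ} (x : Y.Obj S), Y.Hom x u → Nonempty (Y.Hom x ch.u) := by
  have hF := hY.1.fibered
  have fin : ∀ (E : Type) [CommRing E] [Algebra κ E] [Module.Finite κ E],
      IsFinite (SpO κ E).hom := fun E _ _ _ => by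
    rw [SpO_hom, IsFinite.SpecMap_iff]
    exact RingHom.finite_algebraMap.2 inferInstance
  obtain ⟨u1, l1, hl1⟩ := hF.exists_lift
    (SpM (Algebra.TensorProduct.includeLeft : B →ₐ[κ] B ⊗[κ] B)) u
  obtain ⟨u2, l2, hl2⟩ := hF.exists_lift
    (SpM (Algebra.TensorProduct.includeRight : B →ₐ[κ] B ⊗[κ] B)) u
  obtain ⟨E, _, _, _, _, r, a, b, hE, -, hI⟩ := exists_isom_alg hY u1 u2
  have : Module.Finite κ E := Module.Finite.trans (B ⊗[κ] B) E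
  refine ⟨⟨SpO κ B, SpO κ E, u, r, Y.comp a l1, Y.comp b l2, fin B, fin E, ?_⟩,
    fun x h => ⟨h⟩⟩
  intro T z s t
  obtain ⟨s', hs1, hs2⟩ := hF.exists_fill s l1 (tlift (Y.base s) (Y.base t))
    (by rw [hl1, tlift_fst])
  obtain ⟨t', ht1, ht2⟩ := hF.exists_fill t l2 (tlift (Y.base s) (Y.base t))
    (by rw [hl2, tlift_snd])
  obtain ⟨h, ⟨h1, h2⟩, hu⟩ := hI.2 s' t' (by rw [hs1, ht1])
  refine ⟨h, ⟨by rw [← Y.assoc, h1, hs2], by rw [← Y.assoc, h2, ht2]⟩, ?_⟩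
  rintro h' ⟨k1, k2⟩
  have e : Y.base (Y.comp h' a) = tlift (Y.base s) (Y.base t) := by
    apply tensor_ext
    · rw [tlift_fst, ← hl1, ← Y.base_comp, Y.assoc, k1]
    · rw [tlift_snd, ← hl2, Y.base_comp, hI.1, ← Y.base_comp, ← Y.base_comp, Y.assoc, k2]
  refine hu h' ⟨hF.ext l1 (by rw [e, hs1]) (by rw [Y.assoc, k1, hs2]),
    hF.ext l2 (by rw [ht1, ← e, Y.base_comp, Y.base_comp, hI.1]) (by rw [Y.assoc, k2, ht2])⟩

theorem neutral_of_curve {L : Type} [Field L] [Algebra κ L] (σ : L ≃ₐ[κ] L) (hfix : HFix σ)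
    (horb : HOrb σ) (p : ℕ) [Fact p.Prime] [CharP L p] {K : Set L} (R : RigData L K)
    (hK : ∀ l ∈ K, σ l ∈ K) {X : Sch κ} {A0 A1 A : Type} [CommRing A0] [CommRing A1]
    [CommRing A] (D : Two ℤ A0 A1 A)
    (P0 : ∀ (T : Type) [CommRing T] [Algebra κ T], (A0 →+* T) → (SpO κ T ⟶ X))
    (P1 : ∀ (T : Type) [CommRing T] [Algebra κ T], (A1 →+* T) → (SpO κ T ⟶ X))
    (n0 : ∀ (T T' : Type) [CommRing T] [Algebra κ T] [CommRing T'] [Algebra κ T']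
      (φ : T →ₐ[κ] T') (α : A0 →+* T), P0 T' (φ.toRingHom.comp α) = SpM φ ≫ P0 T α)
    (n1 : ∀ (T T' : Type) [CommRing T] [Algebra κ T] [CommRing T'] [Algebra κ T']
      (φ : T →ₐ[κ] T') (α : A1 →+* T), P1 T' (φ.toRingHom.comp α) = SpM φ ≫ P1 T α)
    (hov : ∀ (T : Type) [CommRing T] [Algebra κ T] (α : A →+* T),
      P0 T (α.comp D.f0.toRingHom) = P1 T (α.comp D.f1.toRingHom))
    (hdom : ∀ (F : Type) [Field F] [CharP F p], IsDomain (F ⊗[ℤ] A))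
    {B : Type} [CommRing B] [Module.Finite ℤ B] (α : A →+* B) (β : B →+* L) (hβ : ∀ b, β b ∈ K)
    {P : CatOver.{u} (Sch κ)} (hP : IsProfiniteGerbe.{w, w', u, v} P)
    (f : Mor (CatOver.rep X) P) : Nonempty (P.Obj (pt κ)) := by
  obtain ⟨-, I, _, Γ, hI, hΓ, e, -, he⟩ := hP
  let g : ∀ i, Mor (CatOver.rep X) (Γ.obj i) := fun i => (f.comp e).comp (limProj Γ i)
  let xb : A →+* L := β.comp α
  let yb : A →+* L := (σ ^ (1 : ℤ)).toAlgHom.toRingHom.comp xb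
  let iR : ∀ (A : Type) [CommRing A], A →+* L ⊗[ℤ] A := fun A _ =>
    (Algebra.TensorProduct.includeRight : A →ₐ[ℤ] L ⊗[ℤ] A).toRingHom
  let x : SpO κ L ⟶ X := P0 L (xb.comp D.f0.toRingHom)
  let y : SpO κ L ⟶ X := P0 L (yb.comp D.f0.toRingHom)
  let t : SpO κ (L ⊗[ℤ] A) ⟶ X := P0 _ ((iR A).comp D.f0.toRingHom)
  have hw0 : SpM (mapK κ L D.f0.toRingHom) ≫ P0 _ (iR A0) = t := by
    rw [← n0]
    congr 1
    ext a
    exact mapL_tmul _ _ _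
  have hw1 : SpM (mapK κ L D.f1.toRingHom) ≫ P1 _ (iR A1) = t := by
    rw [← n1]
    refine Eq.trans ?_ (hov _ (iR A)).symm
    congr 1
    ext a
    exact mapL_tmul _ _ _
  have hex : SpM (evL κ xb) ≫ t = x := by
    rw [← n0]
    congr 1
    ext a
    exact one_mul _
  have hey : SpM (evL κ yb) ≫ t = y := by
    rw [← n0]
    congr 1
    ext a
    exact one_mul _
  have hσ : SpM (σ ^ (1 : ℤ)).toAlgHom ≫ x = y := (n0 _ _ _ _).symm
  let iB : B →+* κ ⊗[ℤ] B := (Algebra.TensorProduct.includeRight : B →ₐ[ℤ] κ ⊗[ℤ] B).toRingHom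
  let u : SpO κ (κ ⊗[ℤ] B) ⟶ X := P0 _ ((iB.comp α).comp D.f0.toRingHom)
  let m : κ ⊗[ℤ] B →ₐ[κ] L := ⟨liftR (algebraMap κ L) β (RingHom.ext_int _ _), fun c => by
    simp [Algebra.TensorProduct.algebraMap_apply]⟩
  have hm : SpM m ≫ u = x := by
    rw [← n0]
    congr 1
    ext a
    change algebraMap κ L 1 * _ = _
    rw [map_one, one_mul]
    rfl
  choose ch hch using fun i => exists_chart_of_finite (hΓ i).1 ((g i).obj (S := SpO κ _) u)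
  obtain ⟨η⟩ := lim_neutral' (frobData σ hfix horb) Γ (fun i => (hΓ i).1.1) ch
    (e.obj (f.obj (S := SpO κ L) x))
    (fun i => hch i _ ((g i).map (x := x) (y := u) ⟨_, hm⟩)) (fun i => by
      obtain ⟨φ, hφ⟩ := claimA (hΓ i) p D R hdom xb yb (fun a => hβ _) (fun a => hK _ (hβ _))
        ((g i).map (x := t) (y := P0 _ (iR A0)) ⟨_, hw0⟩)
        ((g i).map (x := t) (y := P1 _ (iR A1)) ⟨_, hw1⟩) (Mor.base_map _ _) (Mor.base_map _ _)
        ((g i).map (x := x) (y := t) ⟨_, hex⟩) ((g i).map (x := y) (y := t) ⟨_, hey⟩)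
        (Mor.base_map _ _) (Mor.base_map _ _)
      refine ⟨(Γ.obj i).comp φ ((g i).map (x := y) (y := x) ⟨_, hσ⟩), ?_⟩
      rw [CatOver.base_comp, hφ, Mor.base_map]
      exact Category.id_comp _)
  obtain ⟨y, -⟩ := he (S := pt κ) η
  exact ⟨y⟩

end Pool.Agent.H191Z.Rig
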