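import Pool.Agent.H191Z.RTwo
import Pool.Agent.H647Z.TwoInt
import Pool.Agent.H948Z.RigHelp

set_option autoImplicit false
set_option backward.isDefEq.respectTransparency false
set_option linter.style.haveILetI false
set_option linter.unusedSectionVars false

open TensorProduct Polynomial

namespace Pool.Agent.H191Z.Rig

variable {L : Type} [Field L] (K2 : Type) [Field K2] [Algebra L K2]

section chart

variable (A E : Type) [CommRing A] [CommRing E]
  [Algebra (L ⊗[ℤ] A) E] [Algebra L E] [IsScalarTower L (L ⊗[ℤ] A) E]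

/-- the tautological point of the special fibre -/
noncomputable def phiK : E →ₐ[L ⊗[ℤ] A] TT K2 A E (algebraMap L K2) :=
  ⟨eIn K2 A E (algebraMap L K2), fun a => by
    have : (eIn K2 A E (algebraMap L K2)).comp (algebraMap (L ⊗[ℤ] A) E) =
        algebraMap (L ⊗[ℤ] A) _ := by
      apply tensor_ringHom_ext
      · intro l
        rw [RingHom.comp_apply, jj_tmul, algebraMap_tmul, map_mul, eIn_algebraMap]
        rfl
      · intro a
        rw [RingHom.comp_apply, jj_tmul, map_one, map_one, one_mul]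
    exact RingHom.congr_fun this a⟩

theorem phiK_apply (x : E) : phiK (L := L) K2 A E x = eIn K2 A E (algebraMap L K2) x := rfl

variable {A E} {W : Type} [CommRing W] [Algebra K2 W] (i : L →+* W)

theorem exists_special {N : Type} [CommRing N] (χ : TT K2 A E i →+* N)
    (h : ∀ l, χ (algebraMap W _ (i l)) =
      χ (algebraMap W _ (algebraMap K2 W (algebraMap L K2 l)))) :
    ∃ χ' : TT K2 A E (algebraMap L K2) →+* N,
      (∀ c, χ' (algebraMap K2 _ c) = χ (algebraMap W _ (algebraMap K2 W c))) ∧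
      (∀ x, χ' (eIn K2 A E _ x) = χ (eIn K2 A E i x)) ∧
      χ'.comp (algebraMap (L ⊗[ℤ] A) _) = χ.comp (algebraMap (L ⊗[ℤ] A) _) := by
  let χ' : TT K2 A E (algebraMap L K2) →+* N :=
    liftR (A := K2) (T := K2) (E := K2 ⊗[L] E)
      (χ.comp ((algebraMap W _).comp (algebraMap K2 W))) (χ.comp (sIn K2 A E i)) (by
        ext c
        exact congrArg χ (sIn_algebraMap K2 A E i c).symm)
  have h1 : ∀ c, χ' (algebraMap K2 _ c) = χ (algebraMap W _ (algebraMap K2 W c)) := by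
    intro c
    change χ _ * χ (sIn K2 A E i 1) = _
    rw [map_one, map_one, mul_one]
    rfl
  have h2 : ∀ x, χ' (eIn K2 A E _ x) = χ (eIn K2 A E i x) := by
    intro x
    change χ (algebraMap W _ (algebraMap K2 W 1)) * χ _ = _
    rw [map_one, map_one, map_one, one_mul]
    rfl
  refine ⟨χ', h1, h2, ?_⟩
  apply tensor_ringHom_ext <;> intro x <;>
    simp only [RingHom.comp_apply, jj_tmul, map_mul, h1, h2, h]

variable {O : Type} [CommRing O] [Algebra K2 O] (i1 : L →+* O) (res : O →ₐ[K2] K2)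
  (hres : ∀ l, res (i1 l) = algebraMap L K2 l)

theorem exists_factor {N : Type} [CommRing N] (q : TT K2 A E i1 ⊗[L ⊗[ℤ] A] E →+* N)
    (hq : ∀ o, res o = 0 → q (algebraMap O _ o ⊗ₜ 1) = 0) :
    ∃ σ : TT K2 A E (algebraMap L K2) ⊗[L ⊗[ℤ] A] E →+* N,
      σ.comp (ZZmap K2 i1 (algebraMap L K2) res comm_id hres) = q := by
  have hq' : ∀ o, q (algebraMap O _ o ⊗ₜ 1) =
      q (algebraMap O _ (algebraMap K2 O (res o)) ⊗ₜ 1) := by
    intro o
    rw [← sub_eq_zero, ← map_sub, ← sub_tmul, ← map_sub]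
    apply hq
    simp
  obtain ⟨χ', h1, h2, h3⟩ := exists_special K2 i1
    (q.comp Algebra.TensorProduct.includeLeftRingHom) (fun l => by
      rw [← hres]
      exact hq' _)
  refine ⟨liftR χ' (q.comp (Algebra.TensorProduct.includeRight :
    E →ₐ[L ⊗[ℤ] A] TT K2 A E i1 ⊗[L ⊗[ℤ] A] E).toRingHom) ?_, ?_⟩
  · rw [h3]
    refine RingHom.ext fun a => ?_
    exact congrArg q (Algebra.TensorProduct.tmul_one_eq_one_tmul a)
  · apply ZZ_ext
    · intro w
      rw [RingHom.comp_apply, ZZmap_tmul, liftR_tmul, TTmap_algebraMap, map_one, map_one, mul_one,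
        h1]
      exact (hq' w).symm
    · intro x
      rw [RingHom.comp_apply, ZZmap_tmul, liftR_tmul, TTmap_eIn, map_one, map_one, mul_one, h2]
      rfl
    · intro x
      rw [RingHom.comp_apply, ZZmap_tmul, liftR_tmul, map_one, map_one, one_mul]
      rfl

theorem ker_le (z : TT K2 A E i1 ⊗[L ⊗[ℤ] A] E)
    (hz : ZZmap K2 i1 (algebraMap L K2) res comm_id hres z = 0) :
    z ∈ (RingHom.ker res).map (algebraMap O (TT K2 A E i1 ⊗[L ⊗[ℤ] A] E)) := by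
  obtain ⟨σ, hσ⟩ := exists_factor K2 i1 res hres (Ideal.Quotient.mk
    ((RingHom.ker res).map (algebraMap O (TT K2 A E i1 ⊗[L ⊗[ℤ] A] E))))
    (fun o ho => Ideal.Quotient.eq_zero_iff_mem.2 (Ideal.mem_map_of_mem _ ho))
  rw [← Ideal.Quotient.eq_zero_iff_mem, ← hσ, RingHom.comp_apply, hz, map_zero]

theorem map_ker_le (z : TT K2 A E i1 ⊗[L ⊗[ℤ] A] E)
    (hz : z ∈ (RingHom.ker res).map (algebraMap O (TT K2 A E i1 ⊗[L ⊗[ℤ] A] E))) :
    ZZmap K2 i1 (algebraMap L K2) res comm_id hres z = 0 := by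
  have : (RingHom.ker res).map (algebraMap O (TT K2 A E i1 ⊗[L ⊗[ℤ] A] E)) ≤
      RingHom.ker (ZZmap K2 i1 (algebraMap L K2) res comm_id hres) := by
    rw [Ideal.map_le_iff_le_comap]
    intro o ho
    rw [Ideal.mem_comap, RingHom.mem_ker, ZZmap_algebraMap, (RingHom.mem_ker).1 ho, map_zero]
  exact this hz

theorem surj_special : Function.Surjective
    (ZZmap (A := A) (E := E) K2 i1 (algebraMap L K2) res comm_id hres) := by
  have h1 : Function.Surjective (TTmap (A := A) (E := E) K2 i1 (algebraMap L K2) res comm_id) := by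
    intro t
    refine ⟨TTmap K2 (algebraMap L K2) i1 (Algebra.ofId K2 O) comm_id t, ?_⟩
    have : (TTmap (A := A) (E := E) K2 i1 (algebraMap L K2) res comm_id).comp
        (TTmap K2 (algebraMap L K2) i1 (Algebra.ofId K2 O) comm_id) = RingHom.id _ := by
      apply TT_ext <;> intro x <;> simp
    exact RingHom.congr_fun this t
  intro z
  induction z using TensorProduct.induction_on with
  | zero => exact ⟨0, map_zero _⟩
  | add x y hx hy =>
    obtain ⟨a, rfl⟩ := hx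
    obtain ⟨b, rfl⟩ := hy
    exact ⟨a + b, map_add _ _ _⟩
  | tmul t x =>
    obtain ⟨a, rfl⟩ := h1 t
    exact ⟨a ⊗ₜ x, ZZmap_tmul _ _ _ _ _ _ _ _⟩

variable {V : Type} [CommRing V] [IsLocalRing V] [Algebra K2 V] (ov : O →ₐ[K2] V)
  (hov : ∀ o, res o = 0 → ov o ∈ IsLocalRing.maximalIdeal V)

include hov in
theorem chart_section [IsAlgClosed K2] [Algebra.Etale (L ⊗[ℤ] A) E] [Module.Finite (L ⊗[ℤ] A) E]
    [Algebra.FiniteType K2 (K2 ⊗[L] E)] (c : TT K2 A E i1 ⊗[L ⊗[ℤ] A] E) (f : O[X])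
    (hf : aeval c f = 0)
    (hc : IsDiag (phiK K2 A E) (ZZmap K2 i1 (algebraMap L K2) res comm_id hres c)) (h : V[X])
    (h1 : ∀ (M : Type) [CommRing M] [Algebra V M] (c : M), aeval c (f.map ov.toRingHom) = 0 →
      IsIdempotentElem (aeval c h))
    (h2 : ∀ (N : Type) [CommRing N] [Algebra V N] (δ : N), IsIdempotentElem δ →
      aeval δ (f.map ov.toRingHom) = 0 → aeval δ h = δ) :
    ∃ ψ : E →ₐ[L ⊗[ℤ] A] TT K2 A E (ov.toRingHom.comp i1), IsDiag ψ
      (aeval (ZZmap K2 i1 (ov.toRingHom.comp i1) ov comm_id (fun _ => rfl) c) h) := by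
  have hcV : aeval (ZZmap K2 i1 (ov.toRingHom.comp i1) ov comm_id (fun _ => rfl) c)
      (f.map ov.toRingHom) = 0 := by
    rw [← map_aeval_eq_aeval_map, hf, map_zero]
    ext o
    exact (ZZmap_algebraMap K2 i1 _ ov comm_id (fun _ => rfl) o).symm
  refine exists_section _ (h1 _ _ hcV)
    (algebraMap V (TT K2 A E (ov.toRingHom.comp i1)) '' IsLocalRing.maximalIdeal V) ?_ ?_
  · intro Z _ a1 a2 a3 H
    refine @Pool.Agent.H948Z.RigHelp.bijective_of_special_fibre K2 V (K2 ⊗[L] E) Z _ _ _ _ _ _ _ _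
      _ a1 a2 a3 ?_
    intro F _ a4 hF
    refine @H F _ a4 ?_
    rintro _ ⟨x, hx, rfl⟩
    exact hF x hx
  · intro F _ _ _ _ hP
    have hP' : ∀ o, algebraMap _ F (algebraMap V (TT K2 A E (ov.toRingHom.comp i1)) (ov o)) =
        algebraMap _ F (algebraMap V (TT K2 A E (ov.toRingHom.comp i1))
          (algebraMap K2 V (res o))) := by
      intro o
      rw [← sub_eq_zero, ← map_sub, ← map_sub]
      refine hP _ ⟨_, ?_, rfl⟩
      rw [← ov.commutes, ← map_sub]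
      apply hov
      simp
    obtain ⟨χ', k1, k2, k3⟩ := exists_special K2 (ov.toRingHom.comp i1) (algebraMap _ F)
      (fun l => by rw [← hres]; exact hP' _)
    have k4 : χ'.comp (algebraMap (L ⊗[ℤ] A) _) =
        (algebraMap (L ⊗[ℤ] A) F).comp (RingHom.id _) := by
      rw [k3, ← IsScalarTower.algebraMap_eq]
      rfl
    let φ : E →ₐ[L ⊗[ℤ] A] F := ⟨χ'.comp (phiK K2 A E).toRingHom, fun a => by
      change χ' (phiK K2 A E (algebraMap _ _ a)) = _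
      rw [AlgHom.commutes]
      exact RingHom.congr_fun k4 a⟩
    refine ⟨φ, ?_⟩
    have hd := IsDiag.map (fA := RingHom.id _) (fF := χ') (fE := RingHom.id E) k4 rfl
      (a := 1) (by rw [map_one]; exact IsLoc.id E) (φ := φ) (fun _ => rfl) hc
    let m : TT K2 A E (ov.toRingHom.comp i1) ⊗[L ⊗[ℤ] A] E →+* F ⊗[L ⊗[ℤ] A] E := mapT F
    have hm : (Algebra.TensorProduct.mapRingHom (RingHom.id _) χ' (RingHom.id E) k4 rfl).comp
        (ZZmap K2 i1 (algebraMap L K2) res comm_id hres) =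
        m.comp (ZZmap K2 i1 (ov.toRingHom.comp i1) ov comm_id (fun _ => rfl)) := by
      apply ZZ_ext (N := F ⊗[L ⊗[ℤ] A] E) K2 i1
      · intro w
        simp only [RingHom.comp_apply, ZZmap_tmul, TTmap_algebraMap,
          Algebra.TensorProduct.mapRingHom_tmul, k1, ← hP']
        rfl
      · intro x
        simp only [RingHom.comp_apply, ZZmap_tmul, TTmap_eIn,
          Algebra.TensorProduct.mapRingHom_tmul, k2]
        rfl
      · intro x
        simp only [RingHom.comp_apply, ZZmap_tmul, Algebra.TensorProduct.mapRingHom_tmul, map_one]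
        rw [mapT_tmul, map_one]
        rfl
    have hm' := RingHom.congr_fun hm c
    rw [RingHom.comp_apply] at hm'
    rw [hm'] at hd
    letI : Algebra V (F ⊗[L ⊗[ℤ] A] E) := (m.comp (algebraMap V _)).toAlgebra
    have e1 : ∀ (g : V[X]) (z : TT K2 A E (ov.toRingHom.comp i1) ⊗[L ⊗[ℤ] A] E),
        m (aeval z g) = aeval (m z) g := by
      intro g z
      rw [map_aeval_eq_aeval_map (φ := RingHom.id V) (ψ := m) rfl, Polynomial.map_id]
    have e2 := h2 (F ⊗[L ⊗[ℤ] A] E) _ hd.idem (by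
      rw [RingHom.comp_apply, ← e1, hcV, map_zero])
    change IsDiag φ (m _)
    rw [e1]
    rw [RingHom.comp_apply] at e2 hd
    rwa [e2]

end chart

/-- the `p ^ n`-th power map -/
def frobq {R : Type} [CommRing R] {p : ℕ} (hp : p.Prime) (h : (p : R) = 0) (n : ℕ) : R →+* R where
  toFun x := x ^ p ^ n
  map_one' := one_pow _
  map_mul' x y := mul_pow x y _
  map_zero' := zero_pow (pow_ne_zero n hp.ne_zero)
  map_add' x y := by
    obtain ⟨r, hr⟩ := exists_add_pow_prime_pow_eq hp x y n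
    rw [hr, h]
    ring

theorem frobq_apply {R : Type} [CommRing R] {p : ℕ} (hp : p.Prime) (h : (p : R) = 0) (n : ℕ)
    (x : R) : frobq hp h n x = x ^ p ^ n := rfl

theorem ZZmap_comm {A E A' E' : Type} [CommRing A] [CommRing E]
    [Algebra (L ⊗[ℤ] A) E] [Algebra L E] [IsScalarTower L (L ⊗[ℤ] A) E]
    [CommRing A'] [CommRing E'] [Algebra (L ⊗[ℤ] A') E'] [Algebra L E']
    [IsScalarTower L (L ⊗[ℤ] A') E'] {W W' : Type} [CommRing W] [Algebra K2 W] [CommRing W']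
    [Algebra K2 W'] (i : L →+* W) (i' : L →+* W') (ρ : W →ₐ[K2] W') {fA : A →+* A'} {g : E →+* E'}
    (hg : g.comp (algebraMap (L ⊗[ℤ] A) E) = (algebraMap (L ⊗[ℤ] A') E').comp (mapL L fA))
    (hρ : ∀ l, ρ (i l) = i' l) (z : TT K2 A E i ⊗[L ⊗[ℤ] A] E) :
    ZZmap K2 i i' ρ comm_id hρ (ZZmap K2 i i (AlgHom.id K2 W) hg (fun _ => rfl) z) =
      ZZmap K2 i' i' (AlgHom.id K2 W') hg (fun _ => rfl) (ZZmap K2 i i' ρ comm_id hρ z) := by
  have : (ZZmap K2 i i' ρ comm_id hρ).comp (ZZmap K2 i i (AlgHom.id K2 W) hg (fun _ => rfl)) =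
      (ZZmap K2 i' i' (AlgHom.id K2 W') hg (fun _ => rfl)).comp (ZZmap K2 i i' ρ comm_id hρ) := by
    apply ZZ_ext (N := TT K2 A' E' i' ⊗[L ⊗[ℤ] A'] E') K2 i <;> intro x <;>
      simp only [RingHom.comp_apply, ZZmap_tmul, TTmap_algebraMap, TTmap_eIn, map_one,
        AlgHom.id_apply, RingHom.id_apply]
  exact RingHom.congr_fun this z

variable {A0 A1 A E0 E1 E : Type} [CommRing A0] [CommRing A1] [CommRing A] [CommRing E0]
  [CommRing E1] [CommRing E]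
  [Algebra (L ⊗[ℤ] A0) E0] [Algebra L E0] [IsScalarTower L (L ⊗[ℤ] A0) E0]
  [Algebra (L ⊗[ℤ] A1) E1] [Algebra L E1] [IsScalarTower L (L ⊗[ℤ] A1) E1]
  [Algebra (L ⊗[ℤ] A) E] [Algebra L E] [IsScalarTower L (L ⊗[ℤ] A) E]
  [Module.Finite (L ⊗[ℤ] A0) E0] [Module.Finite (L ⊗[ℤ] A1) E1] [Module.Finite (L ⊗[ℤ] A) E]
  [Algebra.Etale (L ⊗[ℤ] A0) E0] [Algebra.Etale (L ⊗[ℤ] A1) E1] [Algebra.Etale (L ⊗[ℤ] A) E]
  {D : Two ℤ A0 A1 A} (c : Cov L D E0 E1 E)
  {O : Type} [CommRing O] [Algebra K2 O] (i1 : L →+* O) (res : O →ₐ[K2] K2)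
  (hres : ∀ l, res (i1 l) = algebraMap L K2 l)

theorem exists_approx [IsNoetherianRing O] {p : ℕ} (hp : p.Prime) (hL : (p : L) = 0) :
    ∃ (c0 : TT K2 A0 E0 i1 ⊗[L ⊗[ℤ] A0] E0) (c1 : TT K2 A1 E1 i1 ⊗[L ⊗[ℤ] A1] E1),
      (c.twoZ K2 i1).f0 c0 = (c.twoZ K2 i1).f1 c1 ∧
      IsDiag (phiK K2 A0 E0) (ZZmap K2 i1 (algebraMap L K2) res comm_id hres c0) ∧
      IsDiag (phiK K2 A1 E1) (ZZmap K2 i1 (algebraMap L K2) res comm_id hres c1) := by
  obtain ⟨N, hN⟩ := Pool.Agent.H647Z.TwoInt.Two.exists_lift (c.twoZ K2 i1) (RingHom.ker res)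
  obtain ⟨δ0, hδ0⟩ := exists_isDiag (phiK (L := L) K2 A0 E0)
  obtain ⟨δ1, hδ1⟩ := exists_isDiag (phiK (L := L) K2 A1 E1)
  obtain ⟨a0, rfl⟩ := surj_special K2 i1 res hres δ0
  obtain ⟨a1, rfl⟩ := surj_special K2 i1 res hres δ1
  have k0 := IsDiag.map (TTmap_jj K2 _ _ (AlgHom.id K2 K2) c.hg0 (fun _ => rfl)) c.hg0 c.hl0
    (φ0 := phiK K2 A0 E0) (φ := phiK K2 A E) (fun x => (TTmap_eIn K2 _ _ _ c.hg0 x).symm) hδ0
  have k1 := IsDiag.map (TTmap_jj K2 _ _ (AlgHom.id K2 K2) c.hg1 (fun _ => rfl)) c.hg1 c.hl1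
    (φ0 := phiK K2 A1 E1) (φ := phiK K2 A E) (fun x => (TTmap_eIn K2 _ _ _ c.hg1 x).symm) hδ1
  have k2 : (c.twoZ K2 i1).f0 a0 - (c.twoZ K2 i1).f1 a1 ∈ (RingHom.ker res).map (algebraMap O _) := by
    apply ker_le K2 i1 res hres
    rw [map_sub, c.twoZ_f0 K2, c.twoZ_f1 K2, ZZmap_comm, ZZmap_comm, sub_eq_zero]
    exact k0.unique k1
  have hZ : (p : TT K2 A E i1 ⊗[L ⊗[ℤ] A] E) = 0 := by
    rw [← map_natCast ((algebraMap O (TT K2 A E i1 ⊗[L ⊗[ℤ] A] E)).comp i1), hL, map_zero]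
  obtain ⟨c0, c1, h01, h0, h1⟩ := hN (a0 ^ p ^ N) (a1 ^ p ^ N) (by
    rw [map_pow, map_pow, ← frobq_apply hp hZ, ← frobq_apply hp hZ, ← map_sub, frobq_apply,
      Ideal.map_pow]
    exact Ideal.pow_le_pow_right (Nat.lt_pow_self hp.one_lt).le (Ideal.pow_mem_pow k2 _))
  have hpos : p ^ N ≠ 0 := pow_ne_zero N hp.ne_zero
  refine ⟨c0, c1, h01, ?_, ?_⟩
  · have := map_ker_le K2 i1 res hres _ h0
    rw [map_sub, sub_eq_zero, map_pow, hδ0.idem.pow_eq hpos] at this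
    rwa [this]
  · have := map_ker_le K2 i1 res hres _ h1
    rw [map_sub, sub_eq_zero, map_pow, hδ1.idem.pow_eq hpos] at this
    rwa [this]

include hres in
/-- rigidity of finite etale covers -/
theorem rigidity [IsAlgClosed K2] [IsNoetherianRing O] {p : ℕ} (hp : p.Prime) (hL : (p : L) = 0)
    {Ω : Type} [Field Ω] [IsAlgClosed Ω] (V : ValuationSubring Ω) [Algebra K2 V]
    (ov : O →ₐ[K2] V) (hov : ∀ o, res o = 0 → ov o ∈ IsLocalRing.maximalIdeal V) :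
    ∃ (ψ0 : E0 →ₐ[L ⊗[ℤ] A0] TT K2 A0 E0 (ov.toRingHom.comp i1))
      (ψ1 : E1 →ₐ[L ⊗[ℤ] A1] TT K2 A1 E1 (ov.toRingHom.comp i1))
      (ψ : E →ₐ[L ⊗[ℤ] A] TT K2 A E (ov.toRingHom.comp i1)),
      (∀ x, ψ (c.g0 x) = TTmap K2 _ _ (AlgHom.id K2 V) c.hg0 (ψ0 x)) ∧
      (∀ x, ψ (c.g1 x) = TTmap K2 _ _ (AlgHom.id K2 V) c.hg1 (ψ1 x)) := by
  obtain ⟨c0, c1, h01, h0, h1⟩ := exists_approx K2 c i1 res hres hp hL
  obtain ⟨⟨f0, hm0, hf0⟩, ⟨f1, hm1, hf1⟩⟩ :=
    Pool.Agent.H647Z.TwoInt.Two.isIntegral (c.twoZ K2 i1) c0 c1 h01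
  have e0 : aeval c0 (f0 * f1) = 0 := by rw [map_mul, aeval_def, hf0, zero_mul]
  have e1 : aeval c1 (f0 * f1) = 0 := by rw [map_mul, aeval_def c1 f1, hf1, mul_zero]
  have e2 : aeval ((c.twoZ K2 i1).f0 c0) (f0 * f1) = 0 := by
    rw [aeval_algHom_apply, e0, map_zero]
  obtain ⟨h, k1, k2⟩ := Pool.Agent.H948Z.RigHelp.exists_idem_poly Ω V
    ((f0 * f1).map ov.toRingHom) ((hm0.mul hm1).map _)
  have ft0 := finiteType_of_aeval (c.twoS K2).fin0
  have ft1 := finiteType_of_aeval (c.twoS K2).fin1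
  have ft := (c.twoS K2).finiteType
  have h2 : IsDiag (phiK K2 A E)
      (ZZmap K2 i1 (algebraMap L K2) res comm_id hres ((c.twoZ K2 i1).f0 c0)) := by
    rw [c.twoZ_f0 K2, ZZmap_comm]
    exact IsDiag.map (TTmap_jj K2 _ _ (AlgHom.id K2 K2) c.hg0 (fun _ => rfl)) c.hg0 c.hl0
      (φ0 := phiK K2 A0 E0) (φ := phiK K2 A E) (fun x => (TTmap_eIn K2 _ _ _ c.hg0 x).symm) h0
  obtain ⟨ψ0, hψ0⟩ := chart_section K2 i1 res hres ov hov c0 _ e0 h0 h k1 k2
  obtain ⟨ψ1, hψ1⟩ := chart_section K2 i1 res hres ov hov c1 _ e1 h1 h k1 k2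
  obtain ⟨ψ, hψ⟩ := chart_section K2 i1 res hres ov hov _ _ e2 h2 h k1 k2
  refine ⟨ψ0, ψ1, ψ, ?_, ?_⟩
  · refine IsDiag.compat (TTmap_jj K2 _ _ (AlgHom.id K2 V) c.hg0 (fun _ => rfl)) c.hg0 hψ0 ?_
    rw [c.twoZ_f0 K2, ZZmap_comm, ← c.twoZ_f0 K2, aeval_algHom_apply] at hψ
    exact hψ
  · refine IsDiag.compat (TTmap_jj K2 _ _ (AlgHom.id K2 V) c.hg1 (fun _ => rfl)) c.hg1 hψ1 ?_
    rw [h01, c.twoZ_f1 K2, ZZmap_comm, ← c.twoZ_f1 K2, aeval_algHom_apply] at hψ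
    exact hψ

end Pool.Agent.H191Z.Rig
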