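import Pool.Agent.H191Z.RDiag

set_option autoImplicit false
set_option linter.style.haveILetI false
set_option linter.unusedSectionVars false

open TensorProduct Polynomial

namespace Pool.Agent.H191Z.Rig

variable {L : Type} [Field L]

/-- base change of a ring map to `L` -/
noncomputable def mapL (L : Type) [Field L] {A A' : Type} [CommRing A] [CommRing A']
    (f : A →+* A') : L ⊗[ℤ] A →+* L ⊗[ℤ] A' :=
  Algebra.TensorProduct.mapRingHom (RingHom.id ℤ) (RingHom.id L) f (RingHom.ext_int _ _)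
    (RingHom.ext_int _ _)

@[simp] theorem mapL_tmul {A A' : Type} [CommRing A] [CommRing A'] (f : A →+* A') (l : L) (a : A) :
    mapL L f (l ⊗ₜ a) = l ⊗ₜ f a := by simp [mapL]

theorem mapL_id {A : Type} [CommRing A] : mapL L (RingHom.id A) = RingHom.id _ := by
  apply tensor_ringHom_ext (N := L ⊗[ℤ] A) <;> intro x <;> simp

section TT

variable (K2 : Type) [Field K2] [Algebra L K2] (A E : Type) [CommRing A] [CommRing E]
  [Algebra (L ⊗[ℤ] A) E] [Algebra L E] [IsScalarTower L (L ⊗[ℤ] A) E]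
  {W : Type} [CommRing W] [Algebra K2 W]

/-- the constant family -/
def TT (_A : Type) (E : Type) [CommRing E] [Algebra L E] (_i : L →+* W) : Type :=
  W ⊗[K2] (K2 ⊗[L] E)

variable (i : L →+* W)

noncomputable instance : CommRing (TT K2 A E i) :=
  (inferInstance : CommRing (W ⊗[K2] (K2 ⊗[L] E)))

noncomputable instance : Algebra W (TT K2 A E i) :=
  (inferInstance : Algebra W (W ⊗[K2] (K2 ⊗[L] E)))

/-- the special fibre maps to the family -/
noncomputable def sIn : K2 ⊗[L] E →+* TT K2 A E i :=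
  (Algebra.TensorProduct.includeRight : K2 ⊗[L] E →ₐ[K2] W ⊗[K2] (K2 ⊗[L] E)).toRingHom

/-- the constant map -/
noncomputable def eIn : E →+* TT K2 A E i :=
  (sIn K2 A E i).comp (Algebra.TensorProduct.includeRight : E →ₐ[L] K2 ⊗[L] E).toRingHom

/-- the twisted structure map -/
noncomputable def jj : L ⊗[ℤ] A →+* TT K2 A E i :=
  liftR ((algebraMap W (TT K2 A E i)).comp i)
    ((eIn K2 A E i).comp ((algebraMap (L ⊗[ℤ] A) E).comp
      (Algebra.TensorProduct.includeRight : A →ₐ[ℤ] L ⊗[ℤ] A).toRingHom)) (RingHom.ext_int _ _)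

noncomputable instance : Algebra (L ⊗[ℤ] A) (TT K2 A E i) := (jj K2 A E i).toAlgebra

instance : SMulCommClass (L ⊗[ℤ] A) W (TT K2 A E i) :=
  ⟨fun a b c => by simp only [Algebra.smul_def, mul_left_comm]⟩

theorem jj_tmul (l : L) (a : A) : algebraMap (L ⊗[ℤ] A) (TT K2 A E i) (l ⊗ₜ a) =
    algebraMap W (TT K2 A E i) (i l) * eIn K2 A E i (algebraMap (L ⊗[ℤ] A) E (1 ⊗ₜ a)) := rfl

theorem sIn_algebraMap (c : K2) : sIn K2 A E i (c ⊗ₜ 1) =
    algebraMap W (TT K2 A E i) (algebraMap K2 W c) := by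
  change (1 : W) ⊗ₜ[K2] (algebraMap K2 (K2 ⊗[L] E) c) = (algebraMap K2 W c) ⊗ₜ[K2] 1
  rw [Algebra.TensorProduct.tmul_one_eq_one_tmul]

theorem eIn_algebraMap (l : L) : eIn K2 A E i (algebraMap L E l) =
    algebraMap W (TT K2 A E i) (algebraMap K2 W (algebraMap L K2 l)) := by
  rw [← sIn_algebraMap]
  change sIn K2 A E i (1 ⊗ₜ algebraMap L E l) = _
  rw [Algebra.TensorProduct.tmul_one_eq_one_tmul]

theorem algebraMap_tmul (l : L) (a : A) : algebraMap (L ⊗[ℤ] A) E (l ⊗ₜ a) =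
    algebraMap L E l * algebraMap (L ⊗[ℤ] A) E (1 ⊗ₜ a) := by
  rw [IsScalarTower.algebraMap_apply L (L ⊗[ℤ] A) E, ← map_mul]
  simp

variable {K2 A E i}

theorem TT_ext {N : Type} [CommRing N] {f g : TT K2 A E i →+* N}
    (h1 : ∀ w : W, f (algebraMap W _ w) = g (algebraMap W _ w))
    (h2 : ∀ x : E, f (eIn K2 A E i x) = g (eIn K2 A E i x)) : f = g := by
  refine tensor_ringHom_ext (A := K2) (T := W) (E := K2 ⊗[L] E) h1 ?_
  have : f.comp (sIn K2 A E i) = g.comp (sIn K2 A E i) := by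
    refine tensor_ringHom_ext (fun c => ?_) h2
    simp only [RingHom.comp_apply, sIn_algebraMap, h1]
  exact fun s => RingHom.congr_fun this s

end TT

section maps

variable (K2 : Type) [Field K2] [Algebra L K2] {A E A' E' : Type} [CommRing A] [CommRing E]
  [Algebra (L ⊗[ℤ] A) E] [Algebra L E] [IsScalarTower L (L ⊗[ℤ] A) E]
  [CommRing A'] [CommRing E'] [Algebra (L ⊗[ℤ] A') E'] [Algebra L E']
  [IsScalarTower L (L ⊗[ℤ] A') E']
  {W W' : Type} [CommRing W] [Algebra K2 W] [CommRing W'] [Algebra K2 W']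

theorem lin_of_comm {fA : A →+* A'} {g : E →+* E'}
    (hg : g.comp (algebraMap (L ⊗[ℤ] A) E) = (algebraMap (L ⊗[ℤ] A') E').comp (mapL L fA)) :
    g.comp (algebraMap L E) = (algebraMap L E').comp (RingHom.id L) := by
  ext l
  have := RingHom.congr_fun hg (l ⊗ₜ 1)
  simp only [RingHom.comp_apply, mapL_tmul, map_one] at this
  rw [RingHom.comp_apply, RingHom.comp_apply, IsScalarTower.algebraMap_apply L (L ⊗[ℤ] A) E,
    IsScalarTower.algebraMap_apply L (L ⊗[ℤ] A') E']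
  exact this

/-- the map on special fibres -/
noncomputable def SSmap {fA : A →+* A'} {g : E →+* E'}
    (hg : g.comp (algebraMap (L ⊗[ℤ] A) E) = (algebraMap (L ⊗[ℤ] A') E').comp (mapL L fA)) :
    K2 ⊗[L] E →ₐ[K2] K2 ⊗[L] E' :=
  Algebra.TensorProduct.map (AlgHom.id K2 K2)
    (⟨g, fun l => RingHom.congr_fun (lin_of_comm hg) l⟩ : E →ₐ[L] E')

@[simp] theorem SSmap_tmul {fA : A →+* A'} {g : E →+* E'}
    (hg : g.comp (algebraMap (L ⊗[ℤ] A) E) = (algebraMap (L ⊗[ℤ] A') E').comp (mapL L fA))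
    (c : K2) (x : E) : SSmap K2 hg (c ⊗ₜ x) = c ⊗ₜ g x := rfl

/-- the map on families -/
noncomputable def TTmap (i : L →+* W) (i' : L →+* W') (ρ : W →ₐ[K2] W') {fA : A →+* A'}
    {g : E →+* E'}
    (hg : g.comp (algebraMap (L ⊗[ℤ] A) E) = (algebraMap (L ⊗[ℤ] A') E').comp (mapL L fA)) :
    TT K2 A E i →+* TT K2 A' E' i' :=
  (Algebra.TensorProduct.map ρ (SSmap K2 hg)).toRingHom

variable (i : L →+* W) (i' : L →+* W') (ρ : W →ₐ[K2] W') {fA : A →+* A'} {g : E →+* E'}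
  (hg : g.comp (algebraMap (L ⊗[ℤ] A) E) = (algebraMap (L ⊗[ℤ] A') E').comp (mapL L fA))

@[simp] theorem TTmap_algebraMap (w : W) :
    TTmap K2 i i' ρ hg (algebraMap W _ w) = algebraMap W' _ (ρ w) := by
  change Algebra.TensorProduct.map ρ (SSmap K2 hg) (w ⊗ₜ 1) = ρ w ⊗ₜ 1
  simp

@[simp] theorem TTmap_sIn (s : K2 ⊗[L] E) :
    TTmap K2 i i' ρ hg (sIn K2 A E i s) = sIn K2 A' E' i' (SSmap K2 hg s) := by
  change Algebra.TensorProduct.map ρ (SSmap K2 hg) (1 ⊗ₜ s) = 1 ⊗ₜ _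
  simp

@[simp] theorem TTmap_eIn (x : E) :
    TTmap K2 i i' ρ hg (eIn K2 A E i x) = eIn K2 A' E' i' (g x) :=
  TTmap_sIn K2 i i' ρ hg _

theorem TTmap_jj (hρ : ∀ l, ρ (i l) = i' l) :
    (TTmap K2 i i' ρ hg).comp (algebraMap (L ⊗[ℤ] A) _) =
      (algebraMap (L ⊗[ℤ] A') _).comp (mapL L fA) := by
  have hg' : ∀ a, g (algebraMap (L ⊗[ℤ] A) E (1 ⊗ₜ a)) = algebraMap (L ⊗[ℤ] A') E' (1 ⊗ₜ fA a) :=
    fun a => by simpa using RingHom.congr_fun hg (1 ⊗ₜ a)
  apply tensor_ringHom_ext <;> intro x <;>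
    simp only [RingHom.comp_apply, mapL_tmul, jj_tmul, map_mul, TTmap_algebraMap, TTmap_eIn, hρ,
      hg']

/-- the map on the fibre products -/
noncomputable def ZZmap (hρ : ∀ l, ρ (i l) = i' l) :
    TT K2 A E i ⊗[L ⊗[ℤ] A] E →+* TT K2 A' E' i' ⊗[L ⊗[ℤ] A'] E' :=
  Algebra.TensorProduct.mapRingHom (mapL L fA) (TTmap K2 i i' ρ hg) g
    (TTmap_jj K2 i i' ρ hg hρ) hg

@[simp] theorem ZZmap_tmul (hρ : ∀ l, ρ (i l) = i' l) (t : TT K2 A E i) (x : E) :
    ZZmap K2 i i' ρ hg hρ (t ⊗ₜ x) = TTmap K2 i i' ρ hg t ⊗ₜ g x :=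
  Algebra.TensorProduct.mapRingHom_tmul _ _ _ _ _ _ _

theorem ZZmap_algebraMap (hρ : ∀ l, ρ (i l) = i' l) (w : W) :
    ZZmap K2 i i' ρ hg hρ (algebraMap W _ w) = algebraMap W' _ (ρ w) := by
  simp [Algebra.TensorProduct.algebraMap_apply]

theorem ZZ_ext {N : Type} [CommRing N] {f f' : TT K2 A E i ⊗[L ⊗[ℤ] A] E →+* N}
    (h1 : ∀ w : W, f (algebraMap W _ w ⊗ₜ 1) = f' (algebraMap W _ w ⊗ₜ 1))
    (h2 : ∀ x : E, f (eIn K2 A E i x ⊗ₜ 1) = f' (eIn K2 A E i x ⊗ₜ 1))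
    (h3 : ∀ x : E, f (1 ⊗ₜ x) = f' (1 ⊗ₜ x)) : f = f' := by
  refine tensor_ringHom_ext ?_ h3
  have : f.comp Algebra.TensorProduct.includeLeftRingHom =
      f'.comp Algebra.TensorProduct.includeLeftRingHom := TT_ext h1 h2
  exact fun t => RingHom.congr_fun this t

theorem comm_id : (RingHom.id E).comp (algebraMap (L ⊗[ℤ] A) E) =
    (algebraMap (L ⊗[ℤ] A) E).comp (mapL L (RingHom.id A)) := by
  rw [mapL_id]
  rfl

end maps

end Pool.Agent.H191Z.Rig
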