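import Pool.Agent.H191Z.RTT

set_option autoImplicit false
set_option linter.style.haveILetI false
set_option linter.unusedSectionVars false

open TensorProduct Polynomial

namespace Pool.Agent.H191Z.Rig

section

variable {R M0 M1 M : Type} [CommRing R] [CommRing M0] [CommRing M1] [CommRing M]
  [Algebra R M0] [Algebra R M1] [Algebra R M]

theorem tmul_sq {A T E : Type} [CommRing A] [CommRing T] [CommRing E] [Algebra A T] [Algebra A E]
    (a : A) : algebraMap A T a ⊗ₜ[A] algebraMap A E a =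
      (algebraMap T (T ⊗[A] E) (algebraMap A T a)) ^ 2 := by
  rw [pow_two, Algebra.TensorProduct.algebraMap_apply, Algebra.algebraMap_self_apply]
  nth_rewrite 2 [Algebra.TensorProduct.tmul_one_eq_one_tmul]
  rw [Algebra.TensorProduct.tmul_mul_tmul, mul_one, one_mul]

theorem isLoc_baseChange (R' : Type) [CommRing R'] [Algebra R R'] (f : M0 →ₐ[R] M) {u : M0}
    (h : IsLoc f.toRingHom u) :
    IsLoc (Algebra.TensorProduct.map (AlgHom.id R' R') f).toRingHom (1 ⊗ₜ u) := by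
  have := IsLoc.tensor (fA := RingHom.id R) (fT := RingHom.id R') (fE := f.toRingHom) rfl
    (by ext x; simp) (IsLoc.id R) (IsLoc.id R') h
  convert this using 1
  apply tensor_ringHom_ext (N := R' ⊗[R] M) <;> intro x <;> simp

/-- base change -/
noncomputable def Two.baseChange (D : Two R M0 M1 M) (R' : Type) [CommRing R'] [Algebra R R'] :
    Two R' (R' ⊗[R] M0) (R' ⊗[R] M1) (R' ⊗[R] M) where
  f0 := Algebra.TensorProduct.map (AlgHom.id R' R') D.f0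
  f1 := Algebra.TensorProduct.map (AlgHom.id R' R') D.f1
  u := 1 ⊗ₜ D.u
  v := 1 ⊗ₜ D.v
  huv := by simp [D.huv, Algebra.TensorProduct.one_def]
  loc0 := isLoc_baseChange R' D.f0 D.loc0
  loc1 := isLoc_baseChange R' D.f1 D.loc1
  fin0 := finite_aeval_baseChange R' D.fin0
  fin1 := finite_aeval_baseChange R' D.fin1

/-- finite extension -/
noncomputable def Two.extend (D : Two R M0 M1 M) {E0 E1 E : Type} [CommRing E0] [CommRing E1]
    [CommRing E] [Algebra R E0] [Algebra R E1] [Algebra R E] [Algebra M0 E0] [Algebra M1 E1]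
    [Algebra M E] [IsScalarTower R M0 E0] [IsScalarTower R M1 E1] [Module.Finite M0 E0]
    [Module.Finite M1 E1] (g0 : E0 →ₐ[R] E) (g1 : E1 →ₐ[R] E)
    (hg0 : ∀ a, g0 (algebraMap M0 E0 a) = algebraMap M E (D.f0 a))
    (hg1 : ∀ a, g1 (algebraMap M1 E1 a) = algebraMap M E (D.f1 a))
    (hl0 : IsLoc g0.toRingHom (algebraMap M0 E0 D.u))
    (hl1 : IsLoc g1.toRingHom (algebraMap M1 E1 D.v)) : Two R E0 E1 E where
  f0 := g0
  f1 := g1
  u := algebraMap M0 E0 D.u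
  v := algebraMap M1 E1 D.v
  huv := by rw [hg0, hg1, ← map_mul, D.huv, map_one]
  loc0 := hl0
  loc1 := hl1
  fin0 := finite_aeval_comp D.fin0
  fin1 := finite_aeval_comp D.fin1

theorem finiteType_of_aeval {u : M0} (h : (aeval u : R[X] →ₐ[R] M0).Finite) :
    Algebra.FiniteType R M0 := by
  have h1 : (algebraMap R R[X]).FiniteType := RingHom.finiteType_algebraMap.2 inferInstance
  have h2 := (RingHom.Finite.finiteType h).comp h1
  rw [← RingHom.finiteType_algebraMap]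
  convert h2 using 1
  ext x
  simp

theorem Two.finiteType (D : Two R M0 M1 M) : Algebra.FiniteType R M := by
  have h0 := finiteType_of_aeval D.fin0
  letI : Algebra M0 M := D.f0.toRingHom.toAlgebra
  have : IsScalarTower R M0 M := IsScalarTower.of_algebraMap_eq (fun x => (D.f0.commutes x).symm)
  have := D.loc0.away
  have : Algebra.FinitePresentation M0 M := IsLocalization.Away.finitePresentation D.u
  exact h0.trans inferInstance

end

variable {L : Type} [Field L] (K2 : Type) [Field K2] [Algebra L K2]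
  {A0 A1 A E0 E1 E : Type} [CommRing A0] [CommRing A1] [CommRing A] [CommRing E0] [CommRing E1]
  [CommRing E]
  [Algebra (L ⊗[ℤ] A0) E0] [Algebra L E0] [IsScalarTower L (L ⊗[ℤ] A0) E0]
  [Algebra (L ⊗[ℤ] A1) E1] [Algebra L E1] [IsScalarTower L (L ⊗[ℤ] A1) E1]
  [Algebra (L ⊗[ℤ] A) E] [Algebra L E] [IsScalarTower L (L ⊗[ℤ] A) E]
  [Module.Finite (L ⊗[ℤ] A0) E0] [Module.Finite (L ⊗[ℤ] A1) E1]

/-- a finite cover of the constant curve -/
structure Cov (L : Type) [Field L] {A0 A1 A : Type} [CommRing A0] [CommRing A1] [CommRing A]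
    (D : Two ℤ A0 A1 A) (E0 E1 E : Type) [CommRing E0] [CommRing E1] [CommRing E]
    [Algebra (L ⊗[ℤ] A0) E0] [Algebra (L ⊗[ℤ] A1) E1] [Algebra (L ⊗[ℤ] A) E] where
  g0 : E0 →+* E
  g1 : E1 →+* E
  hg0 : g0.comp (algebraMap (L ⊗[ℤ] A0) E0) =
    (algebraMap (L ⊗[ℤ] A) E).comp (mapL L D.f0.toRingHom)
  hg1 : g1.comp (algebraMap (L ⊗[ℤ] A1) E1) =
    (algebraMap (L ⊗[ℤ] A) E).comp (mapL L D.f1.toRingHom)
  hl0 : IsLoc g0 (algebraMap (L ⊗[ℤ] A0) E0 (1 ⊗ₜ D.u))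
  hl1 : IsLoc g1 (algebraMap (L ⊗[ℤ] A1) E1 (1 ⊗ₜ D.v))

theorem map_eq_mapL {A A' : Type} [CommRing A] [CommRing A'] (f : A →ₐ[ℤ] A') :
    (Algebra.TensorProduct.map (AlgHom.id L L) f).toRingHom = mapL L f.toRingHom := by
  apply tensor_ringHom_ext (N := L ⊗[ℤ] A') <;> intro x <;> simp

variable {D : Two ℤ A0 A1 A} (c : Cov L D E0 E1 E)

/-- the cover over `L` -/
noncomputable def Cov.twoE : Two L E0 E1 E :=
  (D.baseChange L).extend ⟨c.g0, fun l => RingHom.congr_fun (lin_of_comm c.hg0) l⟩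
    ⟨c.g1, fun l => RingHom.congr_fun (lin_of_comm c.hg1) l⟩
    (fun a => (RingHom.congr_fun c.hg0 a).trans
      (congrArg (algebraMap _ E) (RingHom.congr_fun (map_eq_mapL D.f0) a).symm))
    (fun a => (RingHom.congr_fun c.hg1 a).trans
      (congrArg (algebraMap _ E) (RingHom.congr_fun (map_eq_mapL D.f1) a).symm))
    c.hl0 c.hl1

/-- the special fibre -/
noncomputable def Cov.twoS : Two K2 (K2 ⊗[L] E0) (K2 ⊗[L] E1) (K2 ⊗[L] E) :=
  c.twoE.baseChange K2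

theorem Cov.twoS_f0 : (c.twoS K2).f0 = SSmap K2 c.hg0 := rfl

theorem Cov.twoS_f1 : (c.twoS K2).f1 = SSmap K2 c.hg1 := rfl

variable {W : Type} [CommRing W] [Algebra K2 W] (i : L →+* W)

/-- the constant family -/
noncomputable def Cov.twoT : Two W (TT K2 A0 E0 i) (TT K2 A1 E1 i) (TT K2 A E i) :=
  (c.twoS K2).baseChange W

theorem isLoc_ZZmap {A0 E0 : Type} [CommRing A0] [CommRing E0] [Algebra (L ⊗[ℤ] A0) E0]
    [Algebra L E0] [IsScalarTower L (L ⊗[ℤ] A0) E0] {f : A0 →ₐ[ℤ] A} {g : E0 →+* E}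
    (hg : g.comp (algebraMap (L ⊗[ℤ] A0) E0) =
      (algebraMap (L ⊗[ℤ] A) E).comp (mapL L f.toRingHom)) {u : A0} (hu : IsLoc f.toRingHom u)
    (hl : IsLoc g (algebraMap (L ⊗[ℤ] A0) E0 (1 ⊗ₜ u)))
    (hT : IsLoc (TTmap K2 i i (AlgHom.id K2 W) hg)
      (eIn K2 A0 E0 i (algebraMap (L ⊗[ℤ] A0) E0 (1 ⊗ₜ u)))) :
    IsLoc (ZZmap K2 i i (AlgHom.id K2 W) hg (fun _ => rfl))
      (algebraMap (TT K2 A0 E0 i) _ (eIn K2 A0 E0 i (algebraMap (L ⊗[ℤ] A0) E0 (1 ⊗ₜ u)))) := by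
  have h1 := isLoc_baseChange L f hu
  rw [map_eq_mapL] at h1
  have h2 := IsLoc.tensor (TTmap_jj K2 i i (AlgHom.id K2 W) hg (fun _ => rfl)) hg h1 hT hl
  refine h2.of_dvd ?_ 2 ?_
  · have := hT.unit.map (algebraMap (TT K2 A E i) (TT K2 A E i ⊗[L ⊗[ℤ] A] E))
    simpa [Algebra.TensorProduct.algebraMap_apply] using this
  · apply dvd_of_eq
    have e : eIn K2 A0 E0 i (algebraMap (L ⊗[ℤ] A0) E0 (1 ⊗ₜ u)) =
        algebraMap (L ⊗[ℤ] A0) (TT K2 A0 E0 i) (1 ⊗ₜ u) := by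
      rw [jj_tmul, map_one, map_one, one_mul]
    rw [e]
    exact tmul_sq _

instance (A E : Type) [CommRing A] [CommRing E] [Algebra (L ⊗[ℤ] A) E] [Algebra L E]
    [IsScalarTower L (L ⊗[ℤ] A) E] :
    IsScalarTower W (TT K2 A E i) (TT K2 A E i ⊗[L ⊗[ℤ] A] E) :=
  IsScalarTower.of_algebraMap_eq (fun _ => rfl)

/-- the fibre product of the two families -/
noncomputable def Cov.twoZ : Two W (TT K2 A0 E0 i ⊗[L ⊗[ℤ] A0] E0)
    (TT K2 A1 E1 i ⊗[L ⊗[ℤ] A1] E1) (TT K2 A E i ⊗[L ⊗[ℤ] A] E) :=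
  (c.twoT K2 i).extend
    ⟨ZZmap K2 i i (AlgHom.id K2 W) c.hg0 (fun _ => rfl), ZZmap_algebraMap K2 i i _ _ _⟩
    ⟨ZZmap K2 i i (AlgHom.id K2 W) c.hg1 (fun _ => rfl), ZZmap_algebraMap K2 i i _ _ _⟩
    (fun a => (ZZmap_tmul K2 i i (AlgHom.id K2 W) c.hg0 (fun _ => rfl) a 1).trans
      (by rw [map_one]; rfl))
    (fun a => (ZZmap_tmul K2 i i (AlgHom.id K2 W) c.hg1 (fun _ => rfl) a 1).trans
      (by rw [map_one]; rfl))
    (isLoc_ZZmap K2 i c.hg0 D.loc0 c.hl0 (c.twoT K2 i).loc0)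
    (isLoc_ZZmap K2 i c.hg1 D.loc1 c.hl1 (c.twoT K2 i).loc1)

theorem Cov.twoZ_f0 (z : TT K2 A0 E0 i ⊗[L ⊗[ℤ] A0] E0) :
    (c.twoZ K2 i).f0 z = ZZmap K2 i i (AlgHom.id K2 W) c.hg0 (fun _ => rfl) z := rfl

theorem Cov.twoZ_f1 (z : TT K2 A1 E1 i ⊗[L ⊗[ℤ] A1] E1) :
    (c.twoZ K2 i).f1 z = ZZmap K2 i i (AlgHom.id K2 W) c.hg1 (fun _ => rfl) z := rfl

end Pool.Agent.H191Z.Rig
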