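import Pool.Agent.H191Z.GAff

set_option autoImplicit false

universe u v u₀ v₀

open CategoryTheory AlgebraicGeometry

namespace Pool.Agent.H191Z.Gerbe

/-- `(z, a, b)` represents the sheaf of isomorphisms between `x` and `y` -/
def CatOver.IsIsom {C : Type u₀} [Category.{v₀} C] (Y : CatOver.{u} C) {S P : C}
    {x y : Y.Obj S} {z : Y.Obj P} (a : Y.Hom z x) (b : Y.Hom z y) : Prop :=
  Y.base a = Y.base b ∧
  ∀ {T : C} {z' : Y.Obj T} (a' : Y.Hom z' x) (b' : Y.Hom z' y), Y.base a' = Y.base b' →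
    ∃! h : Y.Hom z' z, Y.comp h a = a' ∧ Y.comp h b = b'

/-- sheaves of isomorphisms over affine schemes are representable by finite schemes -/
def HasFiniteDiagonal {k : Type} [Field k] (Y : CatOver.{u} (Sch k)) : Prop :=
  ∀ {S : Sch k}, IsAffine S.left → ∀ x y : Y.Obj S,
    ∃ (P : Sch k) (z : Y.Obj P) (a : Y.Hom z x) (b : Y.Hom z y),
      IsFinite (Y.base a).left ∧ Y.IsIsom a b

end Pool.Agent.H191Z.Gerbe
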